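import Pool.Agent.ShghPE.Spec

/-!
# ShghPE/BandX: the window of the strip at level `r`
-/

namespace ShghPE

open MvPolynomial ShghJ ShghC ShghK ShghPS

universe u

private theorem bx_anti (r X μ : ℕ) {j j' : ℕ} (hj : 1 ≤ j) (h : j ≤ j') :
    Wn r X μ j' ≤ Wn r X μ j := by
  unfold Wn
  exact Nat.add_le_add_right
    (Nat.div_le_div_left (Nat.pow_le_pow_left h _) (Nat.pow_pos hj)) _

private theorem bx_mono (F : Type u) [Field F] {μ j L W W' : ℕ} (hW : W ≤ W')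
    (h : BC F μ j (L + 1) W) : BlkC F μ j L W' := by
  intro t ht
  exact ⟨fun h' => (h t ht).1 (le_trans (Nat.add_le_add_left hW _) h'),
    fun h' => (h t ht).2 (le_trans (Nat.add_le_add_left hW _) h')⟩

/-- `40 * 6.25 ^ (r + 1) ≤ X ^ (r + 1)`. -/
private theorem bx_pow (X R j r : ℕ) (hX : 1000 ≤ X) (hj : 4 * R ≤ 10 * j) :
    40 * R ^ (2 * r + 2) ≤ X ^ (r + 1) * j ^ (2 * r + 2) := by
  have e1 : ∀ z : ℕ, z ^ (2 * r + 2) = (z ^ 2) ^ (r + 1) := by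
    intro z
    rw [← pow_mul]
    ring_nf
  have h1 : 16 * R ^ 2 ≤ 100 * j ^ 2 := by
    have := Nat.pow_le_pow_left hj 2
    have a1 : (4 * R) ^ 2 = 16 * R ^ 2 := by ring
    have a2 : (10 * j) ^ 2 = 100 * j ^ 2 := by ring
    omega
  have h2 : 160 * R ^ 2 ≤ 1000 * j ^ 2 := by omega
  have h3 : (160 * R ^ 2) ^ (r + 1) ≤ (X * j ^ 2) ^ (r + 1) :=
    Nat.pow_le_pow_left (le_trans h2 (Nat.mul_le_mul_right _ hX)) _
  rw [mul_pow, mul_pow, ← e1, ← e1] at h3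
  refine le_trans (Nat.mul_le_mul_right _ ?_) h3
  calc 40 ≤ 160 ^ 1 := by norm_num
    _ ≤ 160 ^ (r + 1) := Nat.pow_le_pow_right (by norm_num) (by omega)

private theorem bx_main (X R m μ J j r : ℕ) (hX : 1000 ≤ X) (hR : 1 ≤ R) (hJ : 100 * J ≤ 65 * R)
    (hμ : 100 * (μ * R) ≤ 775 * m) (hj : 4 * R ≤ 10 * j) :
    J * (X ^ ((2 * r + 5) * (r + 1)) * μ ^ 2 / j ^ (2 * r + 2)) ≤
      X ^ (2 * r ^ 2 + 8 * r + 6) * m ^ 2 / R ^ (2 * r + 3) := by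
  have hj0 : 0 < j := by omega
  have hB : 0 < j ^ (2 * r + 2) := Nat.pow_pos hj0
  have hD : 0 < R ^ (2 * r + 3) := Nat.pow_pos hR
  rw [Nat.le_div_iff_mul_le hD]
  set A := X ^ ((2 * r + 5) * (r + 1)) * μ ^ 2 with hA
  have h1 : A / j ^ (2 * r + 2) * j ^ (2 * r + 2) ≤ A := Nat.div_mul_le_self _ _
  apply Nat.le_of_mul_le_mul_right _ hB
  have h2 : 10000 * (μ ^ 2 * R ^ 2) ≤ 600625 * m ^ 2 := by
    have := Nat.pow_le_pow_left hμ 2
    have a1 : (100 * (μ * R)) ^ 2 = 10000 * (μ ^ 2 * R ^ 2) := by ring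
    have a2 : (775 * m) ^ 2 = 600625 * m ^ 2 := by ring
    omega
  have h3 : 100 * J * (10000 * (μ ^ 2 * R ^ 2)) ≤ 65 * R * (600625 * m ^ 2) :=
    Nat.mul_le_mul hJ h2
  have h4 : J * (μ ^ 2 * R ^ 2) ≤ 40 * (R * m ^ 2) := by
    have a1 : 100 * J * (10000 * (μ ^ 2 * R ^ 2)) = 1000000 * (J * (μ ^ 2 * R ^ 2)) := by ring
    have a2 : 65 * R * (600625 * m ^ 2) = 39040625 * (R * m ^ 2) := by ring
    rw [a1, a2] at h3
    omega
  have h5 := bx_pow X R j r hX hj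
  calc J * (A / j ^ (2 * r + 2)) * R ^ (2 * r + 3) * j ^ (2 * r + 2) =
        J * R ^ (2 * r + 3) * (A / j ^ (2 * r + 2) * j ^ (2 * r + 2)) := by ring
    _ ≤ J * R ^ (2 * r + 3) * A := Nat.mul_le_mul_left _ h1
    _ = X ^ ((2 * r + 5) * (r + 1)) * R ^ (2 * r + 1) * (J * (μ ^ 2 * R ^ 2)) := by
        rw [hA]; ring
    _ ≤ X ^ ((2 * r + 5) * (r + 1)) * R ^ (2 * r + 1) * (40 * (R * m ^ 2)) :=
        Nat.mul_le_mul_left _ h4
    _ = X ^ ((2 * r + 5) * (r + 1)) * m ^ 2 * (40 * R ^ (2 * r + 2)) := by ring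
    _ ≤ X ^ ((2 * r + 5) * (r + 1)) * m ^ 2 * (X ^ (r + 1) * j ^ (2 * r + 2)) :=
        Nat.mul_le_mul_left _ h5
    _ = X ^ (2 * r ^ 2 + 8 * r + 6) * m ^ 2 * j ^ (2 * r + 2) := by
        have e : X ^ (2 * r ^ 2 + 8 * r + 6) = X ^ ((2 * r + 5) * (r + 1)) * X ^ (r + 1) := by
          rw [← pow_add]; ring_nf
        rw [e]; ring

private theorem bx_th (X R m μ J j r L : ℕ) (hX : 1000 ≤ X) (hR : 10 ^ 6 * X ^ 2 ≤ R)
    (hJ : 100 * J ≤ 65 * R) (hμ : 100 * (μ * R) ≤ 775 * m) (hj : 4 * R ≤ 10 * j)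
    (hJL : J * (L + 1) ≤ 4 * (R * m)) : J * (Wn r X μ j + L + 1) ≤ ThX X r m R := by
  have hR1 : 1 ≤ R := by
    have : 1 ≤ X ^ 2 := Nat.one_le_pow _ _ (by omega)
    omega
  have h1 := bx_main X R m μ J j r hX hR1 hJ hμ hj
  have h2 : J * (Wn r X μ j + L + 1) =
      J * (X ^ ((2 * r + 5) * (r + 1)) * μ ^ 2 / j ^ (2 * r + 2)) + J * (X ^ 2 * μ) +
        J * (L + 1) := by
    unfold Wn; ring
  have h3 : J * (X ^ 2 * μ) ≤ R * m := by
    have a1 : 100 * J * (10 ^ 6 * X ^ 2 * μ) ≤ 65 * R * (R * μ) :=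
      Nat.mul_le_mul hJ (Nat.mul_le_mul_right _ hR)
    have a2 : 65 * R * (100 * (μ * R)) ≤ 65 * R * (775 * m) := Nat.mul_le_mul_left _ hμ
    have a3 : 100 * J * (10 ^ 6 * X ^ 2 * μ) = 10 ^ 8 * (J * (X ^ 2 * μ)) := by ring
    have a4 : 65 * R * (100 * (μ * R)) = 100 * (65 * R * (R * μ)) := by ring
    have a5 : 65 * R * (775 * m) = 50375 * (R * m) := by ring
    rw [a3] at a1
    rw [a4, a5] at a2
    omega
  have h5 : ThX X r m R = X ^ (2 * r ^ 2 + 8 * r + 6) * m ^ 2 / R ^ (2 * r + 3) +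
      5 * (R * m) := rfl
  rw [h2, h5]
  generalize J * (X ^ ((2 * r + 5) * (r + 1)) * μ ^ 2 / j ^ (2 * r + 2)) = x at h1 ⊢
  generalize X ^ (2 * r ^ 2 + 8 * r + 6) * m ^ 2 / R ^ (2 * r + 3) = y at h1 ⊢
  omega

theorem tBandX (h1 : S_NumX) (h2 : ShghPS.S_StripW.{u}) : S_BandX.{u} := by
  intro F _ _ X R m r hX hR hXR hRm hm hP a g μ β δ L π ha1 ha2 hg1 hg2 hμ1 hμ2 hgb hβ hL hπ
    hπ1 hπ2
  have hXX : 10 ^ 6 * X ≤ R := by
    refine le_trans (Nat.mul_le_mul_left _ ?_) hR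
    rw [pow_two]
    exact Nat.le_mul_of_pos_left _ (by omega)
  have hR0 : 0 < R := by omega
  obtain ⟨n1, n2, J, hJ1, hJ2, hJ3, hJ4, hJ5, hj⟩ :=
    h1 X R m a g μ L π hX hXX hm ha1 ha2 hg1 hg2 hμ1 hμ2 hπ hπ1 hπ2
  have hμr : (8 * R) ^ (r + 2) ≤ μ := by
    have b1 : 165 * (8 * R) ^ (r + 3) ≤ 100 * (μ * R) :=
      le_trans (Nat.mul_le_mul_left _ hRm) n1
    have b2 : (8 * R) ^ (r + 3) = (8 * R) ^ (r + 2) * (8 * R) := pow_succ _ _
    have b3 : 1320 * ((8 * R) ^ (r + 2)) * R ≤ 100 * μ * R := by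
      calc 1320 * ((8 * R) ^ (r + 2)) * R = 165 * (8 * R) ^ (r + 3) := by rw [b2]; ring
        _ ≤ 100 * (μ * R) := b1
        _ = 100 * μ * R := by ring
    have b4 := Nat.le_of_mul_le_mul_right b3 hR0
    omega
  have hj0 : 1 ≤ g / J := by
    have := (hj _ (Or.inl rfl)).2
    omega
  have blk : ∀ j, (j = g / J ∨ j = g / J + 1) → BlkC F μ j L (Wn r X μ (g / J)) := by
    intro j hjj
    obtain ⟨e1, e2⟩ := hj j hjj
    have hj4 : j ≤ 4 * R := by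
      rcases hjj with h | h
      · rw [h]; exact (Nat.le_succ _).trans hJ3
      · rw [h]; exact hJ3
    have hjg : g / J ≤ j := by
      rcases hjj with h | h
      · rw [h]
      · rw [h]; exact Nat.le_succ _
    exact bx_mono F (bx_anti r X μ hj0 hjg)
      (hP μ j (L + 1) (Nat.succ_le_succ (Nat.zero_le _)) e1 (by omega) (by omega) hμr)
  have hβ2 : 2 * (g / J + 1) ≤ β := by
    generalize g / J + 1 = w at hJ3 ⊢
    omega
  obtain ⟨c1, c2⟩ := h2 F (a ^ 2) m μ β δ L g J (Wn r X μ (g / J)) hgb hL hJ1 hβ2 hJ4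
    (blk _ (Or.inl rfl)) (blk _ (Or.inr rfl))
  have hth : J * (Wn r X μ (g / J) + L + 1) ≤ ThX X r m R :=
    bx_th X R m μ J (g / J) r L hX hR hJ2 n2 (hj _ (Or.inl rfl)).2 hJ5
  generalize hN F (Sf (a ^ 2) (m + μ) δ) (Multiset.replicate (2 * g) m) = H at c1 c2 ⊢
  have hE : (((m + μ + 1) * (L + 1) : ℕ) : ℤ) = ((g * (μ * (μ + 1)) : ℕ) : ℤ) + π := by
    push_cast
    exact hπ
  generalize J * (Wn r X μ (g / J) + L + 1) = x at c1 c2 hth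
  generalize (m + μ + 1) * (L + 1) = y at c1 c2 hE
  generalize g * (μ * (μ + 1)) = z at c1 c2 hE
  generalize ThX X r m R = w at hth ⊢
  constructor
  · intro h
    have := c1 (by omega)
    omega
  · intro h
    exact c2 (by omega)

end ShghPE
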