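import Pool.Agent.ShghPE.Spec

/-!
# ShghPE/Base: the statement `P_0`
-/

namespace ShghPE

open MvPolynomial ShghJ ShghC ShghK ShghPS

universe u

theorem tBase (h1 : S_BaseNum) (h2 : ShghPS.S_BlkZ.{u}) (h3 : ShghPS.S_BlkE.{u}) :
    S_Base.{u} := by
  intro F _ _ X Y hX μ j l hl hCl hXj hjY hYμ
  have hXj' : X ^ 6 ≤ j := hXj
  have hYμ' : Y ^ 2 ≤ μ := hYμ
  have h4 : 4 * j ^ 2 ≤ μ := by
    calc 4 * j ^ 2 = (2 * j) ^ 2 := by ring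
      _ ≤ Y ^ 2 := Nat.pow_le_pow_left hjY 2
      _ ≤ μ := hYμ'
  obtain ⟨L, rfl⟩ : ∃ L, l = L + 1 := ⟨l - 1, by omega⟩
  obtain ⟨g, M, e1, e2, e3, e4, e5, e6, e7⟩ := h1 X μ j (L + 1) hX hCl hXj' h4
  intro t ht
  have hL : L + 1 - 1 = L := rfl
  exact ⟨fun h => h3 F μ j L g M _ t e1 e2 e3 e4 e5 e6 e7 ht h,
    fun h => h2 F μ j L g M _ t e1 e2 e3 e4 e5 e6 e7 ht h⟩

end ShghPE
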