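import Pool.Agent.ShghPE.Spec

/-!
# ShghPE, BaseNum: numbers of the base
-/

namespace ShghPE

open MvPolynomial ShghJ ShghC ShghK ShghPS

universe u

private theorem core (X m j g l M W : ℝ) (hX : 1000 ≤ X) (hj : X ^ 6 ≤ j) (hm : 4 * j ^ 2 ≤ m)
    (hl : l = j * (m + 1) - g) (_hg1 : X * (m + 1) ≤ g) (hg2 : g ≤ 4 * X * (m + 1))
    (hW1 : j ^ 2 * W ≤ X ^ 5 * m ^ 2 + j ^ 2 * (X ^ 2 * m)) (hW2 : X ^ 5 * m ^ 2 ≤ j ^ 2 * W)
    (hM0 : 0 ≤ M) (hM : M * l ≤ m * g + W + l) :
    10 * M ≤ m ∧ M * (2 * (j * (M + 1)) + 7 * M) ≤ 2 * W + 2 * (M * g) := by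
  have hX0 : (0 : ℝ) < X := by linarith
  have hX2 : (0 : ℝ) < X ^ 2 := by positivity
  have hX5 : (0 : ℝ) < X ^ 5 := by positivity
  have hj5 : 1000 * X ^ 5 ≤ j := by
    have : 1000 * X ^ 5 ≤ X * X ^ 5 := mul_le_mul_of_nonneg_right hX hX5.le
    have h2 : X * X ^ 5 = X ^ 6 := by ring
    linarith
  have hX4 : (1000 : ℝ) ^ 4 ≤ X ^ 4 := pow_le_pow_left₀ (by norm_num) hX 4
  have hj1 : 10 ^ 15 * X ≤ j := by
    have : (1000 : ℝ) ^ 4 * X ≤ X ^ 4 * X := mul_le_mul_of_nonneg_right hX4 hX0.le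
    have h2 : X ^ 4 * X = X ^ 5 := by ring
    norm_num at this ⊢
    linarith
  have hj0 : 0 < j := by linarith
  have hjb : 10 ^ 18 ≤ j := by norm_num at hj1 ⊢; linarith
  have hjj : 4 * j ≤ m := by
    have : j * 1 ≤ j * j := mul_le_mul_of_nonneg_left (by norm_num at hjb; linarith) hj0.le
    nlinarith
  have hm0 : 0 < m := by linarith
  have hmb : (10 : ℝ) ^ 18 ≤ m := by linarith
  have hA : m + 1 ≤ 1001 / 1000 * m := by norm_num at hmb; linarith
  have hXj : X ^ 2 ≤ j ^ 2 / 10 ^ 30 := by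
    have : (10 ^ 15 * X) ^ 2 ≤ j ^ 2 := pow_le_pow_left₀ (by positivity) hj1 2
    have h2 : (10 ^ 15 * X) ^ 2 = 10 ^ 30 * X ^ 2 := by ring
    rw [h2] at this
    rw [le_div_iff₀ (by positivity)]
    linarith
  have hXm : X ^ 2 ≤ m / 10 ^ 30 := by
    have h1 : j ^ 2 / 10 ^ 30 ≤ m / 10 ^ 30 := by
      apply div_le_div_of_nonneg_right _ (by positivity)
      nlinarith [sq_nonneg j]
    linarith
  have hl1 : 999 / 1000 * (j * (m + 1)) ≤ l := by
    have h1 : 4 * X ≤ 1 / 1000 * j := by norm_num at hj1; linarith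
    have h2 : 4 * X * (m + 1) ≤ 1 / 1000 * j * (m + 1) := mul_le_mul_of_nonneg_right h1 (by linarith)
    have h3 : 1 / 1000 * j * (m + 1) = 1 / 1000 * (j * (m + 1)) := by ring
    linarith
  have hjm : 0 < j * (m + 1) := by positivity
  have hl0 : 0 < l := by linarith
  have hg0 : 0 ≤ g := by
    have : 0 < X * (m + 1) := by positivity
    linarith
  have hl2 : l ≤ j * (m + 1) := by linarith
  -- the quantity P = X j m (m + 1)
  -- W ≤ m^2 / 1000
  have hWm : W ≤ m ^ 2 / 1000 := by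
    have h1 : X ^ 5 * m ^ 2 ≤ j / 1000 * m ^ 2 :=
      mul_le_mul_of_nonneg_right (by linarith) (by positivity)
    have h1b : j / 1000 * m ^ 2 ≤ j ^ 2 * (m ^ 2 / 2000) := by
      have : j * 2 ≤ j * j := mul_le_mul_of_nonneg_left (by norm_num at hjb; linarith) hj0.le
      have h3 : j / 1000 * m ^ 2 = (j * 2) * (m ^ 2 / 2000) := by ring
      have h4 : j ^ 2 * (m ^ 2 / 2000) = (j * j) * (m ^ 2 / 2000) := by ring
      rw [h3, h4]
      exact mul_le_mul_of_nonneg_right this (by positivity)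
    have h2 : j ^ 2 * (X ^ 2 * m) ≤ j ^ 2 * (m ^ 2 / 2000) := by
      apply mul_le_mul_of_nonneg_left _ (by positivity)
      have h5 : X ^ 2 * m ≤ m / 10 ^ 30 * m := mul_le_mul_of_nonneg_right hXm hm0.le
      have h6 : m / 10 ^ 30 * m ≤ m ^ 2 / 2000 := by
        have h7 : m / 10 ^ 30 * m = m ^ 2 / 10 ^ 30 := by ring
        rw [h7]
        apply div_le_div_of_nonneg_left (by positivity) (by norm_num) (by norm_num)
      linarith
    have h3 : j ^ 2 * W ≤ j ^ 2 * (m ^ 2 / 1000) := by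
      have h8 : j ^ 2 * (m ^ 2 / 2000) + j ^ 2 * (m ^ 2 / 2000) = j ^ 2 * (m ^ 2 / 1000) := by ring
      linarith
    exact le_of_mul_le_mul_left h3 (by positivity)
  have hXX : 0 < X * (j * (m * (m + 1))) := by positivity
  have hmA : 0 < m * (m + 1) := by positivity
  have hjmA : 0 < j * (m * (m + 1)) := by positivity
  have hjP : 1000 * (j * (m * (m + 1))) ≤ X * (j * (m * (m + 1))) :=
    mul_le_mul_of_nonneg_right hX hjmA.le
  have hmP : 1000 * (m * (m + 1)) ≤ j * (m * (m + 1)) :=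
    mul_le_mul_of_nonneg_right (by norm_num at hjb; linarith) hmA.le
  have hjl : j * l ≤ m * (m + 1) / 4 := by
    have h1 : j * l ≤ j * (j * (m + 1)) := mul_le_mul_of_nonneg_left hl2 hj0.le
    have h2 : 4 * j ^ 2 * (m + 1) ≤ m * (m + 1) := mul_le_mul_of_nonneg_right hm (by linarith)
    nlinarith
  have hlP : 999 / 1000 * (X * (j * (m * (m + 1)))) ≤ X * m * l := by
    have h1 : X * m * (999 / 1000 * (j * (m + 1))) ≤ X * m * l :=
      mul_le_mul_of_nonneg_left hl1 (by positivity)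
    have h2 : X * m * (999 / 1000 * (j * (m + 1))) = 999 / 1000 * (X * (j * (m * (m + 1)))) := by
      ring
    linarith
  -- bound for M
  have hMb : 10 * (M * j) ≤ 41 * (X * m) := by
    have h1 : l * (10 * (M * j)) ≤ l * (41 * (X * m)) := by
      have e1 : l * (10 * (M * j)) = 10 * j * (M * l) := by ring
      have e2 : 10 * j * (M * l) ≤ 10 * j * (m * g + W + l) :=
        mul_le_mul_of_nonneg_left hM (by positivity)
      have e3 : 10 * j * (m * g + W + l) = 10 * (j * m * g) + 10 * (j * W) + 10 * (j * l) := by ring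
      have e4 : j * m * g ≤ j * m * (4 * X * (m + 1)) :=
        mul_le_mul_of_nonneg_left hg2 (by positivity)
      have e5 : j * m * (4 * X * (m + 1)) = 4 * (X * (j * (m * (m + 1)))) := by ring
      have e6 : j * W ≤ j * (m ^ 2 / 1000) := mul_le_mul_of_nonneg_left hWm hj0.le
      have e7 : j * (m ^ 2 / 1000) ≤ j * (m * (m + 1)) / 1000 := by
        have : j * (m * (m + 1)) / 1000 = j * (m ^ 2 / 1000) + j * m / 1000 := by ring
        have h9 : 0 < j * m / 1000 := by positivity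
        linarith
      have e8 : l * (41 * (X * m)) = 41 * (X * m * l) := by ring
      rw [e1, e8]
      linarith
    exact le_of_mul_le_mul_left h1 hl0
  refine ⟨?_, ?_⟩
  · have h1 : 41 * (X * m) ≤ j * m := by
      have : 41 * X ≤ j := by norm_num at hj1; linarith
      have h2 : 41 * X * m ≤ j * m := mul_le_mul_of_nonneg_right this hm0.le
      linarith
    have h2 : j * (10 * M) ≤ j * m := by linarith
    exact le_of_mul_le_mul_left h2 hj0
  · -- bound for j (j M - g)
    have hD : j * (j * M - g) ≤ 20 * (X ^ 2 * m) := by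
      have h1 : l * (j * (j * M - g)) ≤ l * (20 * (X ^ 2 * m)) := by
        have e1 : l * (j * (j * M - g)) = j ^ 2 * (M * l) - j * (g * l) := by ring
        have e2 : j ^ 2 * (M * l) ≤ j ^ 2 * (m * g + W + l) :=
          mul_le_mul_of_nonneg_left hM (by positivity)
        have e3 : j ^ 2 * (m * g + W + l) - j * (g * l) =
            j * g ^ 2 - j ^ 2 * g + j ^ 2 * W + j ^ 2 * l := by
          rw [hl]; ring
        have e4 : g ^ 2 ≤ (4 * X * (m + 1)) ^ 2 := pow_le_pow_left₀ hg0 hg2 2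
        have e5 : j * g ^ 2 ≤ j * (4 * X * (m + 1)) ^ 2 := mul_le_mul_of_nonneg_left e4 hj0.le
        have e6 : j * (4 * X * (m + 1)) ^ 2 = 16 * (X ^ 2 * (j * (m + 1) * (m + 1))) := by ring
        have e7 : X ^ 2 * (j * (m + 1) * (m + 1)) ≤ X ^ 2 * (j * (m + 1) * (1001 / 1000 * m)) := by
          apply mul_le_mul_of_nonneg_left _ hX2.le
          exact mul_le_mul_of_nonneg_left hA hjm.le
        have e8 : X ^ 2 * (j * (m + 1) * (1001 / 1000 * m)) =
            1001 / 1000 * (X * (X * (j * (m * (m + 1))))) := by ring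
        have e9 : 1000 * (X * (j * (m * (m + 1)))) ≤ X * (X * (j * (m * (m + 1)))) :=
          mul_le_mul_of_nonneg_right hX hXX.le
        have f1 : X ^ 5 * m ^ 2 ≤ j * (m * (m + 1)) := by
          have h3 : X ^ 5 ≤ j := by linarith
          have h4 : m ^ 2 ≤ m * (m + 1) := by nlinarith
          exact mul_le_mul h3 h4 (by positivity) hj0.le
        have f2 : j ^ 2 * (X ^ 2 * m) ≤ X * (X * (j * (m * (m + 1)))) / 1000 := by
          have h3 : 1000 * j ≤ m + 1 := by
            have h5 : j * 250 ≤ j * j := mul_le_mul_of_nonneg_left (by norm_num at hjb; linarith) hj0.le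
            nlinarith
          have h4 : X ^ 2 * j * m * (1000 * j) ≤ X ^ 2 * j * m * (m + 1) :=
            mul_le_mul_of_nonneg_left h3 (by positivity)
          have h5 : X ^ 2 * j * m * (1000 * j) = 1000 * (j ^ 2 * (X ^ 2 * m)) := by ring
          have h6 : X ^ 2 * j * m * (m + 1) = X * (X * (j * (m * (m + 1)))) := by ring
          linarith
        have f3 : j ^ 2 * l ≤ j * (m * (m + 1)) / 4 := by
          have h3 : j * (j * l) ≤ j * (m * (m + 1) / 4) := mul_le_mul_of_nonneg_left hjl hj0.le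
          have h4 : j * (j * l) = j ^ 2 * l := by ring
          have h5 : j * (m * (m + 1) / 4) = j * (m * (m + 1)) / 4 := by ring
          linarith
        have f4 : 0 ≤ j ^ 2 * g := by positivity
        have f5 : l * (20 * (X ^ 2 * m)) = 20 * (X * (X * m * l)) := by ring
        have f6 : X * (999 / 1000 * (X * (j * (m * (m + 1))))) ≤ X * (X * m * l) :=
          mul_le_mul_of_nonneg_left hlP hX0.le
        have f7 : X * (999 / 1000 * (X * (j * (m * (m + 1))))) =
            999 / 1000 * (X * (X * (j * (m * (m + 1))))) := by ring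
        rw [e1, f5]
        linarith
      exact le_of_mul_le_mul_left h1 hl0
    have hK : 2 * (j * (j * M - g)) + 2 * j ^ 2 + 7 * (M * j) ≤ 41 * (X ^ 2 * m) := by
      have h1 : 1000 * (X * m) ≤ X ^ 2 * m := by
        have h3 : 1000 * (X * m) ≤ X * (X * m) := mul_le_mul_of_nonneg_right hX (by positivity)
        have h4 : X * (X * m) = X ^ 2 * m := by ring
        linarith
      have h2 : 1000 * m ≤ X * m := mul_le_mul_of_nonneg_right hX hm0.le
      linarith
    have hT : j ^ 2 * (M * (2 * (j * M - g) + 2 * j + 7 * M)) ≤ j ^ 2 * (2 * W) := by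
      have h1 : j ^ 2 * (M * (2 * (j * M - g) + 2 * j + 7 * M)) =
          (M * j) * (2 * (j * (j * M - g)) + 2 * j ^ 2 + 7 * (M * j)) := by ring
      have h2 : (M * j) * (2 * (j * (j * M - g)) + 2 * j ^ 2 + 7 * (M * j)) ≤
          (M * j) * (41 * (X ^ 2 * m)) := mul_le_mul_of_nonneg_left hK (by positivity)
      have h3 : (M * j) * (41 * (X ^ 2 * m)) ≤ (41 / 10 * (X * m)) * (41 * (X ^ 2 * m)) :=
        mul_le_mul_of_nonneg_right (by linarith) (by positivity)
      have h4 : (41 / 10 * (X * m)) * (41 * (X ^ 2 * m)) = 1681 / 10 * (X ^ 3 * m ^ 2) := by ring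
      have h5 : 1000 * (X ^ 3 * m ^ 2) ≤ X ^ 2 * (X ^ 3 * m ^ 2) := by
        apply mul_le_mul_of_nonneg_right _ (by positivity)
        nlinarith
      have h6 : X ^ 2 * (X ^ 3 * m ^ 2) = X ^ 5 * m ^ 2 := by ring
      have h7 : 0 < X ^ 3 * m ^ 2 := by positivity
      rw [h1]
      linarith
    have hT2 := le_of_mul_le_mul_left hT (by positivity)
    have h8 : M * (2 * (j * (M + 1)) + 7 * M) =
        M * (2 * (j * M - g) + 2 * j + 7 * M) + 2 * (M * g) := by ring
    rw [h8]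
    linarith

theorem tBaseNum : S_BaseNum := by
  intro X μ j l hX hC hj hm
  obtain ⟨hc1, hc2⟩ := hC
  have hX6 : 1000 ^ 6 ≤ X ^ 6 := Nat.pow_le_pow_left hX 6
  have hj0 : 1000 ^ 6 ≤ j := hX6.trans hj
  have hjj : j ≤ j ^ 2 := Nat.le_self_pow (by norm_num) j
  have hle : l ≤ j * (μ + 1) := by
    have := Nat.zero_le (X * (μ + 1))
    omega
  set g : ℕ := j * (μ + 1) - l with hg
  have hgl : j * (μ + 1) = l + g := by omega
  have hg1 : X * (μ + 1) ≤ g := by omega
  have hg2 : g ≤ 4 * X * (μ + 1) := by omega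
  have hXj : 4 * X < j := by
    have h1 : 1000 * X ≤ X ^ 6 := by
      have h2 : X ^ 6 = X ^ 5 * X := by ring
      rw [h2]
      apply Nat.mul_le_mul_right
      calc 1000 ≤ X ^ 1 := by simpa using hX
        _ ≤ X ^ 5 := Nat.pow_le_pow_right (by omega) (by norm_num)
    omega
  have hl0 : 0 < l := by
    have h1 : 4 * X * (μ + 1) < j * (μ + 1) := Nat.mul_lt_mul_of_pos_right hXj (by omega)
    omega
  set W : ℕ := Wn 0 X μ j with hW
  have hWd : W = X ^ 5 * μ ^ 2 / j ^ 2 + X ^ 2 * μ := by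
    rw [hW]; unfold Wn; norm_num
  have hjp : 0 < j ^ 2 := by positivity
  set w0 : ℕ := X ^ 5 * μ ^ 2 / j ^ 2 with hw0
  have hw1 : j ^ 2 * w0 ≤ X ^ 5 * μ ^ 2 := Nat.mul_div_le _ _
  have hw2 : X ^ 5 * μ ^ 2 < j ^ 2 * (w0 + 1) := by
    have := Nat.lt_mul_div_succ (X ^ 5 * μ ^ 2) hjp
    simpa [hw0] using this
  set M : ℕ := (μ * g + W) / l + 1 with hMd
  have hM1 : μ * g + W < M * l := by
    have := Nat.lt_mul_div_succ (μ * g + W) hl0
    rw [hMd, Nat.mul_comm ((μ * g + W) / l + 1) l]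
    exact this
  have hM2 : M * l ≤ μ * g + W + l := by
    have := Nat.div_mul_le_self (μ * g + W) l
    rw [hMd, Nat.add_mul, Nat.one_mul]
    omega
  have hμ0 : 1 ≤ μ := by omega
  have key := core (X : ℝ) μ j g l M W (by exact_mod_cast hX) (by exact_mod_cast hj)
    (by exact_mod_cast hm)
    (by
      have : ((j * (μ + 1) : ℕ) : ℝ) = ((l + g : ℕ) : ℝ) := by rw [hgl]
      push_cast at this
      linarith)
    (by exact_mod_cast hg1) (by exact_mod_cast hg2)
    (by
      rw [hWd]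
      have h1 : ((j ^ 2 * w0 : ℕ) : ℝ) ≤ ((X ^ 5 * μ ^ 2 : ℕ) : ℝ) := by exact_mod_cast hw1
      push_cast at h1 ⊢
      linarith)
    (by
      rw [hWd]
      have h1 : ((X ^ 5 * μ ^ 2 : ℕ) : ℝ) ≤ ((j ^ 2 * (w0 + 1) : ℕ) : ℝ) := by exact_mod_cast hw2.le
      have h2 : ((j ^ 2 * 1 : ℕ) : ℝ) ≤ ((j ^ 2 * (X ^ 2 * μ) : ℕ) : ℝ) := by
        apply Nat.cast_le.mpr
        apply Nat.mul_le_mul_left
        have h3 : 0 < X ^ 2 * μ := by positivity
        omega
      push_cast at h1 h2 ⊢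
      linarith)
    (by positivity) (by exact_mod_cast hM2)
  refine ⟨g, M, hgl, by omega, by omega, ?_, ?_, hM1.le, ?_⟩
  · have h1 : 1000 * (μ + 1) ≤ X * (μ + 1) := Nat.mul_le_mul_right _ hX
    omega
  · exact_mod_cast key.1
  · exact_mod_cast key.2

end ShghPE
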