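import Pool.Agent.ShghPE.Spec
import Pool.Agent.ShghZ.CutBox

/-!
# ShghPE, CB2: a box is cut into two boxes
-/

namespace ShghPE

open MvPolynomial ShghJ ShghC ShghK ShghPS

universe u

theorem tCB2 : S_CB2.{u} := by
  intro F _ x y L A B hx hy
  exact ShghZ.cutBox2 F (x + y - 1) L x y A B hx hy (by omega)

end ShghPE
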