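import Pool.Agent.ShghPE.Spec

/-!
# ShghPE, CRT: Chinese remainder theorem as a sum of fractions
-/

namespace ShghPE

open MvPolynomial ShghJ ShghC ShghK ShghPS

theorem tCRT : S_CRT := by
  intro l
  induction l with
  | nil =>
    intro _ _ z
    exact ⟨[], z, rfl, by simp, by simp⟩
  | cons q l ih =>
    intro hl hq z
    rw [List.pairwise_cons] at hl
    have hq2 : 2 ≤ q := hq q (List.mem_cons_self ..)
    have hcop : IsCoprime (l.prod : ℤ) (q : ℤ) := by
      rw [Nat.isCoprime_iff_coprime]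
      exact (Nat.Coprime.symm (Nat.coprime_list_prod_right_iff.2 hl.1))
    obtain ⟨α, γ, h⟩ := hcop
    have hq0 : (0 : ℤ) < q := by omega
    have hb0 := Int.emod_nonneg (z * α) hq0.ne'
    have hb1 := Int.emod_lt_of_pos (z * α) hq0
    have hb2 := Int.emod_add_mul_ediv (z * α) q
    obtain ⟨b, hb⟩ : ∃ b : ℕ, (b : ℤ) = z * α % q := ⟨_, Int.toNat_of_nonneg hb0⟩
    have hbq : b < q := by omega
    obtain ⟨u, hu⟩ : ∃ u : ℤ, u = z * γ + (z * α / q) * (l.prod : ℕ) := ⟨_, rfl⟩
    obtain ⟨p, J, hp1, hp2, hp3⟩ := ih hl.2 (fun x hx => hq x (List.mem_cons_of_mem _ hx)) u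
    refine ⟨(q, b) :: p, J, ?_, ?_, ?_⟩
    · rw [List.map_cons, hp1]
    · intro x hx
      rcases List.mem_cons.1 hx with rfl | hx
      · exact hbq
      · exact hp2 x hx
    · have hP : ((l.prod : ℕ) : ℝ) ≠ 0 := by
        rw [Nat.cast_ne_zero]
        intro h0
        rw [List.prod_eq_zero_iff] at h0
        have := hq 0 (List.mem_cons_of_mem _ h0)
        omega
      have hqR : (q : ℝ) ≠ 0 := by
        rw [Nat.cast_ne_zero]
        omega
      have hz : z = b * (l.prod : ℕ) + u * q := by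
        rw [hb, hu]
        linear_combination (-z) * h + ((l.prod : ℕ) : ℤ) * hb2.symm
      rw [List.map_cons, List.sum_cons, List.prod_cons]
      have hz' : (z : ℝ) = b * (l.prod : ℕ) + (u : ℝ) * q := by
        generalize l.prod = P at hz
        exact_mod_cast hz
      have e : (z : ℝ) / ((q * l.prod : ℕ) : ℝ) = (b : ℝ) / q + (u : ℝ) / (l.prod : ℕ) := by
        rw [hz', Nat.cast_mul]
        field_simp
      rw [e, hp3]
      ring

end ShghPE
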