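import Pool.Agent.ShghPE.Spec

/-!
# ShghPE, CritNum: the numbers of a critical box
-/

namespace ShghPE

open MvPolynomial ShghJ ShghC ShghK ShghPS

universe u

/-- The estimates, for real numbers; `N = T - m`. -/
private theorem cn_core (x m J L T P N : ℝ) (hx : 1000 ≤ x) (h1 : L + x * (m + 1) ≤ J * (m + 1))
    (h2 : J * (m + 1) ≤ L + 4 * x * (m + 1)) (hJ : 10000 * x ≤ J) (hm : J ≤ m)
    (hP : P = T * L - J * (m * (m + 1))) (hP1 : 1000 * (|P| * J) ≤ m ^ 2) (hN : N = T - m) :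
    9 * (x * m) ≤ 10 * (J * N) ∧ 10 * (J * N) ≤ 42 * (x * m) ∧ x * T ≤ J * N + T ∧
      J * N ≤ (4 * x + 1) * T ∧ 100 * T ≤ 101 * m ∧ 0 < L + J * (N - 1) - J * m ∧ 2 ≤ N := by
  have hx0 : 0 < x := by linarith
  have hJ0 : 0 < J := by linarith
  have hm0 : 0 < m := by linarith
  have hJ1 : 1 ≤ J := by linarith
  have hm1 : 0 < m + 1 := by linarith
  have hJm : 0 < J * (m + 1) := mul_pos hJ0 hm1
  have hPJ : |P| ≤ |P| * J := le_mul_of_one_le_right (abs_nonneg _) hJ1
  have hPx : |P| * x ≤ |P| * J := mul_le_mul_of_nonneg_left (by linarith) (abs_nonneg _)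
  have hA1 := le_abs_self P
  have hA2 := neg_abs_le P
  have hmm : m ^ 2 ≤ m * (m + 1) := by nlinarith
  have hxm : m * (m + 1) * 1000 ≤ x * (m * (m + 1)) := by
    have := mul_le_mul_of_nonneg_right hx (mul_pos hm0 hm1).le
    linarith
  have hmm0 : 0 < m * (m + 1) := mul_pos hm0 hm1
  have hL : 999 * (J * (m + 1)) ≤ 1000 * L := by
    have := mul_le_mul_of_nonneg_right (show 4000 * x ≤ J by linarith) hm1.le
    linarith
  have hL0 : 0 < L := by linarith
  have hNL : N * L = m * (J * (m + 1) - L) + P := by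
    rw [hN, hP]
    ring
  have hg1 : m * (x * (m + 1)) ≤ m * (J * (m + 1) - L) :=
    mul_le_mul_of_nonneg_left (by linarith) hm0.le
  have hg2 : m * (J * (m + 1) - L) ≤ m * (4 * x * (m + 1)) :=
    mul_le_mul_of_nonneg_left (by linarith) hm0.le
  have hNL0 : 0 < N * L := by
    rw [hNL]
    nlinarith
  have hN0 : 0 < N := (mul_pos_iff_of_pos_right hL0).1 hNL0
  have hNJ : N * L ≤ N * (J * (m + 1)) := mul_le_mul_of_nonneg_left (by
    have := mul_pos hx0 hm1
    linarith) hN0.le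
  have ha : 9 * (x * m) ≤ 10 * (J * N) := by
    refine le_of_mul_le_mul_right ?_ hm1
    have e1 : 9 * (x * m) * (m + 1) = 9 * (x * (m * (m + 1))) := by ring
    have e2 : 10 * (J * N) * (m + 1) = 10 * (N * (J * (m + 1))) := by ring
    have e3 : m * (x * (m + 1)) = x * (m * (m + 1)) := by ring
    rw [e1, e2]
    linarith
  have hb : 10 * (J * N) ≤ 41 * (x * m) := by
    refine le_of_mul_le_mul_right ?_ hm1
    have e1 : 41 * (x * m) * (m + 1) = 41 * (x * (m * (m + 1))) := by ring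
    have e2 : 10 * (J * N) * (m + 1) = 10 * (N * (J * (m + 1))) := by ring
    have e3 : m * (4 * x * (m + 1)) = 4 * (x * (m * (m + 1))) := by ring
    have e4 := mul_le_mul_of_nonneg_left hL hN0.le
    have e5 : N * (999 * (J * (m + 1))) = 999 * (N * (J * (m + 1))) := by ring
    have e6 : N * (1000 * L) = 1000 * (N * L) := by ring
    rw [e1, e2]
    linarith
  have hxm0 : 0 < x * m := mul_pos hx0 hm0
  have hT0 : 0 < T := by linarith
  have hTL : T * L = J * (m * (m + 1)) + P := by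
    rw [hP]
    ring
  have hJNL : J * N * L = J * (m * (J * (m + 1) - L)) + P * J := by
    rw [mul_assoc, hNL]
    ring
  have hPJ1 : P * J ≤ |P| * J := mul_le_mul_of_nonneg_right hA1 hJ0.le
  have hPJ2 : -(|P| * J) ≤ P * J := by
    have := mul_le_mul_of_nonneg_right hA2 hJ0.le
    linarith
  have hPx1 : P * x ≤ |P| * x := mul_le_mul_of_nonneg_right hA1 hx0.le
  have hPx2 : -(|P| * x) ≤ P * x := by
    have := mul_le_mul_of_nonneg_right hA2 hx0.le
    linarith
  have hJmm : m * (m + 1) ≤ J * (m * (m + 1)) := le_mul_of_one_le_left hmm0.le hJ1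
  have hc : x * T ≤ J * N + T := by
    refine le_of_mul_le_mul_right ?_ hL0
    have e1 : x * T * L = x * (J * (m * (m + 1))) + P * x := by
      rw [mul_assoc, hTL]
      ring
    have e2 := mul_le_mul_of_nonneg_left hg1 hJ0.le
    have e3 : J * (m * (x * (m + 1))) = x * (J * (m * (m + 1))) := by ring
    rw [e1, add_mul, hTL, hJNL]
    linarith
  have hd : J * N ≤ (4 * x + 1) * T := by
    refine le_of_mul_le_mul_right ?_ hL0
    have e1 : (4 * x + 1) * T * L = 4 * (x * (J * (m * (m + 1)))) + 4 * (P * x) +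
        J * (m * (m + 1)) + P := by
      rw [mul_assoc, hTL]
      ring
    have e2 := mul_le_mul_of_nonneg_left hg2 hJ0.le
    have e3 : J * (m * (4 * x * (m + 1))) = 4 * (x * (J * (m * (m + 1)))) := by ring
    rw [e1, hJNL]
    linarith
  have he : 100 * T ≤ 101 * m := by
    have h3 : 100 * N ≤ m := by
      refine le_of_mul_le_mul_left ?_ hJ0
      have h4 := mul_le_mul_of_nonneg_right hJ hm0.le
      have e1 : J * (100 * N) = 10 * (10 * (J * N)) := by ring
      rw [e1]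
      linarith
    linarith
  have hg : 2 * m ≤ J * N := by
    have := mul_le_mul_of_nonneg_right hx hm0.le
    linarith
  have hg' : 2 ≤ N := by
    refine le_of_mul_le_mul_left ?_ hJ0
    linarith
  refine ⟨ha, by linarith, hc, hd, he, ?_, hg'⟩
  have hk : 0 < J * T * (L + J * (N - 1) - J * m) := by
    have e1 : J * T * (L + J * (N - 1) - J * m) = P * J + (J * (N - 1)) * (J * N) := by
      have e2 : J * T * (L + J * (N - 1) - J * m) = J * (T * L) + J * T * (J * (N - 1) - J * m) := by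
        ring
      rw [e2, hTL, show T = m + N by rw [hN]; ring]
      ring
    have h5 : m ≤ J * (N - 1) := by
      rw [mul_sub, mul_one]
      linarith
    have h6 : m * m ≤ J * (N - 1) * (J * N) := mul_le_mul h5 (by linarith) hm0.le (by linarith)
    rw [e1]
    nlinarith
  exact (mul_pos_iff_of_pos_left (mul_pos hJ0 hT0)).1 hk

theorem tCritNum : S_CritNum := by
  intro X μ j l t hX hC hj hμ hP
  obtain ⟨h1, h2⟩ := hC
  have hX' : (1000 : ℝ) ≤ X := by exact_mod_cast hX
  have hj' : (X : ℝ) ^ 6 ≤ j := by exact_mod_cast hj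
  have hμ' : 8 * (j : ℝ) ^ 3 ≤ μ := by exact_mod_cast hμ
  have h1' : (l : ℝ) + X * (μ + 1) ≤ j * (μ + 1) := by exact_mod_cast h1
  have h2' : (j : ℝ) * (μ + 1) ≤ l + 4 * X * (μ + 1) := by exact_mod_cast h2
  have hP' : |(t : ℝ) * l - j * (μ * (μ + 1))| * (X ^ 3 * j) ≤ μ ^ 2 := by
    have := (Int.cast_le (R := ℝ)).2 hP
    push_cast at this
    exact this
  have hX5 : (10000 : ℝ) ≤ (X : ℝ) ^ 5 :=
    le_trans (by norm_num) (pow_le_pow_left₀ (by norm_num) hX' 5)
  have hX3 : (1000 : ℝ) ≤ (X : ℝ) ^ 3 :=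
    le_trans (by norm_num) (pow_le_pow_left₀ (by norm_num) hX' 3)
  have hX0 : (0 : ℝ) < X := by linarith
  have hJ : 10000 * (X : ℝ) ≤ j := by
    have e : (X : ℝ) ^ 6 = X ^ 5 * X := by ring
    rw [e] at hj'
    exact (mul_le_mul_of_nonneg_right hX5 hX0.le).trans hj'
  have hJ1 : (1 : ℝ) ≤ j := by linarith
  have hm : (j : ℝ) ≤ μ := by
    have : (j : ℝ) ≤ j ^ 3 := le_self_pow₀ hJ1 (by norm_num)
    linarith
  have hP1 : 1000 * (|(t : ℝ) * l - j * (μ * (μ + 1))| * j) ≤ (μ : ℝ) ^ 2 := by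
    refine le_trans ?_ hP'
    have h3 : 0 ≤ |(t : ℝ) * l - j * (μ * (μ + 1))| * (j : ℝ) := by positivity
    have h4 := mul_le_mul_of_nonneg_right hX3 h3
    linarith
  obtain ⟨a1, a2, a3, a4, a5, a6, a7⟩ := cn_core X μ j l t _ (t - μ) hX' h1' h2' hJ hm rfl hP1 rfl
  have ht : μ + 2 ≤ t := by
    have : (μ : ℝ) + 2 ≤ t := by linarith
    exact_mod_cast this
  obtain ⟨ν, rfl⟩ : ∃ ν, t = μ + ν + 1 := ⟨t - μ - 1, by omega⟩
  have hN : ((μ + ν + 1 : ℕ) : ℝ) - μ = ν + 1 := by
    push_cast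
    ring
  rw [hN] at a1 a2 a3 a4 a6
  have hl : j * μ < l + j * ν := by
    have : (j : ℝ) * μ < l + j * ν := by linarith
    exact_mod_cast this
  refine ⟨ν, l + j * ν - j * μ, rfl, by omega, by omega, by omega, ?_, ?_, ?_, ?_, ?_⟩
  · exact_mod_cast a1
  · exact_mod_cast a2
  · exact_mod_cast a3
  · exact_mod_cast a4
  · exact_mod_cast a5

end ShghPE
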