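import Pool.Agent.ShghPE.Spec

/-!
# ShghPE, CritQ: it is enough to know the critical numbers of rows
-/

namespace ShghPE

open MvPolynomial ShghJ ShghC ShghK ShghPS

universe u

private theorem critQ_up (h1 : ShghPS.S_Rows.{u}) (F : Type u) [Field F] [CharZero F] (L : ℕ)
    (B : Multiset ℕ) (t n : ℕ) :
    hN F (Sf 0 (t + n) L) B ≤ hN F (Sf 0 t L) B + n * (L + 1) := by
  induction n with
  | zero => simp
  | succ n ih =>
    have h2 := (h1 F (t + n) L B).1
    calc hN F (Sf 0 (t + (n + 1)) L) B = hN F (Sf 0 (t + n + 1) L) B := rfl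
      _ ≤ hN F (Sf 0 (t + n) L) B + (L + 1) := h2
      _ ≤ hN F (Sf 0 t L) B + n * (L + 1) + (L + 1) := Nat.add_le_add_right ih _
      _ = hN F (Sf 0 t L) B + (n + 1) * (L + 1) := by ring

private theorem critQ_mono (h1 : ShghPS.S_Rows.{u}) (F : Type u) [Field F] [CharZero F] (L : ℕ)
    (B : Multiset ℕ) (t n : ℕ) : hN F (Sf 0 t L) B ≤ hN F (Sf 0 (t + n) L) B := by
  induction n with
  | zero => exact le_rfl
  | succ n ih => exact ih.trans (h1 F (t + n) L B).2.1

theorem tCritQ (h1 : ShghPS.S_Rows.{u}) : S_CritQ.{u} := by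
  intro F _ _ μ j l W hμ hj hl hcrit t ht
  obtain ⟨L, rfl⟩ : ∃ L, l = L + 1 := ⟨l - 1, by omega⟩
  obtain ⟨c, hc⟩ : ∃ c, c = j * (μ * (μ + 1)) := ⟨_, rfl⟩
  have hc1 : 1 ≤ c := by
    rw [hc]
    exact Nat.one_le_iff_ne_zero.2 (Nat.mul_ne_zero (by omega) (Nat.mul_ne_zero (by omega)
      (by omega)))
  have hcZ : ((j : ℤ) * (μ * (μ + 1))) = (c : ℤ) := by
    rw [hc]
    push_cast
    ring
  have hL : L + 1 - 1 = L := by omega
  refine ⟨fun h => ?_, fun h => ?_⟩
  · rw [← hc] at h ⊢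
    have hm := Nat.mod_add_div (c + W + L) (L + 1)
    have hr := Nat.mod_lt (c + W + L) (Nat.succ_pos L)
    obtain ⟨q, hq⟩ : ∃ q, q = (c + W + L) / (L + 1) := ⟨_, rfl⟩
    obtain ⟨r, hr'⟩ : ∃ r, r = (c + W + L) % (L + 1) := ⟨_, rfl⟩
    rw [← hq, ← hr'] at hm
    rw [← hr'] at hr
    have e1 : q * (L + 1) = (L + 1) * q := Nat.mul_comm _ _
    have hq1 : 1 ≤ q := by
      rcases Nat.eq_zero_or_pos q with h0 | h0
      · rw [h0] at hm
        simp only [Nat.mul_zero] at hm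
        omega
      · exact h0
    have hqt : q ≤ t := by
      by_contra h2
      have h3 : (t + 1) * (L + 1) ≤ q * (L + 1) := Nat.mul_le_mul_right _ (by omega)
      have h4 : (t + 1) * (L + 1) = t * (L + 1) + (L + 1) := by ring
      omega
    have h2 := hcrit q hq1 (by
      rw [hcZ, abs_lt]
      have h3 : ((q * (L + 1) : ℕ) : ℤ) = (q : ℤ) * ((L + 1 : ℕ) : ℤ) := by push_cast; ring
      rw [← h3]
      omega)
    have h3 := h2.1 (by rw [← hc]; omega)
    rw [← hc, hL] at h3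
    obtain ⟨n, rfl⟩ := Nat.exists_eq_add_of_le hqt
    have h4 := critQ_up h1 F L (Multiset.replicate (2 * j) μ) (q - 1) n
    have e2 : q - 1 + n = q + n - 1 := by omega
    rw [e2] at h4
    rw [hL]
    have e3 : (q + n) * (L + 1) = q * (L + 1) + n * (L + 1) := by ring
    omega
  · rw [← hc] at h
    have hm := Nat.mod_add_div (c - W) (L + 1)
    have hr := Nat.mod_lt (c - W) (Nat.succ_pos L)
    obtain ⟨q, hq⟩ : ∃ q, q = (c - W) / (L + 1) := ⟨_, rfl⟩
    obtain ⟨r, hr'⟩ : ∃ r, r = (c - W) % (L + 1) := ⟨_, rfl⟩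
    rw [← hq, ← hr'] at hm
    rw [← hr'] at hr
    have e1 : q * (L + 1) = (L + 1) * q := Nat.mul_comm _ _
    have hqt : t ≤ q := by
      by_contra h2
      have h3 : (q + 1) * (L + 1) ≤ t * (L + 1) := Nat.mul_le_mul_right _ (by omega)
      have h4 : (q + 1) * (L + 1) = q * (L + 1) + (L + 1) := by ring
      omega
    have h2 := hcrit q (by omega) (by
      rw [hcZ, abs_lt]
      have h3 : ((q * (L + 1) : ℕ) : ℤ) = (q : ℤ) * ((L + 1 : ℕ) : ℤ) := by push_cast; ring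
      rw [← h3]
      omega)
    have h3 := h2.2 (by rw [← hc]; omega)
    rw [hL] at h3 ⊢
    obtain ⟨n, rfl⟩ := Nat.exists_eq_add_of_le hqt
    have h4 := critQ_mono h1 F L (Multiset.replicate (2 * j) μ) (t - 1) n
    have e2 : t - 1 + n = t + n - 1 := by omega
    rw [e2, h3] at h4
    omega

end ShghPE
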