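import Pool.Agent.ShghPE.Spec

/-!
# ShghPE, CutQ: a box is cut into a list of pieces
-/

namespace ShghPE

open MvPolynomial ShghJ ShghC ShghK ShghPS

universe u

private theorem cq_drop (F : Type u) [Field F] (n τ e : ℕ) (A B : Multiset ℕ) :
    hN F (Sf n τ e) (A + B) ≤ hN F (Sf n τ e) A := by
  induction B using Multiset.induction_on with
  | empty => rw [add_zero]
  | cons m B ih =>
    rw [Multiset.add_cons]
    exact ((mStA F n τ).2.2 e m (A + B)).trans ih

private theorem cq_step (h1 : S_CB2.{u}) (F : Type u) [Field F] (x σ n t l ν W : ℕ)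
    (ht : 1 ≤ t) (hl : 1 ≤ l) (hx2 : l + W ≤ x * (ν * (ν + 1))) (hx3 : BC F ν x l W)
    (hi : ∀ y, 1 ≤ y → QC F y l σ ν (n * (W + l))) :
    QC F t l (x + σ) ν ((n + 1) * (W + l)) := by
  have hrep : Multiset.replicate (2 * (x + σ)) ν =
      Multiset.replicate (2 * x) ν + Multiset.replicate (2 * σ) ν := by
    rw [mul_add, Multiset.replicate_add]
  unfold QC
  rw [hrep, add_mul x σ, add_mul n 1, one_mul]
  constructor
  · intro h
    obtain ⟨x1, hx1⟩ : ∃ x1, x1 = (x * (ν * (ν + 1)) + W + l - 1) / l := ⟨_, rfl⟩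
    have e1 : x1 * l ≤ x * (ν * (ν + 1)) + W + l - 1 := hx1 ▸ Nat.div_mul_le_self _ _
    have e2 : x * (ν * (ν + 1)) + W + l - 1 < x1 * l + l := by
      rw [hx1]
      exact Nat.lt_div_mul_add hl
    have e3 : 1 ≤ x1 := by
      rcases Nat.eq_zero_or_pos x1 with h0 | h0
      · rw [h0, zero_mul] at e2
        omega
      · exact h0
    have e4 : x1 < t := by
      by_contra hc
      have := Nat.mul_le_mul_right l (not_lt.1 hc)
      omega
    obtain ⟨y, rfl⟩ : ∃ y, t = x1 + y := ⟨t - x1, by omega⟩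
    rw [add_mul x1 y] at h ⊢
    have e5 : 1 ≤ y := by omega
    have e6 := (hx3 x1 e3).1 (by omega)
    have e7 := (hi y e5).1 (by omega)
    have e8 := h1 F x1 y (l - 1) (Multiset.replicate (2 * x) ν) (Multiset.replicate (2 * σ) ν) e3 e5
    omega
  · intro h
    obtain ⟨x1, hx1⟩ : ∃ x1, x1 = (x * (ν * (ν + 1)) - W) / l := ⟨_, rfl⟩
    have e1 : x1 * l ≤ x * (ν * (ν + 1)) - W := hx1 ▸ Nat.div_mul_le_self _ _
    have e2 : x * (ν * (ν + 1)) - W < x1 * l + l := by
      rw [hx1]
      exact Nat.lt_div_mul_add hl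
    have e3 : 1 ≤ x1 := by
      rcases Nat.eq_zero_or_pos x1 with h0 | h0
      · rw [h0, zero_mul] at e2
        omega
      · exact h0
    rcases le_or_gt t x1 with hc | hc
    · have e4 := Nat.mul_le_mul_right l hc
      have e5 := (hx3 t ht).2 (by omega)
      have e6 := cq_drop F 0 (t - 1) (l - 1) (Multiset.replicate (2 * x) ν)
        (Multiset.replicate (2 * σ) ν)
      omega
    · obtain ⟨y, rfl⟩ : ∃ y, t = x1 + y := ⟨t - x1, by omega⟩
      rw [add_mul x1 y] at h
      have e5 : 1 ≤ y := by omega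
      have e6 := (hx3 x1 e3).2 (by omega)
      have e7 := (hi y e5).2 (by omega)
      have e8 := h1 F x1 y (l - 1) (Multiset.replicate (2 * x) ν) (Multiset.replicate (2 * σ) ν)
        e3 e5
      omega

theorem tCutQ (h1 : S_CB2.{u}) : S_CutQ.{u} := by
  intro F _ _ w
  induction w with
  | nil =>
    intro t l ν W h
    exact absurd rfl h
  | cons x w' ih =>
    intro t l ν W _ ht hl hν hw
    obtain ⟨hx1, hx2, hx3⟩ := hw x List.mem_cons_self
    by_cases hne : w' = []
    · subst hne
      rw [List.sum_cons, List.sum_nil, add_zero, List.length_singleton, one_mul]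
      exact ⟨fun h => (hx3 t ht).1 (by omega), fun h => (hx3 t ht).2 (by omega)⟩
    · have hi : ∀ y, 1 ≤ y → QC F y l w'.sum ν (w'.length * (W + l)) := fun y hy =>
        ih y l ν W hne hy hl hν fun z hz => hw z (List.mem_cons_of_mem _ hz)
      rw [List.sum_cons, List.length_cons]
      exact cq_step h1 F x w'.sum w'.length t l ν W ht hl hx2 hx3 hi

end ShghPE
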