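import Pool.Agent.ShghPE.Spec

/-!
# ShghPE: the decomposition of `j`
-/

namespace ShghPE

open MvPolynomial ShghJ ShghC ShghK ShghPS

private theorem Dec_sum (f : ℕ → ℕ) (p : List (ℕ × ℕ)) :
    (p.flatMap fun y => List.replicate y.2 (f y.1)).sum = (p.map fun y => y.2 * f y.1).sum := by
  induction p with
  | nil => rfl
  | cons y p ih =>
    rw [List.flatMap_cons, List.sum_append, ih, List.map_cons, List.sum_cons, List.sum_replicate,
      smul_eq_mul]

private theorem Dec_len (f : ℕ → ℕ) (p : List (ℕ × ℕ)) :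
    (p.flatMap fun y => List.replicate y.2 (f y.1)).length = (p.map Prod.snd).sum := by
  induction p with
  | nil => rfl
  | cons y p ih =>
    rw [List.flatMap_cons, List.length_append, ih, List.map_cons, List.sum_cons,
      List.length_replicate]

private theorem Dec_snd (p : List (ℕ × ℕ)) (h : ∀ y ∈ p, y.2 < y.1) :
    (p.map Prod.snd).sum ≤ (p.map Prod.fst).sum := by
  induction p with
  | nil => exact le_rfl
  | cons y p ih =>
    rw [List.map_cons, List.sum_cons, List.map_cons, List.sum_cons]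
    have h1 := h y List.mem_cons_self
    have h2 := ih fun z hz => h z (List.mem_cons_of_mem y hz)
    omega

private theorem Dec_two (l : List ℕ) (h : ∀ q ∈ l, 2 ≤ q) : 2 * l.length ≤ l.sum := by
  induction l with
  | nil => exact le_rfl
  | cons y p ih =>
    rw [List.length_cons, List.sum_cons]
    have h1 := h y List.mem_cons_self
    have h2 := ih fun z hz => h z (List.mem_cons_of_mem y hz)
    omega

private theorem Dec_mem (l : List ℕ) (q : ℕ) (h : q ∈ l) : q ≤ l.sum := by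
  induction l with
  | nil => exact absurd h List.not_mem_nil
  | cons y p ih =>
    rw [List.sum_cons]
    rcases List.mem_cons.1 h with rfl | h
    · omega
    · have := ih h
      omega

private theorem Dec_S (p : List (ℕ × ℕ)) (h : ∀ y ∈ p, y.2 < y.1) :
    0 ≤ (p.map fun x => (x.2 : ℝ) / x.1).sum ∧
      (p.map fun x => (x.2 : ℝ) / x.1).sum ≤ (p.length : ℝ) := by
  induction p with
  | nil => simp
  | cons y p ih =>
    rw [List.map_cons, List.sum_cons, List.length_cons]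
    have h1 : (y.2 : ℝ) < y.1 := by exact_mod_cast h y List.mem_cons_self
    obtain ⟨h2, h3⟩ := ih fun z hz => h z (List.mem_cons_of_mem y hz)
    have h4 : (0 : ℝ) ≤ (y.2 : ℝ) := Nat.cast_nonneg _
    have h5 : (y.2 : ℝ) / y.1 ≤ 1 := by
      rw [div_le_one (by linarith)]
      exact h1.le
    have h6 : 0 ≤ (y.2 : ℝ) / y.1 := div_nonneg h4 (Nat.cast_nonneg _)
    push_cast
    constructor <;> linarith

private theorem Dec_ax (f : ℕ → ℕ) (c : ℝ) (p : List (ℕ × ℕ))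
    (h1 : ∀ y ∈ p, (f y.1 : ℝ) ≤ (1 + 1 / (y.1 : ℝ)) * c)
    (h2 : ∀ y ∈ p, (1 + 1 / (y.1 : ℝ)) * c - 1 ≤ (f y.1 : ℝ)) :
    (((p.map fun y => y.2 * f y.1).sum : ℕ) : ℝ) ≤
      ((((p.map Prod.snd).sum : ℕ) : ℝ) + (p.map fun x => (x.2 : ℝ) / x.1).sum) * c ∧
    ((((p.map Prod.snd).sum : ℕ) : ℝ) + (p.map fun x => (x.2 : ℝ) / x.1).sum) * c -
      (((p.map Prod.snd).sum : ℕ) : ℝ) ≤ (((p.map fun y => y.2 * f y.1).sum : ℕ) : ℝ) := by
  induction p with
  | nil => simp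
  | cons y p ih =>
    obtain ⟨h3, h4⟩ := ih (fun z hz => h1 z (List.mem_cons_of_mem y hz))
      (fun z hz => h2 z (List.mem_cons_of_mem y hz))
    have h5 := mul_le_mul_of_nonneg_left (h1 y List.mem_cons_self)
      (Nat.cast_nonneg y.2 : (0 : ℝ) ≤ (y.2 : ℝ))
    have h6 := mul_le_mul_of_nonneg_left (h2 y List.mem_cons_self)
      (Nat.cast_nonneg y.2 : (0 : ℝ) ≤ (y.2 : ℝ))
    have h7 : (y.2 : ℝ) * ((1 + 1 / (y.1 : ℝ)) * c) = ((y.2 : ℝ) + (y.2 : ℝ) / y.1) * c := by ring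
    have h8 : (y.2 : ℝ) * ((1 + 1 / (y.1 : ℝ)) * c - 1) =
        ((y.2 : ℝ) + (y.2 : ℝ) / y.1) * c - y.2 := by ring
    rw [h7] at h5
    rw [h8] at h6
    rw [List.map_cons, List.sum_cons, List.map_cons, List.sum_cons, List.map_cons, List.sum_cons]
    push_cast at h3 h4 ⊢
    generalize (y.2 : ℝ) / y.1 = a at h5 h6 ⊢
    generalize (p.map fun x => (x.2 : ℝ) / x.1).sum = b at h3 h4 ⊢
    have e1 : ((y.2 : ℝ) + (((p.map Prod.snd).sum : ℕ) : ℝ) + (a + b)) * c =
      ((y.2 : ℝ) + a) * c + ((((p.map Prod.snd).sum : ℕ) : ℝ) + b) * c := by ring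
    push_cast at e1
    rw [e1]
    constructor <;> linarith

/-- Real numbers of the decomposition. `g = s + S` the part of the `q`-pieces. -/
private theorem Dec_num {X β A J S s Q z T : ℝ} (hX : 1000 ≤ X) (hβ : X ^ 3 ≤ β) (hQ : β ≤ Q)
    (hA1 : X ≤ A + 1) (hA2 : A ≤ 4 * X + 1) (hz1 : z ≤ (A - 2 * X * A / β) * Q)
    (hz2 : (A - 2 * X * A / β) * Q < z + 1) (hJ : z / Q = J + S) (hS0 : 0 ≤ S)
    (hS : S ≤ X / 200) (hs0 : 0 ≤ s) (hs : s ≤ X / 100) (hT1 : T ≤ (s + S) * (β - 2 * X))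
    (hT2 : (s + S) * (β - 2 * X) - s ≤ T) :
    98 / 100 * X ≤ J - s ∧ J ≤ 5 * X ∧ T ≤ A * β ∧
      (J - s) * (β + 2 * X) ≤ A * β - T ∧ A * β - T ≤ (J - s) * (β + 4 * X - 1) := by
  have hX2 : 1000 * X ≤ X ^ 2 := by nlinarith
  have hX3 : 1000 * X ^ 2 ≤ X ^ 3 := by nlinarith
  have hβ0 : 0 < β := by nlinarith
  have hQ0 : 0 < Q := by linarith
  have hA0 : 0 ≤ A := by linarith
  obtain ⟨v, hv⟩ : ∃ v, v = 2 * X * A / β := ⟨_, rfl⟩
  have hvβ : β * v = 2 * X * A := by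
    rw [hv]
    field_simp
  have hv0 : 0 ≤ v := by rw [hv]; positivity
  have hv1 : v ≤ 1 := by
    rw [hv, div_le_one hβ0]
    have : X * A ≤ X * (4 * X + 1) := mul_le_mul_of_nonneg_left hA2 (by linarith)
    nlinarith
  rw [← hv] at hz1 hz2
  have u1 : J + S ≤ A - v := by
    rw [← hJ, div_le_iff₀ hQ0]
    exact hz1
  have u2 : A - v ≤ J + S + 1 / Q := by
    rw [← hJ, ← add_div, le_div_iff₀ hQ0]
    exact hz2.le
  have hQ1 : 1 / Q ≤ 1 := by
    rw [div_le_one hQ0]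
    nlinarith
  have hβQ : β * (1 / Q) ≤ 1 := by
    rw [mul_one_div, div_le_one hQ0]
    exact hQ
  have u3 : β * (A - J - S) ≤ 2 * X * A + 1 := by
    have e1 : β * (A - J - S) ≤ β * (v + 1 / Q) := mul_le_mul_of_nonneg_left (by linarith) hβ0.le
    have e2 : β * (v + 1 / Q) = β * v + β * (1 / Q) := by ring
    rw [e2, hvβ] at e1
    linarith
  have u4 : 2 * X * A ≤ β * (A - J - S) := by
    have e1 : β * v ≤ β * (A - J - S) := mul_le_mul_of_nonneg_left (by linarith) hβ0.le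
    rwa [hvβ] at e1
  have w1 : A - 2 - 3 / 200 * X ≤ J - s := by linarith
  have w2 : 98 / 100 * X ≤ J - s := by linarith
  have w3 : J - s ≤ A := by linarith
  have hTe : A * β - T = β * (A - J - S) + (J - s) * β + (s + S) * β - T := by ring
  have hTs : (s + S) * (β - 2 * X) = (s + S) * β - 2 * X * (s + S) := by ring
  rw [hTs] at hT1 hT2
  have hsS : 0 ≤ X * (s + S) := by positivity
  have hsS2 : X * (s + S) ≤ X * (3 / 200 * X) := mul_le_mul_of_nonneg_left (by linarith) (by linarith)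
  refine ⟨w2, by linarith, ?_, ?_, ?_⟩
  · have e1 : 0 ≤ (J - s) * β := mul_nonneg (by linarith) hβ0.le
    have e2 : 0 ≤ 2 * X * A := by positivity
    linarith
  · rw [hTe]
    have e1 : (J - s) * (β + 2 * X) = (J - s) * β + 2 * (X * (J - s)) := by ring
    have e2 : X * (J - s) ≤ X * A := mul_le_mul_of_nonneg_left w3 (by linarith)
    rw [e1]
    linarith
  · rw [hTe]
    have e1 : (J - s) * (β + 4 * X - 1) = (J - s) * β + 2 * (X * (J - s)) +
        2 * (X * (J - s)) - (J - s) := by ring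
    have e2 : X * A ≤ X * (J - s + 2 + 3 / 200 * X) :=
      mul_le_mul_of_nonneg_left (by linarith) (by linarith)
    have e3 : X * (98 / 100 * X) ≤ X * (J - s) := mul_le_mul_of_nonneg_left w2 (by linarith)
    rw [e1]
    nlinarith

theorem tDec (h1 : S_CRT) : S_Dec := by
  intro X B j t n hF hX hn htB htX hj1 hj2
  obtain ⟨l, hl1, hl2, hl3, hl4⟩ := hF
  have rX : (1000 : ℝ) ≤ (X : ℝ) := by exact_mod_cast hX
  have rn : (0 : ℝ) < (n : ℝ) := by exact_mod_cast hn
  obtain ⟨β, hβ⟩ : ∃ β : ℝ, (t : ℝ) = β * n := ⟨(t : ℝ) / n, by field_simp⟩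
  have rβ3 : (X : ℝ) ^ 3 ≤ β := by
    have e1 : ((X ^ 3 * n : ℕ) : ℝ) ≤ (t : ℝ) := by exact_mod_cast htX
    push_cast at e1
    rw [hβ] at e1
    exact le_of_mul_le_mul_right e1 rn
  have rβB : β ≤ (B : ℝ) := by
    have e1 : (t : ℝ) ≤ ((B * n : ℕ) : ℝ) := by exact_mod_cast htB
    push_cast at e1
    rw [hβ] at e1
    exact le_of_mul_le_mul_right e1 rn
  have hX3p : (1000 : ℝ) ^ 3 ≤ (X : ℝ) ^ 3 := pow_le_pow_left₀ (by norm_num) rX 3
  have hβ0 : 0 < β := by
    have : (0 : ℝ) < 1000 ^ 3 := by norm_num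
    linarith
  obtain ⟨A, hA⟩ : ∃ A : ℝ, (j : ℝ) = A * β := ⟨(j : ℝ) / β, by field_simp⟩
  have rA1 : (X : ℝ) ≤ A + 1 := by
    have e1 : ((X * t : ℕ) : ℝ) ≤ ((j * n + t : ℕ) : ℝ) := by exact_mod_cast hj1
    push_cast at e1
    rw [hβ, hA] at e1
    have e2 : (X : ℝ) * (β * n) ≤ (A + 1) * (β * n) := by linarith
    exact le_of_mul_le_mul_right e2 (by positivity)
  have rA2 : A ≤ 4 * X + 1 := by
    have e1 : ((j * n : ℕ) : ℝ) ≤ (((4 * X + 1) * t : ℕ) : ℝ) := by exact_mod_cast hj2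
    push_cast at e1
    rw [hβ, hA] at e1
    have e2 : A * (β * n) ≤ (4 * (X : ℝ) + 1) * (β * n) := by linarith
    exact le_of_mul_le_mul_right e2 (by positivity)
  have rQ : β ≤ ((l.prod : ℕ) : ℝ) := rβB.trans (by exact_mod_cast hl4)
  obtain ⟨p, J, hp1, hp2, hp3⟩ := h1 l hl1 hl2 ⌊(A - 2 * X * A / β) * ((l.prod : ℕ) : ℝ)⌋
  have hpq : ∀ y ∈ p, y.1 ∈ l := by
    intro y hy
    rw [← hp1]
    exact List.mem_map_of_mem hy
  obtain ⟨hS0, hS1⟩ := Dec_S p hp2
  have hσ := Dec_snd p hp2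
  rw [hp1] at hσ
  have hK := Dec_two l hl2
  have hlen : p.length = l.length := by rw [← hp1, List.length_map]
  rw [hlen] at hS1
  have rS : (p.map fun x => (x.2 : ℝ) / x.1).sum ≤ (X : ℝ) / 200 := by
    have e1 : 200 * l.length ≤ X := by omega
    have e2 : 200 * (l.length : ℝ) ≤ (X : ℝ) := by exact_mod_cast e1
    linarith
  have rσ : (((p.map Prod.snd).sum : ℕ) : ℝ) ≤ (X : ℝ) / 100 := by
    have e1 : 100 * (p.map Prod.snd).sum ≤ X := by omega
    have e2 : 100 * (((p.map Prod.snd).sum : ℕ) : ℝ) ≤ (X : ℝ) := by exact_mod_cast e1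
    linarith
  -- the `q`-pieces
  have hXX : 2 * X ≤ X ^ 3 := by
    have e1 : X ^ 3 = X * X * X := by ring
    have e2 : 2 * X ≤ X * X * X := Nat.mul_le_mul_right _ (by nlinarith)
    rw [e1]
    exact e2
  have h2Xn : 2 * X * n ≤ t := (Nat.mul_le_mul_right n hXX).trans htX
  obtain ⟨c, hc⟩ : ∃ c, t = c + 2 * X * n := ⟨t - 2 * X * n, by omega⟩
  have rc : (c : ℝ) = (β - 2 * X) * n := by
    have e1 : (t : ℝ) = ((c + 2 * X * n : ℕ) : ℝ) := by rw [hc]
    push_cast at e1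
    rw [hβ] at e1
    linarith
  obtain ⟨f, hf⟩ : ∃ f : ℕ → ℕ, ∀ q, f q = (q + 1) * c / (q * n) := ⟨fun q => _, fun q => rfl⟩
  have hfq : ∀ q, 2 ≤ q → f q * (q * n) ≤ (q + 1) * c ∧ (q + 1) * c < (f q + 1) * (q * n) := by
    intro q hq
    have hqn : 0 < q * n := Nat.mul_pos (by omega) hn
    rw [hf]
    exact ⟨Nat.div_mul_le_self _ _, by
      have := Nat.lt_mul_div_succ ((q + 1) * c) hqn
      rw [mul_comm (_ + 1) (q * n)]
      exact this⟩
  have hfr : ∀ q, 2 ≤ q → (f q : ℝ) ≤ (1 + 1 / (q : ℝ)) * (β - 2 * X) ∧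
      (1 + 1 / (q : ℝ)) * (β - 2 * X) - 1 ≤ (f q : ℝ) := by
    intro q hq
    obtain ⟨e1, e2⟩ := hfq q hq
    have rq : (0 : ℝ) < (q : ℝ) := by
      have : 0 < q := by omega
      exact_mod_cast this
    have e3 : (f q : ℝ) * (q * n) ≤ ((q : ℝ) + 1) * c := by exact_mod_cast e1
    have e4 : ((q : ℝ) + 1) * c < ((f q : ℝ) + 1) * (q * n) := by exact_mod_cast e2
    rw [rc] at e3 e4
    have hqn : (0 : ℝ) < (q : ℝ) * n := by positivity
    have e5 : (1 + 1 / (q : ℝ)) * (β - 2 * X) * (q * n) = ((q : ℝ) + 1) * ((β - 2 * X) * n) := by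
      field_simp
    constructor
    · refine le_of_mul_le_mul_right ?_ hqn
      rw [e5]
      exact e3
    · refine le_of_mul_le_mul_right ?_ hqn
      rw [sub_mul, e5]
      linarith
  obtain ⟨hT1, hT2⟩ := Dec_ax f (β - 2 * X) p (fun y hy => (hfr y.1 (hl2 _ (hpq y hy))).1)
    (fun y hy => (hfr y.1 (hl2 _ (hpq y hy))).2)
  obtain ⟨n1, n2, n3, n4, n5⟩ := Dec_num rX rβ3 rQ rA1 rA2 (Int.floor_le _)
    (Int.lt_floor_add_one _) hp3 hS0 rS (Nat.cast_nonneg _) rσ hT1 hT2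
  rw [← hA] at n3 n4 n5
  -- the numbers
  obtain ⟨σ, hσd⟩ : ∃ σ, σ = (p.map Prod.snd).sum := ⟨_, rfl⟩
  obtain ⟨T1, hT1d⟩ : ∃ T1, T1 = (p.map fun y => y.2 * f y.1).sum := ⟨_, rfl⟩
  rw [← hσd] at n1 n4 n5
  rw [← hT1d] at n3 n4 n5
  have hJσ : (0 : ℤ) < J - σ := by
    have : (0 : ℝ) < (J : ℝ) - σ := by linarith
    exact_mod_cast this
  obtain ⟨J0, hJ0⟩ : ∃ J0 : ℕ, (J0 : ℤ) = J - σ := ⟨(J - σ).toNat, Int.toNat_of_nonneg hJσ.le⟩
  have hJ01 : 0 < J0 := by
    rw [← hJ0] at hJσ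
    exact_mod_cast hJσ
  have rJ0 : (J0 : ℝ) = (J : ℝ) - σ := by
    have : ((J0 : ℤ) : ℝ) = ((J - σ : ℤ) : ℝ) := by rw [hJ0]
    push_cast at this
    exact this
  rw [← rJ0] at n1 n4 n5
  have hJ5 : J0 + σ ≤ 5 * X := by
    have : (J0 : ℝ) + σ ≤ 5 * (X : ℝ) := by rw [rJ0]; linarith
    exact_mod_cast this
  have hTj : T1 ≤ j := by exact_mod_cast n3
  obtain ⟨y, hy⟩ : ∃ y, j = y + T1 := ⟨j - T1, by omega⟩
  have ry : (j : ℝ) - T1 = (y : ℝ) := by
    rw [hy]
    push_cast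
    ring
  rw [ry] at n4 n5
  have hdm : J0 * (y / J0) + y % J0 = y := Nat.div_add_mod y J0
  have hmlt : y % J0 < J0 := Nat.mod_lt y hJ01
  have rJp : (0 : ℝ) < (J0 : ℝ) := by exact_mod_cast hJ01
  -- thin pieces
  have hthin : ∀ x, (x = y / J0 + 1 ∨ x = y / J0) → Thin X x t n := by
    intro x hx
    have e1 : y ≤ x * J0 + J0 := by
      have : J0 * (y / J0) ≤ J0 * x := Nat.mul_le_mul_left _ (by rcases hx with h | h <;> omega)
      have e2 : x * J0 = J0 * x := mul_comm _ _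
      omega
    have e2 : x * J0 ≤ y + J0 := by
      have : J0 * x ≤ J0 * (y / J0 + 1) :=
        Nat.mul_le_mul_left _ (by rcases hx with h | h <;> omega)
      have e2 : x * J0 = J0 * x := mul_comm _ _
      have e3 : J0 * (y / J0 + 1) = J0 * (y / J0) + J0 := by ring
      omega
    have r1 : (y : ℝ) ≤ (x : ℝ) * J0 + J0 := by exact_mod_cast e1
    have r2 : (x : ℝ) * J0 ≤ (y : ℝ) + J0 := by exact_mod_cast e2
    have r3 : β + X ≤ (x : ℝ) := by
      have : (β + X) * (J0 : ℝ) ≤ (x : ℝ) * J0 := by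
        have e4 : (J0 : ℝ) * (β + 2 * X) = (β + X) * J0 + X * J0 := by ring
        have e5 : 1 * (J0 : ℝ) ≤ X * J0 := mul_le_mul_of_nonneg_right (by linarith) rJp.le
        linarith
      exact le_of_mul_le_mul_right this rJp
    have r4 : (x : ℝ) ≤ β + 4 * X := by
      have : (x : ℝ) * J0 ≤ (β + 4 * X) * J0 := by
        have e4 : (J0 : ℝ) * (β + 4 * X - 1) = (β + 4 * X) * J0 - J0 := by ring
        linarith
      exact le_of_mul_le_mul_right this rJp
    have r5 := mul_le_mul_of_nonneg_right r3 rn.le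
    have r6 := mul_le_mul_of_nonneg_right r4 rn.le
    constructor
    · have : (t : ℝ) + X * n ≤ (x : ℝ) * n := by rw [hβ]; linarith
      exact_mod_cast this
    · have : (x : ℝ) * n ≤ (t : ℝ) + 4 * X * n := by rw [hβ]; linarith
      exact_mod_cast this
  refine ⟨List.replicate (y % J0) (y / J0 + 1) ++ List.replicate (J0 - y % J0) (y / J0) ++
    p.flatMap (fun z => List.replicate z.2 (f z.1)), ?_, ?_, ?_, ?_⟩
  · rw [List.sum_append, List.sum_append, List.sum_replicate, List.sum_replicate, Dec_sum,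
      ← hT1d, smul_eq_mul, smul_eq_mul]
    obtain ⟨r, hr⟩ : ∃ r, J0 = y % J0 + r := ⟨J0 - y % J0, by omega⟩
    have hr' : J0 - y % J0 = r := by omega
    rw [hr', hy]
    have e1 : y % J0 * (y / J0 + 1) + r * (y / J0) = (y % J0 + r) * (y / J0) + y % J0 := by ring
    rw [e1, ← hr, hdm]
  · intro h
    have h2 := congrArg List.length h
    rw [List.length_append, List.length_append, List.length_replicate, List.length_replicate,
      Dec_len, List.length_nil] at h2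
    omega
  · rw [List.length_append, List.length_append, List.length_replicate, List.length_replicate,
      Dec_len, ← hσd]
    omega
  · intro x hx
    rw [List.mem_append, List.mem_append] at hx
    rcases hx with (hx | hx) | hx
    · exact Or.inl (hthin x (Or.inl (List.eq_of_mem_replicate hx)))
    · exact Or.inl (hthin x (Or.inr (List.eq_of_mem_replicate hx)))
    · rw [List.mem_flatMap] at hx
      obtain ⟨z, hz, hxz⟩ := hx
      have hxf := List.eq_of_mem_replicate hxz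
      have hq2 := hl2 _ (hpq z hz)
      have hql := Dec_mem l _ (hpq z hz)
      obtain ⟨e1, e2⟩ := hfq z.1 hq2
      refine Or.inr ⟨z.1, hq2, by omega, ?_, ?_⟩
      · rw [hxf, hc, mul_add]
        exact Nat.add_le_add_right e1 _
      · rw [hxf, hc, mul_add]
        exact Nat.add_lt_add_right e2 _

end ShghPE
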