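import Pool.Agent.ShghPE.Expl

/-!
# ShghPE, ExplT: THEOREM E with explicit constants

For every `k` and every `s ≥ (k + 2) ^ (10 ^ 5 (k + 1) ^ 2)`: if `m ≤ s ^ k` or
`m ^ 2 ≤ s ^ k |χ|`, then the dimension of the homogeneous system `(d; m ^ s)` is `max (0, χ)`.
The private lemmas `tw_div`, `tw_num` are those of `Pool.Agent.ShghPE.ThmW`.
-/

namespace ShghPE

open MvPolynomial ShghJ ShghC ShghK ShghPS

universe u

private theorem tm_bern (R k : ℕ) (h : 6 * k ≤ R) : (R + 3) ^ k ≤ 2 * R ^ k := by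
  rcases Nat.eq_zero_or_pos R with hR | hR
  · have hk : k = 0 := by omega
    subst hk
    simp
  have h1 : ∀ j, j ≤ k → (R + 3) ^ j * R ≤ R ^ j * (R + 6 * j) := by
    intro j
    induction j with
    | zero => intro _; simp
    | succ j ih =>
      intro hj
      have h2 := ih (by omega)
      have h3 : (R + 6 * j) * (R + 3) ≤ R * (R + 6 * (j + 1)) := by
        have h4 : 6 * j ≤ R := by omega
        nlinarith
      calc (R + 3) ^ (j + 1) * R = ((R + 3) ^ j * R) * (R + 3) := by ring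
        _ ≤ (R ^ j * (R + 6 * j)) * (R + 3) := Nat.mul_le_mul_right _ h2
        _ = R ^ j * ((R + 6 * j) * (R + 3)) := by ring
        _ ≤ R ^ j * (R * (R + 6 * (j + 1))) := Nat.mul_le_mul_left _ h3
        _ = R ^ (j + 1) * (R + 6 * (j + 1)) := by ring
  have h2 := h1 k le_rfl
  have h3 : (R + 3) ^ k * R ≤ (2 * R ^ k) * R := by
    refine h2.trans ?_
    have h4 : R + 6 * k ≤ 2 * R := by omega
    calc R ^ k * (R + 6 * k) ≤ R ^ k * (2 * R) := Nat.mul_le_mul_left _ h4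
      _ = (2 * R ^ k) * R := by ring
  exact Nat.le_of_mul_le_mul_right h3 hR

private theorem tm_root {a b : ℕ} (h : a ^ 4 ≤ b ^ 4) : a ≤ b :=
  (Nat.pow_le_pow_iff_left (by norm_num)).1 h

private theorem tm_root_lt {a b : ℕ} (h : a ^ 4 < b ^ 4) : a < b :=
  (Nat.pow_lt_pow_iff_left (by norm_num)).1 h

/-- The choice of `R`. -/
private theorem tm_R (R0 s : ℕ) (h : (R0 + 2) ^ 2 ≤ s) : ∃ R, R0 ≤ R ∧ (R + 1) ^ 2 ≤ s ∧
    s < (R + 3) ^ 2 ∧ Even (s + R) := by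
  have h1 : R0 + 2 ≤ Nat.sqrt s := by
    rw [Nat.le_sqrt']
    exact h
  have h2 : Nat.sqrt s ^ 2 ≤ s := Nat.sqrt_le' s
  have h3 : s < (Nat.sqrt s + 1) ^ 2 := Nat.lt_succ_sqrt' s
  set N := Nat.sqrt s
  rcases Nat.even_or_odd (s + N) with he | ho
  · refine ⟨N - 2, by omega, ?_, ?_, ?_⟩
    · exact (Nat.pow_le_pow_left (by omega) 2).trans h2
    · exact h3.trans_le (Nat.pow_le_pow_left (by omega) 2)
    · obtain ⟨k, hk⟩ := he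
      exact ⟨k - 1, by omega⟩
  · refine ⟨N - 1, by omega, ?_, ?_, ?_⟩
    · exact (Nat.pow_le_pow_left (by omega) 2).trans h2
    · exact h3.trans_le (Nat.pow_le_pow_left (by omega) 2)
    · obtain ⟨k, hk⟩ := ho
      exact ⟨k, by omega⟩

/-- The numbers of one step. -/
private theorem tx_num (r n R m s X : ℕ) (hn : n = 2 * r + 7)
    (hRr : (r + 2) ^ (1300 * (r + 1) ^ 2) ≤ R) (hX1 : 1000 ≤ X)
    (hXR : (100 * 2 ^ (2 * r + 7)) ^ 2 * X ^ (2 * (2 * (r + 1) ^ 2 + 8 * (r + 1) + 6)) ≤ R)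
    (hRs : (R + 1) ^ 2 ≤ s) (hsR : s < (R + 3) ^ 2)
    (hm1 : s ^ (4 * r + 9) < m ^ 4) (hm2 : m ^ 4 ≤ s ^ (4 * r + 13)) :
    10 ^ 7 ≤ R ∧ 20 ^ n ≤ R ∧ 400 * n ^ 2 ≤ R ∧
    10 ^ 6 * X ^ 2 ≤ R ∧ 10 * X ^ (3 * (r + 1) + 6) ≤ 4 * R ∧
    (8 * R) ^ (r + 1 + 3) ≤ m ∧ 31 * s < m ∧ 20 * (75 * n ^ 2) ^ n * m ≤ R ^ (n + 1) ∧
    25 * 2 ^ n * (ThX X (r + 1) m R + 2 * R * m) ≤ R ^ 2 * m := by
  set c' := 2 * (r + 1) ^ 2 + 8 * (r + 1) + 6 with hc'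
  have hr2 : 1 ≤ r + 2 := by omega
  have hpr : ∀ e, e ≤ 1300 * (r + 1) ^ 2 → (r + 2) ^ e ≤ R := fun e he =>
    (Nat.pow_le_pow_right hr2 he).trans hRr
  have hsq : r + 1 ≤ (r + 1) ^ 2 := by nlinarith
  have h2e : ∀ e, e ≤ 1300 * (r + 1) ^ 2 → 2 ^ e ≤ R := fun e he =>
    (Nat.pow_le_pow_left (by omega) e).trans (hpr e he)
  -- E4
  have hR7 : 10 ^ 7 ≤ R := le_trans (by norm_num) (h2e 24 (by omega))
  -- E3
  have hE3 : 8 ^ (2 * r + 8) ≤ R := by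
    calc 8 ^ (2 * r + 8) = 2 ^ (3 * (2 * r + 8)) := by rw [pow_mul]; norm_num
      _ ≤ R := h2e _ (by omega)
  -- E2
  have hE2 : 40 * (75 * n ^ 2) ^ n ≤ R := by
    have h1 : 75 * n ^ 2 ≤ (r + 2) ^ 13 := by
      calc 75 * n ^ 2 ≤ 2 ^ 11 * (r + 2) ^ 2 := by
            rw [hn]
            nlinarith
        _ ≤ (r + 2) ^ 11 * (r + 2) ^ 2 :=
            Nat.mul_le_mul_right _ (Nat.pow_le_pow_left (by omega) 11)
        _ = (r + 2) ^ 13 := by ring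
    have h2 : 40 ≤ (r + 2) ^ 6 := le_trans (by norm_num) (Nat.pow_le_pow_left (by omega : 2 ≤ r + 2) 6)
    calc 40 * (75 * n ^ 2) ^ n ≤ (r + 2) ^ 6 * ((r + 2) ^ 13) ^ n :=
          Nat.mul_le_mul h2 (Nat.pow_le_pow_left h1 n)
      _ = (r + 2) ^ (6 + 13 * n) := by rw [← pow_mul, ← pow_add]
      _ ≤ R := hpr _ (by omega)
  have hn1 : 1 ≤ n := by omega
  have h20 : 20 ^ n ≤ R := by
    refine le_trans ?_ hE2
    have h1 : 20 ≤ 75 * n ^ 2 := by nlinarith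
    calc 20 ^ n ≤ (75 * n ^ 2) ^ n := Nat.pow_le_pow_left h1 n
      _ ≤ 40 * (75 * n ^ 2) ^ n := Nat.le_mul_of_pos_left _ (by norm_num)
  have h400 : 400 * n ^ 2 ≤ R := by
    refine le_trans ?_ hE2
    calc 400 * n ^ 2 ≤ 40 * (75 * n ^ 2) := by omega
      _ = 40 * (75 * n ^ 2) ^ 1 := by rw [pow_one]
      _ ≤ 40 * (75 * n ^ 2) ^ n :=
        Nat.mul_le_mul_left _ (Nat.pow_le_pow_right (by positivity) hn1)
  have p2 : 0 < 2 ^ n := by positivity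
  have h2n7 : 2 ^ 7 ≤ 2 ^ (2 * r + 7) := Nat.pow_le_pow_right (by norm_num) (by omega)
  have hX0 : 1 ≤ X := by omega
  have hA : 10 ^ 8 ≤ (100 * 2 ^ (2 * r + 7)) ^ 2 := by
    calc 10 ^ 8 ≤ (100 * 2 ^ 7) ^ 2 := by norm_num
      _ ≤ (100 * 2 ^ (2 * r + 7)) ^ 2 := Nat.pow_le_pow_left (Nat.mul_le_mul_left _ h2n7) 2
  have hXe : ∀ e, e ≤ 2 * c' → 10 ^ 8 * X ^ e ≤ R := fun e he =>
    (Nat.mul_le_mul hA (Nat.pow_le_pow_right hX0 he)).trans hXR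
  have hR1 : 1 ≤ R := le_trans (by norm_num) hR7
  have hR2s : R ^ 2 ≤ s := (Nat.pow_le_pow_left (Nat.le_succ R) 2).trans hRs
  -- bounds of m
  have hmR : R ^ (8 * r + 18) < m ^ 4 := by
    refine lt_of_le_of_lt ?_ hm1
    calc R ^ (8 * r + 18) = (R ^ 2) ^ (4 * r + 9) := by rw [← pow_mul]; ring_nf
      _ ≤ s ^ (4 * r + 9) := Nat.pow_le_pow_left hR2s _
  have hmU : m ^ 4 ≤ 2 * R ^ (8 * r + 26) := by
    refine hm2.trans ?_
    have h6 : 6 * (8 * r + 26) ≤ R := by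
      refine le_trans ?_ h400
      rw [hn]
      nlinarith
    calc s ^ (4 * r + 13) ≤ ((R + 3) ^ 2) ^ (4 * r + 13) := Nat.pow_le_pow_left hsR.le _
      _ = (R + 3) ^ (8 * r + 26) := by rw [← pow_mul]; ring_nf
      _ ≤ 2 * R ^ (8 * r + 26) := tm_bern R _ h6
  refine ⟨hR7, h20, h400, ?_, ?_, ?_, ?_, ?_, ?_⟩
  · refine le_trans ?_ (hXe 2 (by omega))
    exact Nat.mul_le_mul_right _ (by norm_num)
  · have h1 := hXe (3 * (r + 1) + 6) (by rw [hc']; nlinarith)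
    have h2 : 10 * X ^ (3 * (r + 1) + 6) ≤ 10 ^ 8 * X ^ (3 * (r + 1) + 6) :=
      Nat.mul_le_mul_right _ (by norm_num)
    omega
  · -- (8R)^(r+4) ≤ m
    apply tm_root
    refine le_of_lt (lt_of_le_of_lt ?_ hmR)
    have h1 : (8 ^ (2 * r + 8)) ^ 2 ≤ R ^ 2 := Nat.pow_le_pow_left hE3 2
    calc ((8 * R) ^ (r + 1 + 3)) ^ 4 = (8 ^ (2 * r + 8)) ^ 2 * R ^ (4 * r + 16) := by
          rw [mul_pow, mul_pow, ← pow_mul, ← pow_mul, ← pow_mul]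
          ring_nf
      _ ≤ R ^ 2 * R ^ (4 * r + 16) := Nat.mul_le_mul_right _ h1
      _ = R ^ (4 * r + 18) := by rw [← pow_add]; ring_nf
      _ ≤ R ^ (8 * r + 18) := Nat.pow_le_pow_right hR1 (by omega)
  · -- 31 s < m
    apply tm_root_lt
    refine lt_of_le_of_lt ?_ hm1
    have h31 : 31 ≤ s := by
      have h2 : R ≤ R ^ 2 := by nlinarith
      omega
    have hs1 : 1 ≤ s := by omega
    calc (31 * s) ^ 4 = 31 ^ 4 * s ^ 4 := by ring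
      _ ≤ s ^ 4 * s ^ 4 := Nat.mul_le_mul_right _ (Nat.pow_le_pow_left h31 4)
      _ = s ^ 8 := by ring
      _ ≤ s ^ (4 * r + 9) := Nat.pow_le_pow_right hs1 (by omega)
  · -- 20 (75 n^2)^n m ≤ R^(n+1)
    apply tm_root
    have h1 : 2 * (20 * (75 * n ^ 2) ^ n) ≤ R := by
      calc 2 * (20 * (75 * n ^ 2) ^ n) = 40 * (75 * n ^ 2) ^ n := by ring
        _ ≤ R := hE2
    have h1' : 20 * (75 * n ^ 2) ^ n ≤ R := by omega
    have h2 : 2 * (20 * (75 * n ^ 2) ^ n) ^ 4 ≤ R ^ 4 := by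
      calc 2 * (20 * (75 * n ^ 2) ^ n) ^ 4 =
          (2 * (20 * (75 * n ^ 2) ^ n)) * (20 * (75 * n ^ 2) ^ n) ^ 3 := by ring
        _ ≤ R * R ^ 3 := Nat.mul_le_mul h1 (Nat.pow_le_pow_left h1' 3)
        _ = R ^ 4 := by ring
    calc (20 * (75 * n ^ 2) ^ n * m) ^ 4 = (20 * (75 * n ^ 2) ^ n) ^ 4 * m ^ 4 := by ring
      _ ≤ (20 * (75 * n ^ 2) ^ n) ^ 4 * (2 * R ^ (8 * r + 26)) := Nat.mul_le_mul_left _ hmU
      _ = (2 * (20 * (75 * n ^ 2) ^ n) ^ 4) * R ^ (8 * r + 26) := by ring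
      _ ≤ R ^ 4 * R ^ (8 * r + 26) := Nat.mul_le_mul_right _ h2
      _ = R ^ (8 * r + 30) := by rw [← pow_add]; ring_nf
      _ ≤ R ^ (8 * r + 32) := Nat.pow_le_pow_right hR1 (by omega)
      _ = (R ^ (n + 1)) ^ 4 := by rw [← pow_mul, hn]; ring_nf
  · -- the window
    rw [← hn] at hXR
    have h350 : 350 * 2 ^ n ≤ R := by
      refine le_trans ?_ ((Nat.mul_le_mul_left _ (Nat.one_le_pow _ _ hX0)).trans hXR)
      nlinarith
    have e1 : 50 * 2 ^ n * X ^ c' * m ≤ R ^ (2 * (r + 1) + 5) := by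
      apply tm_root
      have h4 : 2 * (50 * 2 ^ n) ^ 4 * (X ^ c') ^ 4 ≤ R ^ 2 := by
        calc 2 * (50 * 2 ^ n) ^ 4 * (X ^ c') ^ 4 ≤ (100 * 2 ^ n) ^ 4 * (X ^ c') ^ 4 := by
              apply Nat.mul_le_mul_right
              calc 2 * (50 * 2 ^ n) ^ 4 ≤ 16 * (50 * 2 ^ n) ^ 4 :=
                    Nat.mul_le_mul_right _ (by norm_num)
                _ = (100 * 2 ^ n) ^ 4 := by ring
          _ = ((100 * 2 ^ n) ^ 2 * X ^ (2 * c')) ^ 2 := by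
              have hXc : X ^ (2 * c') = (X ^ c') ^ 2 := by rw [mul_comm, pow_mul]
              rw [hXc]
              ring
          _ ≤ R ^ 2 := Nat.pow_le_pow_left hXR 2
      calc (50 * 2 ^ n * X ^ c' * m) ^ 4 = (50 * 2 ^ n) ^ 4 * (X ^ c') ^ 4 * m ^ 4 := by ring
        _ ≤ (50 * 2 ^ n) ^ 4 * (X ^ c') ^ 4 * (2 * R ^ (8 * r + 26)) :=
          Nat.mul_le_mul_left _ hmU
        _ = (2 * (50 * 2 ^ n) ^ 4 * (X ^ c') ^ 4) * R ^ (8 * r + 26) := by ring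
        _ ≤ R ^ 2 * R ^ (8 * r + 26) := Nat.mul_le_mul_right _ h4
        _ = (R ^ (2 * (r + 1) + 5)) ^ 4 := by rw [← pow_add, ← pow_mul]; ring_nf
    have e2 : 50 * 2 ^ n * (X ^ c' * m ^ 2 / R ^ (2 * (r + 1) + 3)) ≤ R ^ 2 * m := by
      have hpos : 0 < R ^ (2 * (r + 1) + 3) := by positivity
      refine Nat.le_of_mul_le_mul_right (?_ : _ * R ^ (2 * (r + 1) + 3) ≤ _) hpos
      calc 50 * 2 ^ n * (X ^ c' * m ^ 2 / R ^ (2 * (r + 1) + 3)) * R ^ (2 * (r + 1) + 3)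
          = 50 * 2 ^ n * ((X ^ c' * m ^ 2 / R ^ (2 * (r + 1) + 3)) * R ^ (2 * (r + 1) + 3)) := by
            ring
        _ ≤ 50 * 2 ^ n * (X ^ c' * m ^ 2) := Nat.mul_le_mul_left _ (Nat.div_mul_le_self _ _)
        _ = (50 * 2 ^ n * X ^ c' * m) * m := by ring
        _ ≤ R ^ (2 * (r + 1) + 5) * m := Nat.mul_le_mul_right _ e1
        _ = R ^ 2 * m * R ^ (2 * (r + 1) + 3) := by ring
    have e3 : 350 * 2 ^ n * (R * m) ≤ R ^ 2 * m := by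
      calc 350 * 2 ^ n * (R * m) ≤ R * (R * m) := Nat.mul_le_mul_right _ h350
        _ = R ^ 2 * m := by ring
    have e4 : ThX X (r + 1) m R = X ^ c' * m ^ 2 / R ^ (2 * (r + 1) + 3) + 5 * (R * m) := rfl
    rw [e4]
    have e5 : 2 * (25 * 2 ^ n * (X ^ c' * m ^ 2 / R ^ (2 * (r + 1) + 3) + 5 * (R * m) +
        2 * R * m)) ≤ 2 * (R ^ 2 * m) := by
      calc 2 * (25 * 2 ^ n * (X ^ c' * m ^ 2 / R ^ (2 * (r + 1) + 3) + 5 * (R * m) +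
            2 * R * m)) = 50 * 2 ^ n * (X ^ c' * m ^ 2 / R ^ (2 * (r + 1) + 3)) +
            350 * 2 ^ n * (R * m) := by ring
        _ ≤ R ^ 2 * m + R ^ 2 * m := Nat.add_le_add e2 e3
        _ = 2 * (R ^ 2 * m) := by ring
    exact Nat.le_of_mul_le_mul_left e5 (by norm_num)

private theorem tx_Y (Y a : ℕ) (hY : 2 ≤ Y) (ha : 2 ≤ a) : (Y + 2) ^ 2 ≤ a ^ 2 * Y ^ 2 := by
  calc (Y + 2) ^ 2 ≤ (a * Y) ^ 2 := by
        refine Nat.pow_le_pow_left ?_ 2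
        nlinarith
    _ = a ^ 2 * Y ^ 2 := by ring

private theorem tx_s' (a u : ℕ) (ha : 2 ≤ a) (hu : 1 ≤ u) :
    (a ^ (1300 * u) + 2) ^ 2 ≤ a ^ (2610 * u) := by
  have h1 : 2 ≤ a ^ (1300 * u) := by
    calc 2 ≤ a ^ 1 := by rw [pow_one]; exact ha
      _ ≤ a ^ (1300 * u) := Nat.pow_le_pow_right (by omega) (by omega)
  refine (tx_Y _ a h1 ha).trans ?_
  rw [← pow_mul, ← pow_add]
  exact Nat.pow_le_pow_right (by omega) (by omega)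

private theorem tx_s (r s : ℕ) (h : (r + 2) ^ (2610 * (r + 1) ^ 2) ≤ s) :
    ((r + 2) ^ (1300 * (r + 1) ^ 2) + 2) ^ 2 ≤ s :=
  (tx_s' (r + 2) ((r + 1) ^ 2) (Nat.le_add_left 2 r) (Nat.succ_le_of_lt (by positivity))).trans h

private theorem tx_mono (r : ℕ) :
    (r + 2) ^ (2610 * (r + 1) ^ 2) ≤ (r + 1 + 2) ^ (2610 * (r + 1 + 1) ^ 2) :=
  (Nat.pow_le_pow_left (Nat.le_succ (r + 2)) _).trans (Nat.pow_le_pow_right (Nat.succ_pos _)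
    (Nat.mul_le_mul_left _ (Nat.pow_le_pow_left (Nat.le_succ (r + 1)) 2)))

private theorem tx_base (s : ℕ) (h : (0 + 2) ^ (2610 * (0 + 1) ^ 2) ≤ s) : 10 ^ 40 ≤ s := by
  have h1 : ∀ e, 200 ≤ e → 2 ^ e ≤ s → 10 ^ 40 ≤ s := by
    intro e he h2
    calc 10 ^ 40 ≤ 2 ^ 200 := by norm_num
      _ ≤ 2 ^ e := Nat.pow_le_pow_right (by norm_num) he
      _ ≤ s := h2
  refine h1 (2610 * (0 + 1) ^ 2) (by norm_num) ?_
  rw [zero_add] at h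
  exact h

/-- The theorem for the exponents `r + 9/4`, explicit. -/
theorem tThmX (h1 : ShghPS.S_FinA.{u}) (h2 : S_PAll.{u}) (h3 : S_BandX.{u})
    (h4 : ShghPS.S_FinG.{u}) : ∀ (r : ℕ) (F : Type u) [Field F] [CharZero F] (m s d : ℕ),
    (r + 2) ^ (2610 * (r + 1) ^ 2) ≤ s → 1 ≤ m → m ^ 4 ≤ s ^ (4 * r + 9) →
    hF F d (Multiset.replicate s m) = T (d + 1) - s * T m := by
  intro r
  induction r with
  | zero =>
    intro F _ _ m s d hs hm hms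
    have hs40 : 10 ^ 40 ≤ s := tx_base s hs
    refine h1 F d m s hm (le_trans (by norm_num) hs40) ?_
    have e1 : (10 ^ 20 * m ^ 2) ^ 2 ≤ (s ^ 5) ^ 2 := by
      calc (10 ^ 20 * m ^ 2) ^ 2 = 10 ^ 40 * m ^ 4 := by ring
        _ ≤ s * s ^ (4 * 0 + 9) := Nat.mul_le_mul hs40 hms
        _ = (s ^ 5) ^ 2 := by ring
    exact (Nat.pow_le_pow_iff_left (by norm_num)).1 e1
  | succ r ih =>
    intro F _ _ m s d hs hm hms
    have hs' : (r + 2) ^ (2610 * (r + 1) ^ 2) ≤ s := (tx_mono r).trans hs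
    by_cases hc : m ^ 4 ≤ s ^ (4 * r + 9)
    · exact ih F m s d hs' hm hc
    rw [not_le] at hc
    obtain ⟨n, hn⟩ : ∃ n, n = 2 * r + 7 := ⟨_, rfl⟩
    obtain ⟨R, hRR0, hRs, hsR, hev⟩ := tm_R _ s (tx_s r s hs')
    obtain ⟨X, B, hF, hB, hX, hXR⟩ := parE r R hRR0
    have hms' : m ^ 4 ≤ s ^ (4 * r + 13) := hms
    obtain ⟨g0, g1, g1', g2, g3, g4, g5, g6, g7⟩ :=
      tx_num r n R m s X hn hRR0 hX hXR hRs hsR hc hms'
    have g8 : 30 * (R + 1) ^ 2 ≤ m := by omega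
    have hPR : PR F X (8 * R) (r + 1) := h2 F X B (8 * R) (r + 1) hF hX hB
    have hBand : BandAt F R m (ThX X (r + 1) m R) :=
      h3 F X R m (r + 1) hX g2 g3 g4 g8 hPR
    refine h4 F R m s n (ThX X (r + 1) m R) hBand g0 hRs hsR hev g5 (by omega) g6 ?_
      g1' g7 d
    calc 20 ^ n * R ≤ R * R := Nat.mul_le_mul_right _ g1
      _ = R ^ 2 := by ring
      _ ≤ (R + 1) ^ 2 := Nat.pow_le_pow_left (Nat.le_succ R) 2
      _ ≤ 30 * (R + 1) ^ 2 := by omega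
      _ ≤ m := g8

/-- The rounded term. -/
private theorem tw_div (C A m2 B : ℕ) (hB : 0 < B) (h : C * A ≤ B) : C * (A * m2 / B) ≤ m2 := by
  have h1 : A * m2 / B * B ≤ A * m2 := Nat.div_mul_le_self _ _
  have h2 : C * (A * m2 / B) * B ≤ m2 * B := by
    calc C * (A * m2 / B) * B = C * (A * m2 / B * B) := by ring
      _ ≤ C * (A * m2) := Nat.mul_le_mul_left _ h1
      _ = C * A * m2 := by ring
      _ ≤ B * m2 := Nat.mul_le_mul_right _ h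
      _ = m2 * B := by ring
  exact Nat.le_of_mul_le_mul_right h2 hB

private theorem tw_num (k s m R X : ℕ) (hRs : (R + 1) ^ 2 ≤ s) (hsR : s < (R + 3) ^ 2)
    (hR7 : 10 ^ 7 ≤ R) (h2k : 2 ^ k ≤ R) (hX : 1000 ≤ X)
    (hXc : X ^ (2 * (k + 3) ^ 2 + 11 * (k + 3) + 13) ≤ R) (hm : s ^ (4 * (k + 3) + 9) < m ^ 4) :
    10 ^ 6 * X ^ 2 ≤ R ∧ 10 * X ^ (3 * (k + 3) + 6) ≤ 4 * R ∧ (8 * R) ^ (k + 3 + 3) ≤ m ∧
    30 * (R + 1) ^ 2 ≤ m ∧ 31 * s < m ∧ 200 * ThX X (k + 3) m R ≤ m ^ 2 ∧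
    s ^ k * (R ^ 2 * m + ThX X (k + 3) m R) ≤ m ^ 2 := by
  have hX1 : 1 ≤ X := by omega
  have hR0 : 0 < R := by omega
  have hRR : R ^ 2 ≤ s := le_trans (Nat.pow_le_pow_left (by omega) 2) hRs
  have hs14 : 10 ^ 14 ≤ s := by
    calc 10 ^ 14 = (10 ^ 7) ^ 2 := by norm_num
      _ ≤ R ^ 2 := Nat.pow_le_pow_left hR7 2
      _ ≤ s := hRR
  have hs0 : 0 < s := by omega
  have hm5 : s ^ (k + 5) < m := by
    by_contra hcon
    push Not at hcon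
    have h1 : m ^ 4 ≤ s ^ (4 * (k + 3) + 9) := by
      calc m ^ 4 ≤ (s ^ (k + 5)) ^ 4 := Nat.pow_le_pow_left hcon 4
        _ = s ^ (4 * k + 20) := by rw [← pow_mul]; congr 1; ring
        _ ≤ s ^ (4 * (k + 3) + 9) := Nat.pow_le_pow_right hs0 (by omega)
    omega
  have hsk : 1 ≤ s ^ k := Nat.one_le_pow _ _ hs0
  have hmk : 10 ^ 14 * s ^ (k + 1) ≤ m := by
    calc 10 ^ 14 * s ^ (k + 1) ≤ s * s ^ (k + 1) := Nat.mul_le_mul_right _ hs14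
      _ = s ^ (k + 2) := by ring
      _ ≤ s ^ (k + 5) := Nat.pow_le_pow_right hs0 (by omega)
      _ ≤ m := hm5.le
  have hms : 10 ^ 14 * s ≤ m := by
    calc 10 ^ 14 * s = 10 ^ 14 * s ^ 1 := by rw [pow_one]
      _ ≤ 10 ^ 14 * s ^ (k + 1) := Nat.mul_le_mul_left _ (Nat.pow_le_pow_right hs0 (by omega))
      _ ≤ m := hmk
  have hRm : R ≤ s := le_trans (Nat.le_self_pow (by norm_num) R) hRR
  have hXe : ∀ e, e ≤ 2 * (k + 3) ^ 2 + 11 * (k + 3) + 13 → X ^ e ≤ R := fun e he =>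
    le_trans (Nat.pow_le_pow_right hX1 he) hXc
  have e1 : (2 * (k + 3) ^ 2 + 8 * (k + 3) + 6) ≤ 2 * (k + 3) ^ 2 + 11 * (k + 3) + 13 := by omega
  have hXA := hXe _ e1
  have hs2 : s ≤ 2 * R ^ 2 := by nlinarith
  have hR8 : 10 ^ 7 * R ^ 2 ≤ R ^ 8 := by
    calc 10 ^ 7 * R ^ 2 ≤ R * R ^ 2 := Nat.mul_le_mul_right _ hR7
      _ = R ^ 3 := by ring
      _ ≤ R ^ 8 := Nat.pow_le_pow_right hR0 (by norm_num)
  -- the two inequalities for the first term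
  have hA1 : 400 * X ^ (2 * (k + 3) ^ 2 + 8 * (k + 3) + 6) ≤ R ^ (2 * (k + 3) + 3) := by
    calc 400 * X ^ (2 * (k + 3) ^ 2 + 8 * (k + 3) + 6) ≤ R * R :=
          Nat.mul_le_mul (by omega) hXA
      _ = R ^ 2 := by ring
      _ ≤ R ^ (2 * (k + 3) + 3) := Nat.pow_le_pow_right hR0 (by omega)
  have hA2 : (2 * s ^ k) * X ^ (2 * (k + 3) ^ 2 + 8 * (k + 3) + 6) ≤ R ^ (2 * (k + 3) + 3) := by
    have h1 : s ^ k ≤ R * R ^ (2 * k) := by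
      calc s ^ k ≤ (2 * R ^ 2) ^ k := Nat.pow_le_pow_left hs2 k
        _ = 2 ^ k * R ^ (2 * k) := by rw [mul_pow, ← pow_mul]
        _ ≤ R * R ^ (2 * k) := Nat.mul_le_mul_right _ h2k
    calc (2 * s ^ k) * X ^ (2 * (k + 3) ^ 2 + 8 * (k + 3) + 6)
        ≤ (R * (R * R ^ (2 * k))) * R := Nat.mul_le_mul (Nat.mul_le_mul (by omega) h1) hXA
      _ = R ^ (2 * k + 3) := by ring
      _ ≤ R ^ (2 * (k + 3) + 3) := Nat.pow_le_pow_right hR0 (by omega)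
  have hRp : 0 < R ^ (2 * (k + 3) + 3) := Nat.pow_pos hR0
  have hD1 := tw_div _ _ (m ^ 2) _ hRp hA1
  have hD2 := tw_div _ _ (m ^ 2) _ hRp hA2
  have hTh : ThX X (k + 3) m R =
    X ^ (2 * (k + 3) ^ 2 + 8 * (k + 3) + 6) * m ^ 2 / R ^ (2 * (k + 3) + 3) + 5 * (R * m) := rfl
  generalize X ^ (2 * (k + 3) ^ 2 + 8 * (k + 3) + 6) * m ^ 2 / R ^ (2 * (k + 3) + 3) = D at *
  rw [hTh]
  refine ⟨?_, ?_, ?_, ?_, ?_, ?_, ?_⟩
  · calc 10 ^ 6 * X ^ 2 = 1000 ^ 2 * X ^ 2 := by norm_num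
      _ ≤ X ^ 2 * X ^ 2 := Nat.mul_le_mul_right _ (Nat.pow_le_pow_left hX 2)
      _ = X ^ 4 := by ring
      _ ≤ R := hXe 4 (by omega)
  · calc 10 * X ^ (3 * (k + 3) + 6) ≤ X * X ^ (3 * (k + 3) + 6) :=
          Nat.mul_le_mul_right _ (by omega)
      _ = X ^ (3 * (k + 3) + 7) := by ring
      _ ≤ R := hXe _ (by omega)
      _ ≤ 4 * R := by omega
  · calc (8 * R) ^ (k + 3 + 3) = 8 ^ (k + 6) * R ^ (k + 6) := by rw [mul_pow]
      _ ≤ 8 ^ (2 * (k + 4)) * R ^ (k + 6) :=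
          Nat.mul_le_mul_right _ (Nat.pow_le_pow_right (by norm_num) (by omega))
      _ = 64 ^ (k + 4) * R ^ (k + 6) := by rw [pow_mul]; norm_num
      _ ≤ R ^ (k + 4) * R ^ (k + 6) :=
          Nat.mul_le_mul_right _ (Nat.pow_le_pow_left (by omega) _)
      _ = (R ^ 2) ^ (k + 5) := by rw [← pow_add, ← pow_mul]; congr 1; ring
      _ ≤ s ^ (k + 5) := Nat.pow_le_pow_left hRR _
      _ ≤ m := hm5.le
  · calc 30 * (R + 1) ^ 2 ≤ 30 * s := Nat.mul_le_mul_left _ hRs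
      _ ≤ m := by omega
  · omega
  · have h1 : 2000 * (R * m) ≤ m * m := by
      calc 2000 * (R * m) = (2000 * R) * m := by ring
        _ ≤ m * m := Nat.mul_le_mul_right _ (by omega)
    have h2 : m ^ 2 = m * m := by ring
    rw [h2] at hD1 ⊢
    omega
  · have h1 : s ^ k * (R ^ 2 * m) + s ^ k * (5 * (R * m)) ≤ 6 * (s ^ (k + 1) * m) := by
      have h3 : s ^ k * (R ^ 2 * m) ≤ s ^ k * (s * m) :=
        Nat.mul_le_mul_left _ (Nat.mul_le_mul_right _ hRR)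
      have h4 : s ^ k * (5 * (R * m)) ≤ s ^ k * (5 * (s * m)) :=
        Nat.mul_le_mul_left _ (Nat.mul_le_mul_left _ (Nat.mul_le_mul_right _ hRm))
      calc s ^ k * (R ^ 2 * m) + s ^ k * (5 * (R * m))
          ≤ s ^ k * (s * m) + s ^ k * (5 * (s * m)) := Nat.add_le_add h3 h4
        _ = 6 * (s ^ (k + 1) * m) := by ring
    have h2 : 12 * (s ^ (k + 1) * m) ≤ m * m := by
      calc 12 * (s ^ (k + 1) * m) = (12 * s ^ (k + 1)) * m := by ring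
        _ ≤ m * m := Nat.mul_le_mul_right _ (by omega)
    have h5 : m ^ 2 = m * m := by ring
    have h6 : s ^ k * (R ^ 2 * m + (D + 5 * (R * m))) =
      s ^ k * D + (s ^ k * (R ^ 2 * m) + s ^ k * (5 * (R * m))) := by ring
    have h7 : 2 * s ^ k * D = 2 * (s ^ k * D) := by ring
    rw [h7, h5] at hD2
    rw [h6, h5]
    omega

private theorem tx_exp (k : ℕ) : 2 * (k + 3) ^ 2 + 11 * (k + 3) + 13 ≤
    2 * (2 * (k + 2 + 1) ^ 2 + 8 * (k + 2 + 1) + 6) := by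
  have h : k + 3 = k + 2 + 1 := rfl
  rw [h]
  have h1 : k + 2 + 1 ≤ (k + 2 + 1) ^ 2 := by nlinarith
  omega

private theorem tx_exp2 (k e : ℕ) (h : e ≤ 24 + k) : e ≤ 1300 * (k + 2 + 1) ^ 2 := by
  have h1 : k + 2 + 1 ≤ (k + 2 + 1) ^ 2 := by nlinarith
  omega

/-- Windows for all `m`, explicit. -/
theorem tThmWX (h1 : ShghPS.S_FinA.{u}) (h2 : S_PAll.{u}) (h3 : S_BandX.{u})
    (h4 : ShghPS.S_FinG.{u}) (h5 : S_FinW.{u}) :
    ∀ (k : ℕ) (F : Type u) [Field F] [CharZero F] (m s d : ℕ),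
    (k + 3 + 2) ^ (2610 * (k + 3 + 1) ^ 2) ≤ s → 1 ≤ m →
    (m : ℤ) ^ 2 ≤ s ^ k * |(T (d + 1) : ℤ) - s * T m| →
    hF F d (Multiset.replicate s m) = T (d + 1) - s * T m := by
  intro k F _ _ m s d hs hm hw
  by_cases hc : m ^ 4 ≤ s ^ (4 * (k + 3) + 9)
  · exact tThmX h1 h2 h3 h4 (k + 3) F m s d hs hm hc
  push Not at hc
  have hs' : (k + 2 + 2) ^ (2610 * (k + 2 + 1) ^ 2) ≤ s := (tx_mono (k + 2)).trans hs
  obtain ⟨R, hRR0, hRs, hsR, hev⟩ := tm_R _ s (tx_s (k + 2) s hs')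
  obtain ⟨X, B, hF, hB, hX, hXR⟩ := parE (k + 2) R hRR0
  have hX1 : 1 ≤ X := by omega
  have hXc : X ^ (2 * (k + 3) ^ 2 + 11 * (k + 3) + 13) ≤ R := by
    refine le_trans ?_ hXR
    calc X ^ (2 * (k + 3) ^ 2 + 11 * (k + 3) + 13) ≤
        X ^ (2 * (2 * (k + 2 + 1) ^ 2 + 8 * (k + 2 + 1) + 6)) :=
          Nat.pow_le_pow_right hX1 (tx_exp k)
      _ ≤ (100 * 2 ^ (2 * (k + 2) + 7)) ^ 2 *
          X ^ (2 * (2 * (k + 2 + 1) ^ 2 + 8 * (k + 2 + 1) + 6)) :=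
          Nat.le_mul_of_pos_left _ (by positivity)
  have h2e : ∀ e, e ≤ 1300 * (k + 2 + 1) ^ 2 → 2 ^ e ≤ R := fun e he =>
    (Nat.pow_le_pow_left (by omega) e).trans ((Nat.pow_le_pow_right (by omega) he).trans hRR0)
  have hR7 : 10 ^ 7 ≤ R := le_trans (by norm_num) (h2e 24 (tx_exp2 k 24 (by omega)))
  have h2k : 2 ^ k ≤ R := h2e k (tx_exp2 k k (by omega))
  obtain ⟨a1, a2, a3, a4, a5, a6, a7⟩ := tw_num k s m R X hRs hsR hR7 h2k hX hXc hc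
  have hP : PR F X (8 * R) (k + 3) := h2 F X B (8 * R) (k + 3) hF hX hB
  have hBand := h3 F X R m (k + 3) hX a1 a2 a3 a4 hP
  refine h5 F R m s _ hBand hR7 hRs hsR hev a5 a6 d ?_
  have hs0 : 0 < s := lt_of_lt_of_le (by positivity) hRs
  have hsk : (0 : ℤ) < (s : ℤ) ^ k := pow_pos (by exact_mod_cast hs0) k
  have a8 : (s : ℤ) ^ k * ((R : ℤ) ^ 2 * m + ThX X (k + 3) m R) ≤ (m : ℤ) ^ 2 := by
    exact_mod_cast a7
  exact le_of_mul_le_mul_left (le_trans a8 hw) hsk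

private theorem tx_fin (k : ℕ) :
    (k + 3 + 2) ^ (2610 * (k + 3 + 1) ^ 2) ≤ (k + 2) ^ (10 ^ 5 * (k + 1) ^ 2) := by
  have h1 : (k + 3 + 2) ^ 3 ≤ (k + 2) ^ 7 := by
    have h2 : 8 * (k + 3 + 2) ^ 3 ≤ 125 * (k + 2) ^ 3 := by
      calc 8 * (k + 3 + 2) ^ 3 = (2 * (k + 5)) ^ 3 := by ring
        _ ≤ (5 * (k + 2)) ^ 3 := Nat.pow_le_pow_left (by omega) 3
        _ = 125 * (k + 2) ^ 3 := by ring
    have h3 : 16 * (k + 2) ^ 3 ≤ (k + 2) ^ 7 := by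
      calc 16 * (k + 2) ^ 3 = 2 ^ 4 * (k + 2) ^ 3 := by norm_num
        _ ≤ (k + 2) ^ 4 * (k + 2) ^ 3 :=
          Nat.mul_le_mul_right _ (Nat.pow_le_pow_left (by omega) 4)
        _ = (k + 2) ^ 7 := by ring
    omega
  have e1 : 2610 * (k + 3 + 1) ^ 2 = 3 * (870 * (k + 3 + 1) ^ 2) := by omega
  have e3 : (k + 3 + 1) ^ 2 ≤ (4 * (k + 1)) ^ 2 := Nat.pow_le_pow_left (by omega) 2
  have e2 : 7 * (870 * (k + 3 + 1) ^ 2) ≤ 10 ^ 5 * (k + 1) ^ 2 := by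
    rw [mul_pow] at e3
    omega
  rw [e1, pow_mul]
  refine (Nat.pow_le_pow_left h1 _).trans ?_
  rw [← pow_mul]
  exact Nat.pow_le_pow_right (by omega) e2

/-- THEOREM E, explicit and unified. -/
def S_Expl : Prop := ∀ (F : Type u) [Field F] [CharZero F] (k m s d : ℕ),
  (k + 2) ^ (10 ^ 5 * (k + 1) ^ 2) ≤ s → 1 ≤ m →
  (m ≤ s ^ k ∨ (m : ℤ) ^ 2 ≤ s ^ k * |(T (d + 1) : ℤ) - s * T m|) →
  hF F d (Multiset.replicate s m) = T (d + 1) - s * T m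

theorem tExpl (h1 : ShghPS.S_FinA.{u}) (h2 : S_PAll.{u}) (h3 : S_BandX.{u})
    (h4 : ShghPS.S_FinG.{u}) (h5 : S_FinW.{u}) : S_Expl.{u} := by
  intro F _ _ k m s d hs hm hw
  have hs1 := (tx_fin k).trans hs
  rcases hw with hw | hw
  · have hs0 : 0 < s := lt_of_lt_of_le (by positivity) hs
    refine tThmX h1 h2 h3 h4 (k + 3) F m s d hs1 hm ?_
    calc m ^ 4 ≤ (s ^ k) ^ 4 := Nat.pow_le_pow_left hw 4
      _ = s ^ (4 * k) := by rw [← pow_mul]; ring_nf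
      _ ≤ s ^ (4 * (k + 3) + 9) := Nat.pow_le_pow_right hs0 (by omega)
  · exact tThmWX h1 h2 h3 h4 h5 k F m s d hs1 hm hw

end ShghPE
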