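import Pool.Agent.ShghPE.Spec
import Pool.Agent.ShghPS.WinG

/-!
# ShghPE/FinW: windows for one value of `m` (this is `ShghPS.S_WinG`)
-/

namespace ShghPE

open MvPolynomial ShghJ ShghC ShghK ShghPS

universe u

theorem tFinW (h1 : ShghPS.S_OneDG.{u}) : S_FinW.{u} := by
  intro F _ _ R m s Θ hB hR hs1 hs2 hRs hms hΘ d hw
  exact ShghPS.tWinG h1 F R m s Θ hB hR hs1 hs2 hRs hms.le hΘ d hw

end ShghPE
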