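import Pool.Agent.ShghPE.Spec

/-!
# ShghPE, KidNum: the windows of the children
-/

namespace ShghPE

open MvPolynomial ShghJ ShghC ShghK ShghPS

universe u

private theorem div_le_div_aux {a b c d : ℕ} (hb : 0 < b) (hd : 0 < d) (h : a * d ≤ c * b) :
    a / b ≤ c / d := by
  rw [Nat.le_div_iff_mul_le hd]
  have h1 : a / b * b ≤ a := Nat.div_mul_le_self a b
  have h2 : a / b * d * b ≤ c * b := by
    calc a / b * d * b = a / b * b * d := by ring
      _ ≤ a * d := Nat.mul_le_mul_right d h1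
      _ ≤ c * b := h
  exact Nat.le_of_mul_le_mul_right h2 hb

theorem tKidNum : S_KidNum := by
  intro X r μ j κ x hX hj hκ hx
  have hX0 : 0 < X := by omega
  have hj9 : X ^ 9 ≤ j := le_trans (Nat.pow_le_pow_right hX0 (by omega)) hj
  have hj0 : 0 < j := lt_of_lt_of_le (Nat.pow_pos hX0) hj9
  have hx0 : 0 < x := by
    rcases Nat.eq_zero_or_pos x with h | h
    · subst h
      simp at hx
      omega
    · exact h
  have h1 : X ^ 2 * κ ≤ μ := by
    have h2 : X ^ 2 * κ * j ≤ μ * j := by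
      calc X ^ 2 * κ * j = X ^ 2 * (κ * j) := by ring
        _ ≤ X ^ 2 * (5 * (X * μ)) := Nat.mul_le_mul_left _ hκ
        _ = 5 * X ^ 3 * μ := by ring
        _ ≤ X ^ 6 * X ^ 3 * μ := by
          have : 5 ≤ X ^ 6 := le_trans (by omega : 5 ≤ X) (Nat.le_self_pow (by norm_num) X)
          exact Nat.mul_le_mul_right _ (Nat.mul_le_mul_right _ this)
        _ = X ^ 9 * μ := by ring
        _ ≤ j * μ := Nat.mul_le_mul_right _ hj9
        _ = μ * j := by ring
    exact Nat.le_of_mul_le_mul_right h2 hj0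
  have h2 : X ^ ((2 * r + 5) * (r + 1)) * κ ^ 2 / x ^ (2 * r + 2) ≤
      25 * X ^ (2 * r ^ 2 + 11 * r + 11) * μ ^ 2 / j ^ (2 * r + 4) := by
    apply div_le_div_aux (Nat.pow_pos hx0) (Nat.pow_pos hj0)
    calc X ^ ((2 * r + 5) * (r + 1)) * κ ^ 2 * j ^ (2 * r + 4)
        = X ^ ((2 * r + 5) * (r + 1)) * (κ * j) ^ 2 * j ^ (2 * r + 2) := by ring
      _ ≤ X ^ ((2 * r + 5) * (r + 1)) * (5 * (X * μ)) ^ 2 * (X ^ 2 * x) ^ (2 * r + 2) := by
          gcongr
      _ = 25 * X ^ (2 * r ^ 2 + 11 * r + 11) * μ ^ 2 * x ^ (2 * r + 2) := by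
          have e : 2 * r ^ 2 + 11 * r + 11 = (2 * r + 5) * (r + 1) + 2 + 2 * (2 * r + 2) := by ring
          rw [e, pow_add, pow_add, pow_mul X 2 (2 * r + 2)]
          ring
  unfold Wn Vn
  exact add_le_add h2 h1

end ShghPE
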