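import Pool.Agent.ShghPE.Spec

/-!
# ShghPE, MonQ: elementary properties of `QC`
-/

namespace ShghPE

open MvPolynomial ShghJ ShghC ShghK ShghPS

universe u

private theorem mq_id (μ ν j l l' : ℕ) (h : l' + j * μ = l + j * ν) :
    (μ + ν + 1) * l + j * (ν * (ν + 1)) = (μ + ν + 1) * l' + j * (μ * (μ + 1)) := by
  have h' : (l' : ℤ) = l + j * ν - j * μ := by
    have h2 : ((l' + j * μ : ℕ) : ℤ) = ((l + j * ν : ℕ) : ℤ) := by rw [h]
    push_cast at h2
    linarith
  have h3 : (((μ + ν + 1) * l + j * (ν * (ν + 1)) : ℕ) : ℤ) =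
      (((μ + ν + 1) * l' + j * (μ * (μ + 1)) : ℕ) : ℤ) := by
    push_cast
    rw [h']
    ring
  exact_mod_cast h3

theorem tMonQ (h1 : ShghPS.S_EvPeel.{u}) (h2 : ShghK.S_Flip.{u}) : S_MonQ.{u} := by
  intro F _ t l j μ W
  refine ⟨fun W' hW h => ⟨fun h' => h.1 (le_trans (Nat.add_le_add_left hW _) h'),
    fun h' => h.2 (le_trans (Nat.add_le_add_left hW _) h')⟩, fun _ _ h => ?_,
    fun ν l' ht hl hl' hll h => ?_⟩
  · unfold QC at h ⊢
    rw [h2 F (t - 1) (l - 1), mul_comm t l]
    exact h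
  · have ht1 : t - 1 = μ + ν := by rw [ht, Nat.add_sub_cancel]
    have hsub : μ + ν - μ = ν := Nat.add_sub_cancel_left μ ν
    have hle : hN F (Sf 0 (t - 1) (l - 1)) (Multiset.replicate (2 * j) μ) ≤
        hN F (Sf 0 (t - 1) (l' - 1)) (Multiset.replicate (2 * j) ν) := by
      have h3 := (h1 F (μ + ν) μ j (l - 1) 0 (Nat.le_add_right _ _)).1 (l' - 1) (by
        rw [hsub]
        generalize j * μ = a at hll ⊢
        generalize j * ν = b at hll ⊢
        omega)
      rw [hsub, add_zero, add_zero] at h3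
      rw [ht1]
      exact h3
    have hid := mq_id μ ν j l l' hll
    rw [← ht] at hid
    unfold QC at h ⊢
    generalize hN F (Sf 0 (t - 1) (l - 1)) (Multiset.replicate (2 * j) μ) = x at hle ⊢
    generalize hN F (Sf 0 (t - 1) (l' - 1)) (Multiset.replicate (2 * j) ν) = y at hle h
    generalize t * l = a at hid h ⊢
    generalize t * l' = b at hid h
    generalize j * (μ * (μ + 1)) = c at hid h ⊢
    generalize j * (ν * (ν + 1)) = e at hid h
    refine ⟨fun h' => ?_, fun h' => ?_⟩
    · have h4 := h.1 (by omega)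
      omega
    · have h4 := h.2 (by omega)
      omega

end ShghPE
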