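import Pool.Agent.ShghPE.Spec

/-!
# ShghPE/PAll: `P_r` for all `r`
-/

namespace ShghPE

open MvPolynomial ShghJ ShghC ShghK ShghPS

universe u

theorem tPAll (h1 : S_Base.{u}) (h2 : S_StepP.{u}) : S_PAll.{u} := by
  intro F _ _ X B Y r hF hX hY
  induction r with
  | zero => exact h1 F X Y hX
  | succ r ih => exact h2 F X B Y r hF hX hY ih

end ShghPE
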