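import Pool.Agent.ShghPE.Spec

/-!
# ShghPE/QP: the window of a `q`-piece from the windows of its children
-/

namespace ShghPE

open MvPolynomial ShghJ ShghC ShghK ShghPS

universe u

private theorem qp_j {X q j l n : ℕ} (hX : 1000 ≤ X) (h : QT X q j l n)
    (hl : X ^ 3 * n ≤ l) : 1 ≤ j := by
  by_contra hcon
  have hj : j = 0 := by omega
  obtain ⟨_, h2⟩ := h
  rw [hj, zero_add, one_mul] at h2
  have h3 : (q + 1) * (X ^ 3 * n) ≤ (q + 1) * l := Nat.mul_le_mul_left _ hl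
  have h4 : q * n + (q + 1) * (2 * X * n) ≤ (q + 1) * (X ^ 3 * n) := by
    have h5 : 1 + 2 * X ≤ X ^ 3 := by
      have g2 : 1000 * (X * X) ≤ X * (X * X) := Nat.mul_le_mul_right _ hX
      have g3 : 1000 * X ≤ X * X := Nat.mul_le_mul_right _ hX
      have g4 : X ^ 3 = X * (X * X) := by ring
      omega
    calc q * n + (q + 1) * (2 * X * n) ≤ (q + 1) * n + (q + 1) * (2 * X * n) :=
          Nat.add_le_add_right (Nat.mul_le_mul_right _ (Nat.le_succ q)) _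
      _ = (q + 1) * ((1 + 2 * X) * n) := by ring
      _ ≤ (q + 1) * (X ^ 3 * n) := Nat.mul_le_mul_left _ (Nat.mul_le_mul_right _ h5)
  omega

private theorem qp_V {X q μ κ V l : ℕ} (hX : 1000 ≤ X) (hq : 50 * q ≤ X) (hκ : 1 ≤ κ)
    (h : X ^ 3 * (V + l) ≤ μ ^ 2) (hμ : μ ≤ 3 * (q * (κ + 1))) : V ≤ X * (κ * (κ + 1)) := by
  have h1 : X ^ 3 * V ≤ μ ^ 2 := le_trans (Nat.mul_le_mul_left _ (Nat.le_add_right _ _)) h
  have h2 : μ ^ 2 ≤ 9 * (q ^ 2 * (κ + 1) ^ 2) := by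
    calc μ ^ 2 ≤ (3 * (q * (κ + 1))) ^ 2 := Nat.pow_le_pow_left hμ 2
      _ = _ := by ring
  have h3 : 2500 * q ^ 2 ≤ X ^ 2 := by
    calc 2500 * q ^ 2 = (50 * q) ^ 2 := by ring
      _ ≤ X ^ 2 := Nat.pow_le_pow_left hq 2
  have h4 : (κ + 1) ^ 2 ≤ 2 * (κ * (κ + 1)) := by
    calc (κ + 1) ^ 2 = (κ + 1) * (κ + 1) := by ring
      _ ≤ (2 * κ) * (κ + 1) := Nat.mul_le_mul_right _ (by omega)
      _ = _ := by ring
  have h5 : X ^ 2 * (2500 * (X * V)) ≤ X ^ 2 * (18 * (κ * (κ + 1))) := by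
    calc X ^ 2 * (2500 * (X * V)) = 2500 * (X ^ 3 * V) := by ring
      _ ≤ 2500 * (9 * (q ^ 2 * (κ + 1) ^ 2)) := Nat.mul_le_mul_left _ (le_trans h1 h2)
      _ = 2500 * q ^ 2 * (9 * (κ + 1) ^ 2) := by ring
      _ ≤ X ^ 2 * (9 * (2 * (κ * (κ + 1)))) :=
          Nat.mul_le_mul h3 (Nat.mul_le_mul_left _ h4)
      _ = _ := by ring
  have h6 : 2500 * (X * V) ≤ 18 * (κ * (κ + 1)) :=
    Nat.le_of_mul_le_mul_left h5 (Nat.pow_pos (by omega))
  have h7 : V ≤ X * V := Nat.le_mul_of_pos_left _ (by omega)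
  have h8 : κ * (κ + 1) ≤ X * (κ * (κ + 1)) := Nat.le_mul_of_pos_left _ (by omega)
  omega

private theorem qp_big {X κ x l' V : ℕ} (hκ : 1 ≤ κ) (hc : l' + X * (κ + 1) ≤ x * (κ + 1))
    (hV : V ≤ X * (κ * (κ + 1))) : l' + V ≤ x * (κ * (κ + 1)) := by
  calc l' + V ≤ κ * l' + X * (κ * (κ + 1)) :=
        Nat.add_le_add (Nat.le_mul_of_pos_left _ hκ) hV
    _ = κ * (l' + X * (κ + 1)) := by ring
    _ ≤ κ * (x * (κ + 1)) := Nat.mul_le_mul_left _ hc
    _ = _ := by ring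

/-- The list of the numbers of pairs of the children. -/
private def qpw (q j : ℕ) : List ℕ :=
  List.replicate (j % (q + 1)) (j / (q + 1) + 1) ++
    List.replicate (q + 1 - j % (q + 1)) (j / (q + 1))

private theorem qpw_len (q j : ℕ) : (qpw q j).length = q + 1 := by
  have h : j % (q + 1) < q + 1 := Nat.mod_lt _ (Nat.succ_pos q)
  unfold qpw
  rw [List.length_append, List.length_replicate, List.length_replicate]
  omega

private theorem qpw_sum (q j : ℕ) : (qpw q j).sum = j := by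
  have h : j % (q + 1) < q + 1 := Nat.mod_lt _ (Nat.succ_pos q)
  have h2 := Nat.div_add_mod j (q + 1)
  unfold qpw
  rw [List.sum_append, List.sum_replicate, List.sum_replicate, smul_eq_mul, smul_eq_mul]
  obtain ⟨c, hc⟩ : ∃ c, q + 1 = j % (q + 1) + c := ⟨q + 1 - j % (q + 1), by omega⟩
  have hc2 : q + 1 - j % (q + 1) = c := by omega
  rw [hc2]
  generalize j / (q + 1) = y at h2 ⊢
  generalize j % (q + 1) = z at *
  have h3 : (q + 1) * y = z * y + c * y := by rw [hc]; ring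
  rw [h3] at h2
  have h4 : z * (y + 1) = z * y + z := by ring
  rw [h4]
  omega

private theorem qpw_mem {q j x : ℕ} (hx : x ∈ qpw q j) :
    x = j / (q + 1) ∨ x = j / (q + 1) + 1 := by
  unfold qpw at hx
  rcases List.mem_append.1 hx with h | h
  · exact Or.inr (List.eq_of_mem_replicate h)
  · exact Or.inl (List.eq_of_mem_replicate h)

theorem tQP (h1 : S_MonQ.{u}) (h2 : S_CritQ.{u}) (h3 : S_CutQ.{u}) (h4 : S_QPNum) :
    S_QP.{u} := by
  intro F _ _ X q μ j l V hX hq2 hqX hQT hl hl8 hV hkid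
  have hj : 1 ≤ j := qp_j hX hQT hl
  have hX3 : 1 ≤ X ^ 3 := Nat.one_le_pow _ _ (by omega)
  have hl1 : 1 ≤ l := le_trans (Nat.mul_le_mul hX3 (Nat.succ_le_succ (Nat.zero_le μ))) hl
  have hμ : 1 ≤ μ := by
    by_contra hcon
    have h0 : μ = 0 := by omega
    rw [h0] at hl8
    omega
  apply h2 F μ j l _ hμ hj hl1
  intro t ht hπ
  have hπ2 : |(t : ℤ) * l - j * (μ * (μ + 1))| * X ^ 2 ≤ μ ^ 2 := by
    have a1 : (q + 1) * (V + l) + l ≤ X * (V + l) := by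
      calc (q + 1) * (V + l) + l ≤ (q + 1) * (V + l) + (V + l) :=
            Nat.add_le_add_left (Nat.le_add_left _ _) _
        _ = (q + 2) * (V + l) := by ring
        _ ≤ X * (V + l) := Nat.mul_le_mul_right _ (by omega)
    have a2 : (((q + 1) * (V + l) + l : ℕ) : ℤ) ≤ ((X * (V + l) : ℕ) : ℤ) := by
      exact_mod_cast a1
    have a3 : (((X ^ 3 * (V + l) : ℕ)) : ℤ) ≤ ((μ ^ 2 : ℕ) : ℤ) := by exact_mod_cast hV
    push_cast at a2 a3
    have a4 : |(t : ℤ) * l - j * (μ * (μ + 1))| ≤ X * (V + l) := by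
      have h5 : |(t : ℤ) * l - j * (μ * (μ + 1))| < ((q + 1) * (V + l) : ℕ) + l := by
        exact_mod_cast hπ
      push_cast at h5
      linarith
    calc |(t : ℤ) * l - j * (μ * (μ + 1))| * X ^ 2 ≤ (X * (V + l)) * X ^ 2 :=
          mul_le_mul_of_nonneg_right a4 (by positivity)
      _ = X ^ 3 * (V + l) := by ring
      _ ≤ μ ^ 2 := a3
  obtain ⟨κ, l', e1, e2, e3, e4, e5, e6, e7, e8, e9⟩ := h4 X q μ j l t hX hq2 hqX hQT hl hl8 hπ2
  have hVκ := qp_V hX hqX e3 hV e7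
  have hcut := h3 F (qpw q j) t l' κ V (by
      intro h0
      have := qpw_len q j
      rw [h0] at this
      simp at this) ht e5 e3 (by
      intro x hx
      obtain ⟨f1, f2, f3⟩ := e9 x (qpw_mem hx)
      refine ⟨?_, qp_big e3 f1.1 hVκ, hkid κ x l' e5 f1 f2 f3 e7 e8⟩
      by_contra hcon
      have h0 : x = 0 := by omega
      have f4 := f1.1
      rw [h0, zero_mul] at f4
      omega)
  rw [qpw_sum, qpw_len] at hcut
  refine (h1 F t l j μ _).2.2 κ l' e1 hl1 e5 e2 ?_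
  exact (h1 F t l' j κ _).1 _ (Nat.mul_le_mul_left _ (Nat.add_le_add_left e6 _)) hcut

end ShghPE
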