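import Pool.Agent.ShghPE.Spec

/-!
# ShghPE: the numbers of a q-piece
-/

namespace ShghPE

open MvPolynomial ShghJ ShghC ShghK ShghPS

/-- Real numbers: `J = j`, `Q = q`, `M = μ`, `b = l / (μ + 1)`, `k = t - μ`, `P` the expected
dimension. -/
private theorem QPNum_k {X Q M J b k P : ℝ} (hX : 1000 ≤ X) (hQ : 2 ≤ Q) (hQX : 50 * Q ≤ X)
    (h1 : J * Q + 2 * X * (Q + 1) ≤ (Q + 1) * b) (h2 : (Q + 1) * b < (J + 1) * Q + 2 * X * (Q + 1))
    (h3 : X ^ 3 ≤ b) (h4 : 8 * b ≤ M) (hP : |P| * X ^ 2 ≤ M ^ 2)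
    (hk : b * (M + 1) * k = M * (M + 1) * (J - b) + P) :
    M ≤ 21 / 10 * (Q * k) ∧ Q * k ≤ 21 / 20 * M ∧ b ≤ J ∧ Q * (J - b) ≤ b := by
  have hX2 : 1000000 ≤ X ^ 2 := by nlinarith
  have hX3 : 1000 * X ^ 2 ≤ X ^ 3 := by nlinarith
  have hb : 0 < b := by nlinarith
  have hM : 0 < M := by linarith
  -- the difference `J - b`
  have d1 : Q * (J - b) ≤ b := by nlinarith
  have hsm : 2 * (Q + 2 * X * (Q + 1)) ≤ b := by
    have e1 : X * Q ≤ X ^ 2 / 50 := by nlinarith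
    nlinarith
  have d2 : b ≤ 2 * (Q * (J - b)) := by nlinarith
  have hJb : b ≤ J := by
    by_contra hc
    have : J - b < 0 := by linarith [not_le.1 hc]
    nlinarith
  -- the error `P / (M + 1)`
  have hP1 : |P| ≤ M ^ 2 / X ^ 2 := by
    rw [le_div_iff₀ (by positivity)]
    exact hP
  have hP2 : |P| * Q ≤ (M * (M + 1)) * (b / 100) := by
    have e1 : |P| * Q ≤ M ^ 2 / X ^ 2 * Q := mul_le_mul_of_nonneg_right hP1 (by linarith)
    have e2 : M ^ 2 / X ^ 2 * Q ≤ M ^ 2 := by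
      rw [div_mul_eq_mul_div, div_le_iff₀ (by positivity)]
      have : Q ≤ X ^ 2 := by nlinarith
      exact mul_le_mul_of_nonneg_left this (sq_nonneg M)
    have e3 : M ^ 2 ≤ M * (M + 1) := by nlinarith
    have e4 : (1 : ℝ) ≤ b / 100 := by nlinarith
    have e5 : M * (M + 1) * 1 ≤ M * (M + 1) * (b / 100) :=
      mul_le_mul_of_nonneg_left e4 (by positivity)
    linarith
  have hPa := abs_le.1 (le_refl |P|)
  have hbM : 0 < b * (M + 1) := by positivity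
  have hMM : 0 < M * (M + 1) := by positivity
  refine ⟨?_, ?_, hJb, d1⟩
  · -- `M ≤ 2.1 Q k`
    have e1 : b * (M + 1) * M ≤ b * (M + 1) * (21 / 10 * (Q * k)) := by
      have e2 : b * (M + 1) * (21 / 10 * (Q * k)) = 21 / 10 * (Q * (b * (M + 1) * k)) := by ring
      rw [e2, hk]
      have e3 : 21 / 10 * (Q * (M * (M + 1) * (J - b) + P)) =
          21 / 20 * ((M * (M + 1)) * (2 * (Q * (J - b)))) + 21 / 10 * (P * Q) := by ring
      rw [e3]
      have e4 : (M * (M + 1)) * b ≤ (M * (M + 1)) * (2 * (Q * (J - b))) :=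
        mul_le_mul_of_nonneg_left d2 hMM.le
      have e5 : -(|P| * Q) ≤ P * Q := by
        have : -|P| * Q ≤ P * Q := mul_le_mul_of_nonneg_right hPa.1 (by linarith)
        linarith
      have e6 : b * (M + 1) * M = (M * (M + 1)) * b := by ring
      rw [e6]
      have e7 : (M * (M + 1)) * (b / 100) = (M * (M + 1)) * b / 100 := by ring
      rw [e7] at hP2
      have e8 : 0 ≤ (M * (M + 1)) * b := by positivity
      generalize (M * (M + 1)) * b = y at e4 hP2 e8 ⊢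
      linarith
    exact le_of_mul_le_mul_left e1 hbM
  · have e1 : b * (M + 1) * (Q * k) ≤ b * (M + 1) * (21 / 20 * M) := by
      have e2 : b * (M + 1) * (Q * k) = Q * (b * (M + 1) * k) := by ring
      rw [e2, hk]
      have e3 : Q * (M * (M + 1) * (J - b) + P) =
          (M * (M + 1)) * (Q * (J - b)) + P * Q := by ring
      rw [e3]
      have e4 : (M * (M + 1)) * (Q * (J - b)) ≤ (M * (M + 1)) * b :=
        mul_le_mul_of_nonneg_left d1 hMM.le
      have e5 : P * Q ≤ |P| * Q := mul_le_mul_of_nonneg_right hPa.2 (by linarith)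
      have e6 : b * (M + 1) * (21 / 20 * M) = 21 / 20 * ((M * (M + 1)) * b) := by ring
      rw [e6]
      have e7 : (M * (M + 1)) * (b / 100) = (M * (M + 1)) * b / 100 := by ring
      rw [e7] at hP2
      have e8 : 0 ≤ (M * (M + 1)) * b := by positivity
      generalize (M * (M + 1)) * b = y at e4 hP2 e8 ⊢
      linarith
    exact le_of_mul_le_mul_left e1 hbM

/-- The position of the children. -/
private theorem QPNum_x {X Q M J b k P x : ℝ} (hX : 1000 ≤ X) (hQ : 2 ≤ Q) (hQX : 50 * Q ≤ X)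
    (h1 : J * Q + 2 * X * (Q + 1) ≤ (Q + 1) * b) (h2 : (Q + 1) * b < (J + 1) * Q + 2 * X * (Q + 1))
    (h3 : X ^ 3 ≤ b) (h4 : 8 * b ≤ M) (hP : |P| * X ^ 2 ≤ M ^ 2)
    (hk : b * (M + 1) * k = M * (M + 1) * (J - b) + P) (hMk : M ≤ 21 / 10 * (Q * k))
    (hx1 : J < x * (Q + 1) + (Q + 1)) (hx2 : x * (Q + 1) ≤ J + (Q + 1)) :
    X * k ≤ (M + 1) * (J - b) - (J - x) * k ∧
      (M + 1) * (J - b) - (J - x) * k ≤ 4 * X * k ∧ b ≤ 2 * (Q * x) := by
  have hX2 : 1000000 ≤ X ^ 2 := by nlinarith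
  have hX3 : 1000 * X ^ 2 ≤ X ^ 3 := by nlinarith
  have hb : 0 < b := by nlinarith
  have hM : 0 < M := by linarith
  have hQ1 : 0 < Q + 1 := by linarith
  have hk0 : 0 < k := by
    by_contra hc
    have : k ≤ 0 := not_lt.1 hc
    have : Q * k ≤ 0 := mul_nonpos_of_nonneg_of_nonpos (by linarith) this
    linarith
  -- `J - x`
  have j1 : J - x ≤ b - 2 * X + 1 := by
    have e1 : (Q + 1) * (J - x) ≤ (Q + 1) * (b - 2 * X + 1) := by nlinarith
    exact le_of_mul_le_mul_left e1 hQ1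
  have j2 : b - 2 * X - 2 ≤ J - x := by
    have e1 : (Q + 1) * (b - 2 * X - 2) ≤ (Q + 1) * (J - x) := by nlinarith
    exact le_of_mul_le_mul_left e1 hQ1
  -- `G = (M + 1) (J - b)`
  have hPM : |P| ≤ M * (k / 4) := by
    have e1 : |P| * X ^ 2 ≤ M * (k / 4) * X ^ 2 := by
      have e2 : M ^ 2 ≤ M * (21 / 10 * (Q * k)) := by
        rw [pow_two]
        exact mul_le_mul_of_nonneg_left hMk hM.le
      have e3 : 21 / 10 * (Q * k) ≤ k / 4 * X ^ 2 := by
        have e4 : 21 / 10 * Q ≤ X ^ 2 / 4 := by nlinarith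
        have e5 := mul_le_mul_of_nonneg_right e4 hk0.le
        linarith
      have e6 := mul_le_mul_of_nonneg_left e3 hM.le
      have e7 : M * (k / 4 * X ^ 2) = M * (k / 4) * X ^ 2 := by ring
      rw [e7] at e6
      linarith
    exact le_of_mul_le_mul_right e1 (by positivity)
  have hPa := abs_le.1 hPM
  have hG : M * ((M + 1) * (J - b)) = M * (b * k) + b * k - P := by linarith
  have hbk : b * k ≤ M * (k / 8) := by
    have := mul_le_mul_of_nonneg_right h4 hk0.le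
    linarith
  have hbk0 : 0 ≤ b * k := by positivity
  have g1 : b * k - k / 4 ≤ (M + 1) * (J - b) := by
    have e1 : M * (b * k - k / 4) ≤ M * ((M + 1) * (J - b)) := by
      rw [hG]
      have e2 : M * (b * k - k / 4) = M * (b * k) - M * (k / 4) := by ring
      rw [e2]
      linarith
    exact le_of_mul_le_mul_left e1 hM
  have g2 : (M + 1) * (J - b) ≤ b * k + k / 2 := by
    have e1 : M * ((M + 1) * (J - b)) ≤ M * (b * k + k / 2) := by
      rw [hG]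
      have e2 : M * (b * k + k / 2) = M * (b * k) + M * (k / 8) + M * (k / 4) + M * (k / 8) := by
        ring
      rw [e2]
      have e3 : 0 ≤ M * (k / 8) := by positivity
      linarith
    exact le_of_mul_le_mul_left e1 hM
  have i1 := mul_le_mul_of_nonneg_right j1 hk0.le
  have i2 := mul_le_mul_of_nonneg_right j2 hk0.le
  have hXk : 1000 * k ≤ X * k := mul_le_mul_of_nonneg_right hX hk0.le
  refine ⟨?_, ?_, ?_⟩
  · have e1 : (b - 2 * X + 1) * k = b * k - 2 * (X * k) + k := by ring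
    rw [e1] at i1
    generalize (M + 1) * (J - b) = G at g1 ⊢
    generalize (J - x) * k = H at i1 ⊢
    generalize X * k = Y at i1 hXk ⊢
    generalize b * k = Z at g1 i1
    linarith
  · have e1 : (b - 2 * X - 2) * k = b * k - 2 * (X * k) - 2 * k := by ring
    have e2 : 4 * X * k = 4 * (X * k) := by ring
    rw [e1] at i2
    rw [e2]
    generalize (M + 1) * (J - b) = G at g2 ⊢
    generalize (J - x) * k = H at i2 ⊢
    generalize X * k = Y at i2 hXk ⊢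
    generalize b * k = Z at g2 i2
    linarith
  · -- `(Q + 1) x > J - (Q + 1)`, `Q J > (Q + 1) (b - 2 X) - Q`
    have e1 : (Q + 1) * b ≤ (Q + 1) * (2 * (Q * x)) := by
      have e2 : Q * J ≤ Q * (x * (Q + 1) + (Q + 1)) := mul_le_mul_of_nonneg_left hx1.le (by linarith)
      have e3 : (Q + 1) * (2 * (Q * x)) = 2 * (Q * (x * (Q + 1))) := by ring
      rw [e3]
      have e4 : 2 * (Q * J) - 2 * (Q * (Q + 1)) ≤ 2 * (Q * (x * (Q + 1))) := by linarith
      have e5 : (Q + 1) * b - Q - 2 * X * (Q + 1) ≤ Q * J := by linarith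
      have e6 : (Q + 1) * (4 * X + 4 * Q) ≤ (Q + 1) * b := by
        refine mul_le_mul_of_nonneg_left ?_ hQ1.le
        nlinarith
      have e7 : (Q + 1) * (4 * X + 4 * Q) = 4 * X * (Q + 1) + 4 * (Q * (Q + 1)) := by ring
      rw [e7] at e6
      have e8 : Q ≤ Q * (Q + 1) := by nlinarith
      generalize (Q + 1) * b = y at e5 e6 ⊢
      linarith
    exact le_of_mul_le_mul_left e1 hQ1

/-- `t - μ ≥ 2`. -/
private theorem QPNum_two {X Q M b k : ℝ} (hX : 1000 ≤ X) (hQ : 2 ≤ Q) (hQX : 50 * Q ≤ X)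
    (h3 : X ^ 3 ≤ b) (h4 : 8 * b ≤ M) (hMk : M ≤ 21 / 10 * (Q * k)) :
    23 * M ≤ X * k ∧ 2 ≤ k ∧ 1 ≤ b ∧ 0 < M := by
  have hX2 : 1000000 ≤ X ^ 2 := by nlinarith
  have hX3 : 1000 * X ^ 2 ≤ X ^ 3 := by nlinarith
  have hXX : X ≤ X ^ 2 := by nlinarith
  have hb : 1 ≤ b := by linarith
  have hM : 0 < M := by linarith
  have hk0 : 0 ≤ k := by
    by_contra hc
    have : Q * k ≤ 0 := mul_nonpos_of_nonneg_of_nonpos (by linarith) (not_le.1 hc).le
    linarith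
  have e1 : 50 * Q * k ≤ X * k := mul_le_mul_of_nonneg_right hQX hk0
  have e2 : 50 * Q * k = 50 * (Q * k) := by ring
  have h23 : 23 * M ≤ X * k := by linarith
  refine ⟨h23, ?_, hb, hM⟩
  by_contra hc
  have e3 : X * k ≤ X * 2 := mul_le_mul_of_nonneg_left (not_le.1 hc).le (by linarith)
  linarith

/-- `l' ≥ 1`. -/
private theorem QPNum_pos {X M J κ P : ℝ} (hX : 1000 ≤ X) (hM : 0 < M) (hJ : 1 ≤ J) (hκ : 1 ≤ κ)
    (h23 : 23 * M ≤ X * (κ + 1)) (hP : |P| * X ^ 2 ≤ M ^ 2) : 0 < J * (κ * (κ + 1)) + P := by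
  have hX2 : 0 < X ^ 2 := by positivity
  have e1 : 529 * M ^ 2 ≤ (κ + 1) ^ 2 * X ^ 2 := by
    have e2 : (23 * M) ^ 2 ≤ (X * (κ + 1)) ^ 2 := pow_le_pow_left₀ (by positivity) h23 2
    have e3 : (23 * M) ^ 2 = 529 * M ^ 2 := by ring
    have e4 : (X * (κ + 1)) ^ 2 = (κ + 1) ^ 2 * X ^ 2 := by ring
    rwa [e3, e4] at e2
  have e3 : (κ + 1) ^ 2 ≤ 2 * (κ * (κ + 1)) := by
    have : (κ + 1) * (κ + 1) ≤ (2 * κ) * (κ + 1) :=
      mul_le_mul_of_nonneg_right (by linarith) (by linarith)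
    have e4 : (κ + 1) ^ 2 = (κ + 1) * (κ + 1) := by ring
    rw [e4]
    linarith
  have e5 : 0 ≤ κ * (κ + 1) := by positivity
  have e4 : κ * (κ + 1) ≤ J * (κ * (κ + 1)) := by
    have := mul_le_mul_of_nonneg_right hJ e5
    linarith
  have e6 : |P| * X ^ 2 < (J * (κ * (κ + 1))) * X ^ 2 := by
    have e7 := mul_le_mul_of_nonneg_right e3 hX2.le
    have e8 := mul_le_mul_of_nonneg_right e4 hX2.le
    have e9 : 0 < M ^ 2 := by positivity
    have e10 : 2 * (κ * (κ + 1)) * X ^ 2 = 2 * (κ * (κ + 1) * X ^ 2) := by ring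
    linarith
  have e9 : |P| < J * (κ * (κ + 1)) := lt_of_mul_lt_mul_right e6 hX2.le
  have e10 := neg_abs_le P
  linarith

theorem tQPNum : S_QPNum := by
  intro X q μ j l t hX hq hqX hQT hl3 hl8 hπ
  obtain ⟨a1, a2⟩ := hQT
  -- real numbers
  have rX : (1000 : ℝ) ≤ (X : ℝ) := by exact_mod_cast hX
  have rq : (2 : ℝ) ≤ (q : ℝ) := by exact_mod_cast hq
  have rqX : 50 * (q : ℝ) ≤ (X : ℝ) := by exact_mod_cast hqX
  have hμ0 : (0 : ℝ) ≤ (μ : ℝ) := Nat.cast_nonneg μ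
  have hN : (0 : ℝ) < (μ : ℝ) + 1 := by linarith
  obtain ⟨b, hb⟩ : ∃ b : ℝ, (l : ℝ) = b * ((μ : ℝ) + 1) := ⟨(l : ℝ) / ((μ : ℝ) + 1), by field_simp⟩
  have r1 : (j : ℝ) * q + 2 * X * (q + 1) ≤ (q + 1) * b := by
    have e1 : ((j * (q * (μ + 1)) + (q + 1) * (2 * X * (μ + 1)) : ℕ) : ℝ) ≤
        (((q + 1) * l : ℕ) : ℝ) := by exact_mod_cast a1
    push_cast at e1
    rw [hb] at e1
    have e2 : ((j : ℝ) * q + 2 * X * (q + 1)) * ((μ : ℝ) + 1) ≤
        ((q + 1) * b) * ((μ : ℝ) + 1) := by linarith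
    exact le_of_mul_le_mul_right e2 hN
  have r2 : ((q : ℝ) + 1) * b < ((j : ℝ) + 1) * q + 2 * X * (q + 1) := by
    have e1 : (((q + 1) * l : ℕ) : ℝ) <
        (((j + 1) * (q * (μ + 1)) + (q + 1) * (2 * X * (μ + 1)) : ℕ) : ℝ) := by exact_mod_cast a2
    push_cast at e1
    rw [hb] at e1
    have e2 : ((q + 1) * b) * ((μ : ℝ) + 1) <
        (((j : ℝ) + 1) * q + 2 * X * (q + 1)) * ((μ : ℝ) + 1) := by linarith
    exact lt_of_mul_lt_mul_right e2 hN.le
  have r3 : (X : ℝ) ^ 3 ≤ b := by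
    have e1 : ((X ^ 3 * (μ + 1) : ℕ) : ℝ) ≤ (l : ℝ) := by exact_mod_cast hl3
    push_cast at e1
    rw [hb] at e1
    exact le_of_mul_le_mul_right e1 hN
  have r4 : 8 * b ≤ (μ : ℝ) := by
    have e1 : ((8 * l : ℕ) : ℝ) ≤ ((μ * (μ + 1) : ℕ) : ℝ) := by exact_mod_cast hl8
    push_cast at e1
    rw [hb] at e1
    have e2 : (8 * b) * ((μ : ℝ) + 1) ≤ (μ : ℝ) * ((μ : ℝ) + 1) := by linarith
    exact le_of_mul_le_mul_right e2 hN
  obtain ⟨P, hPd⟩ : ∃ P : ℝ, P = (t : ℝ) * l - j * (μ * (μ + 1)) := ⟨_, rfl⟩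
  have r5 : |P| * (X : ℝ) ^ 2 ≤ (μ : ℝ) ^ 2 := by
    have e1 : ((|(t : ℤ) * l - j * (μ * (μ + 1))| * X ^ 2 : ℤ) : ℝ) ≤ (((μ : ℤ) ^ 2 : ℤ) : ℝ) := by
      exact_mod_cast hπ
    push_cast at e1
    rw [hPd]
    exact e1
  have rk : b * ((μ : ℝ) + 1) * ((t : ℝ) - μ) =
      (μ : ℝ) * ((μ : ℝ) + 1) * ((j : ℝ) - b) + P := by
    rw [hPd, hb]
    ring
  obtain ⟨k1, k2, k3, k4⟩ := QPNum_k rX rq rqX r1 r2 r3 r4 r5 rk
  obtain ⟨hXk, hk2, hb1, hM0⟩ := QPNum_two rX rq rqX r3 r4 k1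
  have ht : μ + 2 ≤ t := by
    have : ((μ + 2 : ℕ) : ℝ) ≤ (t : ℝ) := by push_cast; linarith
    exact_mod_cast this
  obtain ⟨κ, hκ⟩ : ∃ κ, t = μ + κ + 1 := ⟨t - μ - 1, by omega⟩
  have rκ : (t : ℝ) - μ = (κ : ℝ) + 1 := by
    rw [hκ]
    push_cast
    ring
  rw [rκ] at k1 k2 rk hXk hk2
  have hκ1 : 1 ≤ κ := by omega
  have hκμ : κ ≤ μ := by
    have e2 : 2 * ((κ : ℝ) + 1) ≤ (q : ℝ) * ((κ : ℝ) + 1) :=
      mul_le_mul_of_nonneg_right rq (by positivity)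
    have e1 : (κ : ℝ) ≤ (μ : ℝ) := by linarith
    exact_mod_cast e1
  have rκ1 : (1 : ℝ) ≤ (κ : ℝ) := by exact_mod_cast hκ1
  -- the number `l'`
  have hjκ : (t : ℤ) * ((l : ℤ) + j * κ - j * μ) =
      j * (κ * (κ + 1)) + ((t : ℤ) * l - j * (μ * (μ + 1))) := by
    rw [hκ]
    push_cast
    ring
  have hpos : (0 : ℤ) < (t : ℤ) * ((l : ℤ) + j * κ - j * μ) := by
    rw [hjκ]
    have e0 : (0 : ℝ) < (j : ℝ) * (κ * (κ + 1)) + P :=
      QPNum_pos rX hM0 (hb1.trans k3) rκ1 hXk r5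
    rw [hPd] at e0
    exact_mod_cast e0
  have hl'pos : (0 : ℤ) < (l : ℤ) + j * κ - j * μ := by
    have ht0 : (0 : ℤ) ≤ (t : ℤ) := Int.natCast_nonneg t
    by_contra hc
    exact absurd hpos (not_lt.2 (mul_nonpos_of_nonneg_of_nonpos ht0 (not_lt.1 hc)))
  obtain ⟨l', hl'⟩ : ∃ l' : ℕ, (l' : ℤ) = (l : ℤ) + j * κ - j * μ :=
    ⟨((l : ℤ) + j * κ - j * μ).toNat, Int.toNat_of_nonneg hl'pos.le⟩
  have hl'1 : 1 ≤ l' := by
    rw [← hl'] at hl'pos
    exact_mod_cast hl'pos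
  have hl'e : l' + j * μ = l + j * κ := by
    have : ((l' + j * μ : ℕ) : ℤ) = ((l + j * κ : ℕ) : ℤ) := by
      push_cast
      rw [hl']
      ring
    exact_mod_cast this
  have hl'l : l' ≤ l := by
    have h0 : j * κ ≤ j * μ := Nat.mul_le_mul_left _ hκμ
    generalize j * κ = y at h0 hl'e
    generalize j * μ = z at h0 hl'e
    omega
  refine ⟨κ, l', hκ, hl'e, hκ1, hκμ, hl'1, hl'l, ?_, ?_, ?_⟩
  · have e1 : (μ : ℝ) ≤ 3 * ((q : ℝ) * (κ + 1)) := by
      have : 0 ≤ (q : ℝ) * (κ + 1) := by positivity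
      linarith
    exact_mod_cast e1
  · have e1 : (q : ℝ) * (κ + 1) ≤ 2 * (μ : ℝ) := by linarith
    exact_mod_cast e1
  · intro x hx
    -- `x` as a real number
    have hdm := Nat.div_add_mod j (q + 1)
    have hml : j % (q + 1) < q + 1 := Nat.mod_lt j (Nat.succ_pos q)
    have hx1 : j < x * (q + 1) + (q + 1) := by
      have e1 : j < (q + 1) * (j / (q + 1)) + (q + 1) := by omega
      have e2 : (q + 1) * (j / (q + 1)) ≤ (q + 1) * x := by
        refine Nat.mul_le_mul_left _ ?_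
        rcases hx with h | h <;> omega
      have e3 : (q + 1) * x = x * (q + 1) := by ring
      omega
    have hx2 : x * (q + 1) ≤ j + (q + 1) := by
      have e2 : x * (q + 1) ≤ (j / (q + 1) + 1) * (q + 1) := by
        refine Nat.mul_le_mul_right _ ?_
        rcases hx with h | h <;> omega
      have e3 : (j / (q + 1) + 1) * (q + 1) = (q + 1) * (j / (q + 1)) + (q + 1) := by ring
      omega
    have rx1 : (j : ℝ) < (x : ℝ) * (q + 1) + (q + 1) := by exact_mod_cast hx1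
    have rx2 : (x : ℝ) * (q + 1) ≤ (j : ℝ) + (q + 1) := by exact_mod_cast hx2
    obtain ⟨y1, y2, y3⟩ := QPNum_x rX rq rqX r1 r2 r3 r4 r5 rk k1 rx1 rx2
    have rl' : (l' : ℝ) = (l : ℝ) + j * κ - j * μ := by
      have : ((l' : ℤ) : ℝ) = (((l : ℤ) + j * κ - j * μ : ℤ) : ℝ) := by rw [hl']
      push_cast at this
      exact this
    have hG : (x : ℝ) * ((κ : ℝ) + 1) - l' =
        ((μ : ℝ) + 1) * ((j : ℝ) - b) - ((j : ℝ) - x) * ((κ : ℝ) + 1) := by
      rw [rl', hb]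
      ring
    rw [← hG] at y1 y2
    refine ⟨⟨?_, ?_⟩, ?_, ?_⟩
    · have e1 : (l' : ℝ) + X * (κ + 1) ≤ (x : ℝ) * (κ + 1) := by linarith
      exact_mod_cast e1
    · have e1 : (x : ℝ) * (κ + 1) ≤ (l' : ℝ) + 4 * X * (κ + 1) := by linarith
      exact_mod_cast e1
    · have e1 : (l : ℝ) ≤ 2 * ((q : ℝ) * (x * (μ + 1))) := by
        rw [hb]
        have e2 := mul_le_mul_of_nonneg_right y3 hN.le
        linarith
      exact_mod_cast e1
    · have hj2 : 2 ≤ j := by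
        have : (2 : ℝ) ≤ (j : ℝ) := by
          have e3 : (1000 : ℝ) ^ 3 ≤ (X : ℝ) ^ 3 := pow_le_pow_left₀ (by norm_num) rX 3
          have e4 : (2 : ℝ) ≤ (1000 : ℝ) ^ 3 := by norm_num
          linarith
        exact_mod_cast this
      have e1 : x * 2 ≤ j + 2 := by
        have e2 : x * (q + 1) ≤ j + (q + 1) := hx2
        by_contra hc
        have hc' : j + 3 ≤ x * 2 := by omega
        have hx3 : 2 ≤ x := by omega
        -- `(x - 1) (q + 1) ≤ j`
        obtain ⟨y, rfl⟩ : ∃ y, x = y + 1 := ⟨x - 1, by omega⟩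
        have e3 : y * (q + 1) ≤ j := by
          have : (y + 1) * (q + 1) = y * (q + 1) + (q + 1) := by ring
          omega
        have e4 : y * 3 ≤ y * (q + 1) := Nat.mul_le_mul_left _ (by omega)
        omega
      omega

end ShghPE
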