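import Pool.Agent.ShghPE.Spec

/-!
# ShghPE, WinNum: windows
-/

namespace ShghPE

open MvPolynomial ShghJ ShghC ShghK ShghPS

universe u

theorem tWinNum : S_WinNum := by
  intro X r μ j l hX hj hμ hl
  have hX0 : 0 < X := by omega
  have hj9 : X ^ 9 ≤ j := le_trans (Nat.pow_le_pow_right hX0 (by omega)) hj
  have hj0 : 0 < j := lt_of_lt_of_le (Nat.pow_pos hX0) hj9
  have hj3 : X ^ 3 ≤ j := le_trans (Nat.pow_le_pow_right hX0 (by norm_num)) hj9
  have hj5 : X ^ 5 ≤ j := le_trans (Nat.pow_le_pow_right hX0 (by norm_num)) hj9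
  have hD0 : 0 < j ^ (2 * r + 4) := Nat.pow_pos hj0
  have hj1 : j ≤ j ^ 3 := Nat.le_self_pow (by norm_num) j
  have hj2 : j ^ 2 ≤ j ^ 3 := Nat.pow_le_pow_right hj0 (by norm_num)
  have hμ1 : 8 * j ≤ μ := by omega
  have hμ2 : 8 * j ^ 2 ≤ μ := by omega
  have hμ0 : 0 < μ := by omega
  -- the first quotient
  obtain ⟨P, hP⟩ : ∃ P, P = X ^ ((2 * (r + 1) + 5) * (r + 1 + 1)) * μ ^ 2 / j ^ (2 * (r + 1) + 2) :=
    ⟨_, rfl⟩
  have hD : j ^ (2 * (r + 1) + 2) = j ^ (2 * r + 4) := by ring_nf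
  have he1 : X ^ ((2 * (r + 1) + 5) * (r + 1 + 1)) = X ^ (2 * r ^ 2 + 11 * r + 14) := by ring_nf
  rw [hD, he1] at hP
  have hPD : P * j ^ (2 * r + 4) ≤ X ^ (2 * r ^ 2 + 11 * r + 14) * μ ^ 2 := by
    rw [hP]
    exact Nat.div_mul_le_self _ _
  have hPD' : X ^ (2 * r ^ 2 + 11 * r + 14) * μ ^ 2 < (P + 1) * j ^ (2 * r + 4) := by
    rw [hP]
    have := Nat.lt_div_mul_add (a := X ^ (2 * r ^ 2 + 11 * r + 14) * μ ^ 2) hD0
    rw [add_mul, one_mul]
    exact this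
  have hP13 : P * j * X ^ 13 ≤ μ ^ 2 := by
    have h1 : X ^ (2 * r ^ 2 + 11 * r + 14) * X ^ 13 ≤ j ^ (2 * r + 3) := by
      calc X ^ (2 * r ^ 2 + 11 * r + 14) * X ^ 13 = X ^ (2 * r ^ 2 + 11 * r + 27) := by
            rw [← pow_add]
        _ ≤ X ^ ((3 * r + 9) * (2 * r + 3)) := Nat.pow_le_pow_right hX0 (by nlinarith)
        _ = (X ^ (3 * r + 9)) ^ (2 * r + 3) := by rw [pow_mul]
        _ ≤ j ^ (2 * r + 3) := Nat.pow_le_pow_left hj _
    have h2 : X ^ (2 * r ^ 2 + 11 * r + 14) * (P * j * X ^ 13) ≤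
        X ^ (2 * r ^ 2 + 11 * r + 14) * μ ^ 2 := by
      calc X ^ (2 * r ^ 2 + 11 * r + 14) * (P * j * X ^ 13)
          = P * j * (X ^ (2 * r ^ 2 + 11 * r + 14) * X ^ 13) := by ring
        _ ≤ P * j * j ^ (2 * r + 3) := Nat.mul_le_mul_left _ h1
        _ = P * j ^ (2 * r + 4) := by ring
        _ ≤ _ := hPD
    exact Nat.le_of_mul_le_mul_left h2 (Nat.pow_pos hX0)
  -- the second quotient
  obtain ⟨V, hV⟩ : ∃ V, V = 25 * X ^ (2 * r ^ 2 + 11 * r + 11) * μ ^ 2 / j ^ (2 * r + 4) := ⟨_, rfl⟩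
  have hVD : V * j ^ (2 * r + 4) ≤ 25 * X ^ (2 * r ^ 2 + 11 * r + 11) * μ ^ 2 := by
    rw [hV]
    exact Nat.div_mul_le_self _ _
  have hV7 : V * j ^ 2 * X ^ 7 ≤ 25 * μ ^ 2 := by
    have h1 : X ^ (2 * r ^ 2 + 11 * r + 11) * X ^ 7 ≤ j ^ (2 * r + 2) := by
      calc X ^ (2 * r ^ 2 + 11 * r + 11) * X ^ 7 = X ^ (2 * r ^ 2 + 11 * r + 18) := by
            rw [← pow_add]
        _ ≤ X ^ ((3 * r + 9) * (2 * r + 2)) := Nat.pow_le_pow_right hX0 (by nlinarith)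
        _ = (X ^ (3 * r + 9)) ^ (2 * r + 2) := by rw [pow_mul]
        _ ≤ j ^ (2 * r + 2) := Nat.pow_le_pow_left hj _
    have h2 : X ^ (2 * r ^ 2 + 11 * r + 11) * (V * j ^ 2 * X ^ 7) ≤
        X ^ (2 * r ^ 2 + 11 * r + 11) * (25 * μ ^ 2) := by
      calc X ^ (2 * r ^ 2 + 11 * r + 11) * (V * j ^ 2 * X ^ 7)
          = V * j ^ 2 * (X ^ (2 * r ^ 2 + 11 * r + 11) * X ^ 7) := by ring
        _ ≤ V * j ^ 2 * j ^ (2 * r + 2) := Nat.mul_le_mul_left _ h1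
        _ = V * j ^ (2 * r + 4) := by ring
        _ ≤ 25 * X ^ (2 * r ^ 2 + 11 * r + 11) * μ ^ 2 := hVD
        _ = _ := by ring
    exact Nat.le_of_mul_le_mul_left h2 (Nat.pow_pos hX0)
  have hVP : X ^ 2 * V ≤ 5 * P + 5 := by
    have h1 : X ^ 2 * V * j ^ (2 * r + 4) < (5 * (P + 1)) * j ^ (2 * r + 4) := by
      calc X ^ 2 * V * j ^ (2 * r + 4) = X ^ 2 * (V * j ^ (2 * r + 4)) := by ring
        _ ≤ X ^ 2 * (25 * X ^ (2 * r ^ 2 + 11 * r + 11) * μ ^ 2) := Nat.mul_le_mul_left _ hVD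
        _ = 5 * (5 * (X ^ (2 * r ^ 2 + 11 * r + 13) * μ ^ 2)) := by ring
        _ ≤ 5 * (X * (X ^ (2 * r ^ 2 + 11 * r + 13) * μ ^ 2)) := by
            refine Nat.mul_le_mul_left _ (Nat.mul_le_mul_right _ ?_)
            omega
        _ = 5 * (X ^ (2 * r ^ 2 + 11 * r + 14) * μ ^ 2) := by ring
        _ < 5 * ((P + 1) * j ^ (2 * r + 4)) := by
            have := hPD'
            omega
        _ = _ := by ring
    have := Nat.lt_of_mul_lt_mul_right h1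
    omega
  have hWn : Wn (r + 1) X μ j = P + X ^ 2 * μ := by
    unfold Wn
    rw [hD, he1, hP]
  have hVn : Vn r X μ j = V + μ := by
    unfold Vn
    rw [hV]
  rw [hWn, hVn]
  refine ⟨?_, ?_⟩
  · have a1 : 8 * (P * (X ^ 3 * j)) ≤ μ ^ 2 := by
      calc 8 * (P * (X ^ 3 * j)) = 8 * (P * j * X ^ 3) := by ring
        _ ≤ X ^ 10 * (P * j * X ^ 3) := by
            refine Nat.mul_le_mul_right _ ?_
            exact le_trans (by omega : 8 ≤ X) (Nat.le_self_pow (by norm_num) X)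
        _ = P * j * X ^ 13 := by ring
        _ ≤ _ := hP13
    have a2 : 8 * (X ^ 2 * μ * (X ^ 3 * j)) ≤ μ ^ 2 := by
      calc 8 * (X ^ 2 * μ * (X ^ 3 * j)) = X ^ 5 * (8 * j * μ) := by ring
        _ ≤ j * (8 * j * μ) := Nat.mul_le_mul_right _ hj5
        _ = 8 * j ^ 2 * μ := by ring
        _ ≤ μ * μ := Nat.mul_le_mul_right _ hμ2
        _ = _ := by ring
    have a3 : 4 * (l * (X ^ 3 * j)) ≤ μ ^ 2 := by
      calc 4 * (l * (X ^ 3 * j)) ≤ 4 * (j * (μ + 1) * (j * j)) := by gcongr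
        _ ≤ 4 * (j * (2 * μ) * (j * j)) := by
            gcongr
            omega
        _ = 8 * j ^ 3 * μ := by ring
        _ ≤ μ * μ := Nat.mul_le_mul_right _ hμ
        _ = _ := by ring
    have a4 : (P + X ^ 2 * μ + l) * (X ^ 3 * j) =
        P * (X ^ 3 * j) + X ^ 2 * μ * (X ^ 3 * j) + l * (X ^ 3 * j) := by ring
    rw [a4]
    omega
  · intro t ν ht hν
    constructor
    · -- `μ ≤ j ν`
      have b1 : μ ≤ j * ν := by
        have h1 : 9 * (1000 * μ) ≤ 10 * (j * (ν + 1)) :=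
          le_trans (Nat.mul_le_mul_left _ (Nat.mul_le_mul_right _ hX)) hν
        have h2 : j * (ν + 1) = j * ν + j := by ring
        rw [h2] at h1
        omega
      have c1 : 8 * (X ^ 3 * V * j ^ 2) ≤ μ ^ 2 := by
        have h1 : 25 * (8 * (X ^ 3 * V * j ^ 2)) ≤ 25 * μ ^ 2 := by
          calc 25 * (8 * (X ^ 3 * V * j ^ 2)) = 200 * (V * j ^ 2 * X ^ 3) := by ring
            _ ≤ X ^ 4 * (V * j ^ 2 * X ^ 3) := by
              refine Nat.mul_le_mul_right _ ?_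
              exact le_trans (by omega : 200 ≤ X) (Nat.le_self_pow (by norm_num) X)
            _ = V * j ^ 2 * X ^ 7 := by ring
            _ ≤ _ := hV7
        omega
      have c2 : 8 * (X ^ 3 * μ * j ^ 2) ≤ μ ^ 2 := by
        calc 8 * (X ^ 3 * μ * j ^ 2) ≤ 8 * (j * μ * j ^ 2) := by gcongr
          _ = 8 * j ^ 3 * μ := by ring
          _ ≤ μ * μ := Nat.mul_le_mul_right _ hμ
          _ = _ := by ring
      have c3 : 100 * (X ^ 3 * t * j ^ 2) ≤ 101 * (X ^ 3 * μ * j ^ 2) := by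
        calc 100 * (X ^ 3 * t * j ^ 2) = 100 * t * (X ^ 3 * j ^ 2) := by ring
          _ ≤ 101 * μ * (X ^ 3 * j ^ 2) := Nat.mul_le_mul_right _ ht
          _ = _ := by ring
      have c4 : X ^ 3 * (V + μ + t) * j ^ 2 ≤ ν ^ 2 * j ^ 2 := by
        calc X ^ 3 * (V + μ + t) * j ^ 2
            = X ^ 3 * V * j ^ 2 + X ^ 3 * μ * j ^ 2 + X ^ 3 * t * j ^ 2 := by ring
          _ ≤ μ ^ 2 := by omega
          _ ≤ (j * ν) ^ 2 := Nat.pow_le_pow_left b1 2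
          _ = _ := by ring
      exact Nat.le_of_mul_le_mul_right c4 (Nat.pow_pos hj0)
    · have d1 : 100 * (X ^ 2 * t) ≤ 101 * (X ^ 2 * μ) := by
        calc 100 * (X ^ 2 * t) = X ^ 2 * (100 * t) := by ring
          _ ≤ X ^ 2 * (101 * μ) := Nat.mul_le_mul_left _ ht
          _ = _ := by ring
      have d2 : 1000 * (X * t) ≤ X ^ 2 * t := by
        calc 1000 * (X * t) ≤ X * (X * t) := Nat.mul_le_mul_right _ hX
          _ = _ := by ring
      have d3 : 1000 ≤ X ^ 2 * μ := by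
        calc 1000 ≤ X := hX
          _ ≤ X ^ 2 := Nat.le_self_pow (by norm_num) X
          _ ≤ X ^ 2 * μ := Nat.le_mul_of_pos_right _ hμ0
      have d4 : X ^ 2 * (V + μ + t) + 25 * (X * t) =
          X ^ 2 * V + X ^ 2 * μ + X ^ 2 * t + 25 * (X * t) := by ring
      rw [d4]
      omega

end ShghPE
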