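import Pool.Agent.ShghPS.MainX
import Pool.Agent.ShghPE.CB2
import Pool.Agent.ShghPE.MonQ
import Pool.Agent.ShghPE.CritQ
import Pool.Agent.ShghPE.CutQ
import Pool.Agent.ShghPE.CRT
import Pool.Agent.ShghPE.Dec
import Pool.Agent.ShghPE.CritNum
import Pool.Agent.ShghPE.WinNum
import Pool.Agent.ShghPE.KidNum
import Pool.Agent.ShghPE.QPNum
import Pool.Agent.ShghPE.QP
import Pool.Agent.ShghPE.BaseNum
import Pool.Agent.ShghPE.Base
import Pool.Agent.ShghPE.StepP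
import Pool.Agent.ShghPE.PAll
import Pool.Agent.ShghPE.NumX
import Pool.Agent.ShghPE.BandX
import Pool.Agent.ShghPE.FinW
import Pool.Agent.ShghPE.ExplT

/-!
# ShghPE/MainE: the assembly of Theorem E (explicit form)
-/

namespace ShghPE

open MvPolynomial ShghJ ShghC ShghK ShghPS

universe u

theorem mMonQ : S_MonQ.{u} := tMonQ ShghPS.mEvPeel ShghK.mFlip

theorem mCritQ : S_CritQ.{u} := tCritQ ShghPS.mRows

theorem mCutQ : S_CutQ.{u} := tCutQ tCB2

theorem mQP : S_QP.{u} := tQP mMonQ mCritQ mCutQ tQPNum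

theorem mStepP : S_StepP.{u} :=
  tStepP mMonQ mCritQ mCutQ (tDec tCRT) tCritNum tWinNum tKidNum mQP

theorem mPAll : S_PAll.{u} :=
  tPAll (tBase tBaseNum (tBlkZ mEvPeel mRows ShghK.mBoxWin) (tBlkE mEvPeel mRows ShghK.mBoxWin)) mStepP

theorem mBandX : S_BandX.{u} := tBandX tNumX (tStripW mStrip tCut)

/-- THEOREM E: homogeneous systems with `m ≤ s ^ k` or `m ^ 2 ≤ s ^ k |χ|`, `s ≥ (k + 2) ^ (10 ^ 5 (k + 1) ^ 2)`. -/
theorem mExpl : S_Expl.{u} :=
  tExpl mFinA mPAll mBandX mFinG (tFinW mOneDG)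

end ShghPE
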