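import Pool.Agent.ShghPE.FamX

/-!
# ShghPE, Expl: THEOREM E with explicit constants

`s ≥ (r + 2) ^ (2700 (r + 1) ^ 2)` instead of `s ≥ s0`.
-/

namespace ShghPE

open MvPolynomial ShghJ ShghC ShghK ShghPS

universe u

/-! ### Logarithms -/

private theorem ex_log2_lb : (2 : ℝ) / 3 ≤ Real.log 2 := by
  have := Real.log_two_gt_d9
  norm_num at this ⊢
  linarith

private theorem ex_logpow (a k : ℕ) (ha : (a : ℝ) ≤ 2 ^ k) (ha0 : 0 < a) :
    Real.log a ≤ k * Real.log 2 := by
  have h1 : Real.log a ≤ Real.log ((2 : ℝ) ^ k) :=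
    Real.log_le_log (by exact_mod_cast ha0) ha
  rwa [Real.log_pow] at h1

/-- Parameters, explicit version. -/
theorem parE (r R : ℕ) (hR : (r + 2) ^ (1300 * (r + 1) ^ 2) ≤ R) : ∃ X B, Fam X B ∧ 8 * R ≤ B ∧
    1000 ≤ X ∧ (100 * 2 ^ (2 * r + 7)) ^ 2 * X ^ (2 * (2 * (r + 1) ^ 2 + 8 * (r + 1) + 6)) ≤ R := by
  set L := Nat.clog 2 R with hL
  set n := L + 4 with hn
  have hR2 : 2 ≤ R := by
    refine le_trans ?_ hR
    calc 2 ≤ (r + 2) ^ 1 := by rw [pow_one]; omega
      _ ≤ (r + 2) ^ (1300 * (r + 1) ^ 2) :=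
        Nat.pow_le_pow_right (by omega) (Nat.succ_le_of_lt (by positivity))
  have hRL : R ≤ 2 ^ L := Nat.le_pow_clog (by norm_num) R
  have hLR : 2 ^ (L - 1) < R := Nat.pow_pred_clog_lt_self (by norm_num) (by omega)
  have hL1 : 1 ≤ L := by
    rcases Nat.eq_zero_or_pos L with h | h
    · rw [h] at hRL
      norm_num at hRL
      omega
    · exact h
  refine ⟨400 * n ^ 2, 4 ^ n / (2 * n), tFamX n (by omega), ?_, by nlinarith, ?_⟩
  · rw [Nat.le_div_iff_mul_le (by omega)]
    have h1 : n ≤ 16 * 2 ^ L := by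
      have := Nat.lt_two_pow_self (n := L)
      omega
    calc 8 * R * (2 * n) = 16 * R * n := by ring
      _ ≤ 16 * 2 ^ L * (16 * 2 ^ L) := Nat.mul_le_mul (Nat.mul_le_mul_left _ hRL) h1
      _ = 4 ^ n := by
        rw [hn, pow_add, show (4 : ℕ) = 2 ^ 2 from rfl, ← pow_mul, ← pow_mul]
        ring
  · -- the main inequality
    set c : ℕ := 2 * (r + 1) ^ 2 + 8 * (r + 1) + 6 with hc
    have hRpos : (0 : ℝ) < R := by exact_mod_cast (by omega : 0 < R)
    have hnpos : (0 : ℝ) < n := by exact_mod_cast (by omega : 0 < n)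
    have hlb := ex_log2_lb
    set ℓ := Real.log (r + 2 : ℕ) with hℓ
    have hℓ2 : Real.log 2 ≤ ℓ := by
      rw [hℓ]
      apply Real.log_le_log (by norm_num)
      exact_mod_cast (by omega : 2 ≤ r + 2)
    set u : ℝ := ((r : ℝ) + 1) ^ 2 with hu
    have hu1 : 1 ≤ u := by
      rw [hu]
      have : (0 : ℝ) ≤ r := Nat.cast_nonneg r
      nlinarith
    have hr0 : (0 : ℝ) ≤ r := Nat.cast_nonneg r
    have hru : (r : ℝ) ≤ u := by rw [hu]; nlinarith
    set y := Real.log R with hy
    have hy1 : 1300 * u * ℓ ≤ y := by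
      have h1 : Real.log (((r + 2) ^ (1300 * (r + 1) ^ 2) : ℕ) : ℝ) ≤ Real.log R :=
        Real.log_le_log (by positivity) (by exact_mod_cast hR)
      rw [Nat.cast_pow, Real.log_pow] at h1
      push_cast at h1
      rw [hy, hu]
      calc 1300 * ((r : ℝ) + 1) ^ 2 * ℓ = 1300 * ((r : ℝ) + 1) ^ 2 * Real.log (r + 2 : ℕ) := rfl
        _ ≤ Real.log R := by
          push_cast
          exact h1
    -- n ≤ 1.5 y + 5
    have hny : (n : ℝ) ≤ 3 / 2 * y + 5 := by
      have h1 : Real.log (((2 ^ (L - 1) : ℕ)) : ℝ) ≤ Real.log R :=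
        Real.log_le_log (by positivity) (by exact_mod_cast hLR.le)
      rw [Nat.cast_pow, Real.log_pow] at h1
      push_cast [Nat.cast_sub hL1] at h1
      have h2 : ((L : ℝ) - 1) * (2 / 3) ≤ y := by
        have h3 : (0 : ℝ) ≤ (L : ℝ) - 1 := by
          have : (1 : ℝ) ≤ L := by exact_mod_cast hL1
          linarith
        refine le_trans (mul_le_mul_of_nonneg_left hlb h3) ?_
        exact h1
      rw [hn]
      push_cast
      linarith
    -- log n
    set v : ℝ := 1000 * u with hv
    have hvpos : 0 < v := by positivity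
    have hlogn : Real.log n ≤ Real.log v + n / v - 1 := by
      have h1 := Real.log_le_sub_one_of_pos (x := (n : ℝ) / v) (by positivity)
      rw [Real.log_div hnpos.ne' hvpos.ne'] at h1
      linarith
    have hlogv : Real.log v ≤ 12 * ℓ := by
      rw [hv, hu, Real.log_mul (by norm_num) (by positivity), Real.log_pow]
      have h1 : Real.log 1000 ≤ 10 * Real.log 2 := by
        have := ex_logpow 1000 10 (by norm_num) (by norm_num)
        exact_mod_cast this
      have h2 : Real.log ((r : ℝ) + 1) ≤ ℓ := by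
        rw [hℓ]
        apply Real.log_le_log (by positivity)
        push_cast
        linarith
      push_cast
      linarith
    have hlog400 : Real.log 400 ≤ 9 * Real.log 2 := by
      have := ex_logpow 400 9 (by norm_num) (by norm_num)
      exact_mod_cast this
    have hlog100 : Real.log 100 ≤ 7 * Real.log 2 := by
      have := ex_logpow 100 7 (by norm_num) (by norm_num)
      exact_mod_cast this
    have hlogX : Real.log (400 * (n : ℝ) ^ 2) ≤ 33 * ℓ + 2 * (n / v) := by
      rw [Real.log_mul (by norm_num) (by positivity), Real.log_pow]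
      push_cast
      linarith
    have hc16 : (c : ℝ) ≤ 16 * u := by
      rw [hc, hu]
      push_cast
      nlinarith
    have hc0 : (0 : ℝ) ≤ c := Nat.cast_nonneg c
    have hnv : (n : ℝ) / v * (32 * u) ≤ 6 / 125 * y + 4 / 25 := by
      have h1 : (n : ℝ) / v * (32 * u) = 4 / 125 * n := by
        rw [hv]
        field_simp
        ring
      rw [h1]
      linarith
    have hX0 : 0 ≤ Real.log (400 * (n : ℝ) ^ 2) := by
      apply Real.log_nonneg
      have : (1 : ℝ) ≤ n := by exact_mod_cast (by omega : 1 ≤ n)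
      nlinarith
    have key : Real.log (((100 * 2 ^ (2 * r + 7)) ^ 2 * (400 * n ^ 2) ^ (2 * c) : ℕ) : ℝ) ≤ y := by
      push_cast
      rw [Real.log_mul (by positivity) (by positivity), Real.log_pow, Real.log_pow,
        Real.log_mul (by norm_num) (by positivity), Real.log_pow]
      push_cast
      have h1 : 2 * (c : ℝ) * Real.log (400 * (n : ℝ) ^ 2) ≤
          1056 * u * ℓ + 2 * (6 / 125 * y + 4 / 25) := by
        calc 2 * (c : ℝ) * Real.log (400 * (n : ℝ) ^ 2) ≤
            2 * (16 * u) * Real.log (400 * (n : ℝ) ^ 2) := by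
              apply mul_le_mul_of_nonneg_right _ hX0
              linarith
          _ ≤ 2 * (16 * u) * (33 * ℓ + 2 * (n / v)) := by
              apply mul_le_mul_of_nonneg_left hlogX
              positivity
          _ = 1056 * u * ℓ + 2 * ((n : ℝ) / v * (32 * u)) := by ring
          _ ≤ 1056 * u * ℓ + 2 * (6 / 125 * y + 4 / 25) := by linarith
      have h2 : 2 * (Real.log 100 + (2 * (r : ℝ) + 7) * Real.log 2) ≤ 32 * u * ℓ := by
        have h3 : 2 * (Real.log 100 + (2 * (r : ℝ) + 7) * Real.log 2) ≤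
            (28 + 4 * r) * Real.log 2 := by linarith
        have h4 : (28 + 4 * (r : ℝ)) * Real.log 2 ≤ (28 + 4 * r) * ℓ :=
          mul_le_mul_of_nonneg_left hℓ2 (by positivity)
        have h5 : (28 + 4 * (r : ℝ)) * ℓ ≤ 32 * u * ℓ := by
          apply mul_le_mul_of_nonneg_right _ (by linarith)
          linarith
        linarith
      have h6 : 2 / 3 ≤ u * ℓ := by nlinarith
      nlinarith [h1, h2, hy1, h6]
    have h7 : ((100 * 2 ^ (2 * r + 7)) ^ 2 * (400 * n ^ 2) ^ (2 * c) : ℕ) ≤ R := by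
      have hpos : (0 : ℝ) < (((100 * 2 ^ (2 * r + 7)) ^ 2 * (400 * n ^ 2) ^ (2 * c) : ℕ) : ℝ) := by
        push_cast
        positivity
      have h8 := (Real.log_le_log_iff hpos hRpos).1 key
      exact_mod_cast h8
    exact h7

end ShghPE
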