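import Mathlib

/-!
# ShghPE, Fam: a large product of small pairwise coprime numbers

The prime power components of the central binomial coefficient.
-/

namespace ShghPE

/-- Pairwise coprime numbers `2 ≤ q ≤ 2 n` with the product at least `4 ^ n / (2 n)`. -/
theorem fam (n : ℕ) (hn : 1 ≤ n) : ∃ (s : Finset ℕ) (q : ℕ → ℕ),
    (∀ i ∈ s, ∀ j ∈ s, i ≠ j → Nat.Coprime (q i) (q j)) ∧
    (∀ i ∈ s, 2 ≤ q i ∧ q i ≤ 2 * n) ∧ s.card ≤ 2 * n ∧ 4 ^ n ≤ 2 * n * ∏ i ∈ s, q i := by
  refine ⟨(Nat.centralBinom n).primeFactors,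
    fun p => p ^ (Nat.centralBinom n).factorization p, ?_, ?_, ?_, ?_⟩
  · intro i hi j hj hij
    exact Nat.Coprime.pow _ _ ((Nat.coprime_primes (Nat.prime_of_mem_primeFactors hi)
      (Nat.prime_of_mem_primeFactors hj)).2 hij)
  · intro p hp
    have h1 : 1 ≤ (Nat.centralBinom n).factorization p :=
      (Nat.Prime.factorization_pos_of_dvd (Nat.prime_of_mem_primeFactors hp)
        (Nat.centralBinom_ne_zero n) (Nat.dvd_of_mem_primeFactors hp))
    refine ⟨?_, ?_⟩
    · calc 2 ≤ p := (Nat.prime_of_mem_primeFactors hp).two_le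
        _ = p ^ 1 := (pow_one p).symm
        _ ≤ p ^ (Nat.centralBinom n).factorization p :=
          Nat.pow_le_pow_right (Nat.prime_of_mem_primeFactors hp).pos h1
    · exact Nat.pow_factorization_choose_le (by omega)
  · have h1 : (Nat.centralBinom n).primeFactors ⊆ Finset.Icc 1 (2 * n) := by
      intro p hp
      rw [Finset.mem_Icc]
      refine ⟨(Nat.prime_of_mem_primeFactors hp).one_le, ?_⟩
      exact Nat.le_two_mul_of_factorization_centralBinom_pos
        (Nat.Prime.factorization_pos_of_dvd (Nat.prime_of_mem_primeFactors hp)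
        (Nat.centralBinom_ne_zero n) (Nat.dvd_of_mem_primeFactors hp))
    refine (Finset.card_le_card h1).trans ?_
    rw [Nat.card_Icc]
    omega
  · have h2 : ∏ p ∈ (Nat.centralBinom n).primeFactors, p ^ (Nat.centralBinom n).factorization p =
        Nat.centralBinom n := by
      conv_rhs => rw [← Nat.prod_factorization_pow_eq_self (Nat.centralBinom_ne_zero n)]
      rfl
    rw [h2]
    exact Nat.four_pow_le_two_mul_self_mul_centralBinom n hn

/-- The same family as a list. -/
theorem famList (n : ℕ) (hn : 1 ≤ n) : ∃ l : List ℕ, l.Pairwise Nat.Coprime ∧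
    (∀ q ∈ l, 2 ≤ q ∧ q ≤ 2 * n) ∧ l.length ≤ 2 * n ∧ 4 ^ n ≤ 2 * n * l.prod := by
  obtain ⟨s, q, h1, h2, h3, h4⟩ := fam n hn
  refine ⟨s.toList.map q, ?_, ?_, ?_, ?_⟩
  · rw [List.pairwise_map]
    have h5 : s.toList.Pairwise (fun a b => a ≠ b) := s.nodup_toList
    refine h5.imp_of_mem ?_
    intro a b ha hb hab
    exact h1 a (Finset.mem_toList.1 ha) b (Finset.mem_toList.1 hb) hab
  · intro x hx
    obtain ⟨a, ha, rfl⟩ := List.mem_map.1 hx
    exact h2 a (Finset.mem_toList.1 ha)
  · rw [List.length_map, Finset.length_toList]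
    exact h3
  · rw [Finset.prod_map_toList]
    exact h4

/-- The same family with the index set `Fin k`. -/
theorem famFin (n : ℕ) (hn : 1 ≤ n) : ∃ (k : ℕ) (q : Fin k → ℕ), k ≤ 2 * n ∧
    Pairwise (Function.onFun Nat.Coprime q) ∧ (∀ i, 2 ≤ q i ∧ q i ≤ 2 * n) ∧
    4 ^ n ≤ 2 * n * ∏ i, q i := by
  obtain ⟨l, h1, h2, h3, h4⟩ := famList n hn
  refine ⟨l.length, fun i => l.get i, h3, ?_, fun i => h2 _ (List.get_mem l i), ?_⟩
  · intro i j hij
    rcases lt_or_gt_of_ne hij with h | h
    · exact List.pairwise_iff_get.1 h1 i j h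
    · exact (List.pairwise_iff_get.1 h1 j i h).symm
  · have h5 : ∏ i : Fin l.length, l.get i = l.prod := by
      simp [Fin.prod_univ_getElem]
    rw [h5]
    exact h4

end ShghPE
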