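import Pool.Agent.ShghPE.Spec
import Pool.Agent.ShghPE.Fam

/-!
# ShghPE/FamX: the family of moduli
-/

namespace ShghPE

theorem tFamX : S_FamX := by
  intro n hn
  obtain ⟨l, h1, h2, h3, h4⟩ := famList n hn
  refine ⟨l, h1, fun q hq => (h2 q hq).1, ?_, ?_⟩
  · have h5 : l.sum ≤ l.length * (2 * n) :=
      List.sum_le_card_nsmul l (2 * n) fun q hq => (h2 q hq).2
    have h6 : l.length * (2 * n) ≤ 2 * n * (2 * n) := Nat.mul_le_mul_right _ h3
    calc 100 * l.sum ≤ 100 * (2 * n * (2 * n)) := Nat.mul_le_mul_left _ (h5.trans h6)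
      _ = 400 * n ^ 2 := by ring
  · exact Nat.div_le_of_le_mul h4

end ShghPE
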