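import Pool.Agent.ShghPE.Spec

/-!
# ShghPE, Par: parameters for large R
-/

namespace ShghPE

open MvPolynomial ShghJ ShghC ShghK ShghPS

private theorem par_exp (c : ℕ) : ∃ M : ℕ, ∀ m : ℕ, M ≤ m → (400 * (m + 8) ^ 2) ^ c ≤ 2 ^ m := by
  have h := (isLittleO_pow_const_const_pow_of_one_lt (R := ℝ) (2 * c) (r := (2 : ℝ)) one_lt_two).def
    (c := ((400 * 81 : ℝ) ^ c)⁻¹) (by positivity)
  obtain ⟨M, hM⟩ := Filter.eventually_atTop.1 h
  refine ⟨M + 1, fun m hm => ?_⟩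
  have h1 := hM m (by omega)
  have h2 : ((m : ℝ) ^ (2 * c)) ≤ ((400 * 81 : ℝ) ^ c)⁻¹ * 2 ^ m := by
    rwa [Real.norm_of_nonneg (by positivity), Real.norm_of_nonneg (by positivity)] at h1
  have h3 : (400 * 81 : ℝ) ^ c * (m : ℝ) ^ (2 * c) ≤ 2 ^ m := by
    rw [inv_mul_eq_div, le_div_iff₀ (by positivity)] at h2
    rw [mul_comm]
    exact h2
  have h4 : 400 * (m + 8) ^ 2 ≤ 400 * 81 * m ^ 2 := by
    have h5 : m + 8 ≤ 9 * m := by omega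
    have h6 : (m + 8) ^ 2 ≤ (9 * m) ^ 2 := Nat.pow_le_pow_left h5 2
    have h7 : (9 * m) ^ 2 = 81 * m ^ 2 := by ring
    omega
  have h5 : (400 * (m + 8) ^ 2) ^ c ≤ (400 * 81 * m ^ 2) ^ c := Nat.pow_le_pow_left h4 c
  refine h5.trans ?_
  have h6 : ((400 * 81 * m ^ 2 : ℕ) : ℝ) ^ c = (400 * 81 : ℝ) ^ c * (m : ℝ) ^ (2 * c) := by
    push_cast
    rw [mul_pow, pow_mul]
    norm_num
  have h7 : (((400 * 81 * m ^ 2) ^ c : ℕ) : ℝ) ≤ ((2 ^ m : ℕ) : ℝ) := by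
    rw [Nat.cast_pow, h6]
    push_cast
    exact h3
  exact_mod_cast h7

theorem tPar (h1 : S_FamX) : S_Par := by
  intro c X0
  obtain ⟨M, hM⟩ := par_exp c
  refine ⟨2 ^ (M + X0 + 1), fun R hR => ?_⟩
  have hR0 : R ≠ 0 := by
    have := Nat.pow_pos (n := M + X0 + 1) (show 0 < 2 by norm_num)
    omega
  obtain ⟨m, hm⟩ : ∃ m, m = Nat.log 2 R := ⟨_, rfl⟩
  have hmM : M + X0 + 1 ≤ m := by
    rw [hm]
    exact Nat.le_log_of_pow_le (by norm_num) hR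
  have hlow : 2 ^ m ≤ R := by
    rw [hm]
    exact Nat.pow_log_le_self 2 hR0
  have hup : R < 2 ^ (m + 1) := by
    rw [hm]
    exact Nat.lt_pow_succ_log_self (by norm_num) R
  refine ⟨400 * (m + 8) ^ 2, 4 ^ (m + 8) / (2 * (m + 8)), h1 (m + 8) (by omega), ?_, ?_, ?_⟩
  · rw [Nat.le_div_iff_mul_le (by omega)]
    have h2 : (4 : ℕ) ^ (m + 8) = 2 ^ (m + 8) * 2 ^ (m + 8) := by
      rw [← mul_pow]
      norm_num
    have h3 : 2 ^ (m + 8) = 128 * 2 ^ (m + 1) := by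
      rw [pow_add, pow_add]
      ring
    have h4 : 128 * R ≤ 2 ^ (m + 8) := by
      rw [h3]
      exact Nat.mul_le_mul_left _ hup.le
    have h5 : m + 8 ≤ 2 ^ (m + 8) := Nat.lt_two_pow_self.le
    calc 8 * R * (2 * (m + 8)) = (16 * R) * (m + 8) := by ring
      _ ≤ 2 ^ (m + 8) * 2 ^ (m + 8) := Nat.mul_le_mul (by omega) h5
      _ = 4 ^ (m + 8) := h2.symm
  · have h2 : m + 8 ≤ (m + 8) ^ 2 := by
      rw [pow_two]
      exact Nat.le_mul_self _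
    omega
  · exact (hM m (by omega)).trans hlow

end ShghPE
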