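import Pool.Agent.ShghPS.FinG

/-!
# ShghPE, Spec: homogeneous systems with `m ≤ s^k`, every `k` (statements, proofs in the docstrings)

THEOREM E (note 3346). Characteristic `0`. For every `k` there is `s0` such that for all `s ≥ s0`,
`m ≤ s^k` and all `d`: `s` generic points of multiplicity `m` impose independent conditions on the
curves of degree `d`, or there is no such curve.

PLAN. As Plan S (`ShghPS`), with better windows of the boxes. A box with `t` rows, `l` columns and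
`2 j` points of multiplicity `μ` has the expected dimension `π = t l - j μ (μ+1)`. If
`t = μ + ν + 1`, it is transformed (`S_SwQ`) to a box `t × l'` with points of multiplicity `ν`,
`l' + j μ = l + j ν`, the same `π`. The long side is `t`, about `β (ν + 1)`; the short side `l'` is cut into
`5 X` pieces at most, each with `x` pairs of points: THIN pieces, `x` in `β + [X, 4 X]` (class `Cl`), and
`q`-PIECES, `x = (1 + 1/q) (β - 2 X)` rounded down; a `q`-piece is transformed once more and cut into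
`q + 1` pieces of the class `Cl` in the other direction (`S_QPNum`, `S_QP`). The Chinese remainder theorem
for a family of coprime moduli `q` (`Fam`) shows that every `j` is a sum of such numbers `x` (`S_Dec`). So one gets
windows `Wn r X μ j`, about `μ² / j^(2r+2)`, for every `r` (`S_StepP`, `S_PAll`).

All pure statements were tested by computer (random numbers, extreme cases included).
-/

namespace ShghPE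

open MvPolynomial ShghJ ShghC ShghK ShghPS

universe u

/-- One box: `t` rows, `l` columns, `2 j` points of multiplicity `μ`, window `W`. -/
def QC (F : Type u) [Field F] (t l j μ W : ℕ) : Prop :=
  (j * (μ * (μ + 1)) + W ≤ t * l →
    hN F (Sf 0 (t - 1) (l - 1)) (Multiset.replicate (2 * j) μ) + j * (μ * (μ + 1)) ≤ t * l) ∧
  (t * l + W ≤ j * (μ * (μ + 1)) →
    hN F (Sf 0 (t - 1) (l - 1)) (Multiset.replicate (2 * j) μ) = 0)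

/-- Windows for all numbers of rows. (`BC F μ j (L + 1) W` is `ShghPS.BlkC F μ j L W`.) -/
def BC (F : Type u) [Field F] (μ j l W : ℕ) : Prop := ∀ t : ℕ, 1 ≤ t → QC F t l j μ W

/-- The class of boxes: `g = j (μ + 1) - l` is between `X (μ + 1)` and `4 X (μ + 1)`. -/
def Cl (X μ j l : ℕ) : Prop := l + X * (μ + 1) ≤ j * (μ + 1) ∧ j * (μ + 1) ≤ l + 4 * X * (μ + 1)

/-- The window at level `r`. -/
def Wn (r X μ j : ℕ) : ℕ := X ^ ((2 * r + 5) * (r + 1)) * μ ^ 2 / j ^ (2 * r + 2) + X ^ 2 * μ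

/-- The window of the children. -/
def Vn (r X μ j : ℕ) : ℕ := 25 * X ^ (2 * r ^ 2 + 11 * r + 11) * μ ^ 2 / j ^ (2 * r + 4) + μ

/-- The statement `P_r`. -/
def PR (F : Type u) [Field F] (X Y r : ℕ) : Prop := ∀ μ j l : ℕ, 1 ≤ l → Cl X μ j l →
  X ^ (3 * r + 6) ≤ j → 2 * j ≤ Y → Y ^ (r + 2) ≤ μ → BC F μ j l (Wn r X μ j)

/-- A family of pairwise coprime moduli, small compared with `X`, with a product `≥ B`. (`famList` of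
`Pool.Agent.ShghPE.Fam` gives `Fam (400 n^2) (4^n / (2 n))`.) -/
def Fam (X B : ℕ) : Prop := ∃ l : List ℕ, l.Pairwise Nat.Coprime ∧ (∀ q ∈ l, 2 ≤ q) ∧
  100 * l.sum ≤ X ∧ B ≤ l.prod

/-- A thin piece: `x - t / n` is between `X` and `4 X`. -/
def Thin (X x t n : ℕ) : Prop := t + X * n ≤ x * n ∧ x * n ≤ t + 4 * X * n

/-- A `q`-piece: `x` is `(1 + 1/q) (t / n - 2 X)` rounded down. -/
def QT (X q x t n : ℕ) : Prop := x * (q * n) + (q + 1) * (2 * X * n) ≤ (q + 1) * t ∧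
  (q + 1) * t < (x + 1) * (q * n) + (q + 1) * (2 * X * n)

/-! ### Boxes -/

/-- CB2: cut of a box into two boxes. (helper21: `Pool.Agent.ShghZ.CutBox`.) -/
def S_CB2 : Prop := ∀ (F : Type u) [Field F] (x y L : ℕ) (A B : Multiset ℕ), 1 ≤ x → 1 ≤ y →
  hN F (Sf 0 (x + y - 1) L) (A + B) ≤ hN F (Sf 0 (x - 1) L) A + hN F (Sf 0 (y - 1) L) B

/-- MONQ: elementary properties. PROOF. (1) clear. (2) `S_Flip`. (3) `ShghPS.S_EvPeel` with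
`t := μ + ν`, `m := μ`, `d := l - 1`, `L := l' - 1`, `B = 0`; `t l + j ν (ν+1) = t l' + j μ (μ+1)` for
`t = μ + ν + 1` (`nlinarith` / `ring` after `l' = l + j ν - j μ` in `ℤ`). -/
def S_MonQ : Prop := ∀ (F : Type u) [Field F] (t l j μ W : ℕ),
  (∀ W', W ≤ W' → QC F t l j μ W → QC F t l j μ W') ∧
  (1 ≤ t → 1 ≤ l → QC F l t j μ W → QC F t l j μ W) ∧
  (∀ ν l', t = μ + ν + 1 → 1 ≤ l → 1 ≤ l' → l' + j * μ = l + j * ν → QC F t l' j ν W →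
    QC F t l j μ W)

/-- CRITQ: it is enough to know the critical numbers of rows. PROOF. `c = j μ (μ+1) ≥ 1`. First half of
`QC`, `c + W ≤ t l`: let `t2` be the least number with `c + W ≤ t2 l` (`1 ≤ t2 ≤ t`, `t2 l < c + W + l`);
`QC F t2 ..`, and `h t ≤ h t2 + (t - t2) l` (`ShghPS.S_Rows`, induction). Second half, `t l + W ≤ c`: let
`t1 = (c - W) / l`, the largest number with `t1 l + W ≤ c`; `t ≤ t1`, `c < t1 l + W + l`; `h t ≤ h t1 = 0`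
(`S_Rows`). -/
def S_CritQ : Prop := ∀ (F : Type u) [Field F] [CharZero F] (μ j l W : ℕ), 1 ≤ μ → 1 ≤ j → 1 ≤ l →
  (∀ t : ℕ, 1 ≤ t → |(t : ℤ) * l - j * (μ * (μ + 1))| < W + l → QC F t l j μ W) → BC F μ j l W

/-- CUTQ: a box is cut into pieces. PROOF. Induction on `w`; `c = ν (ν+1)`, `n + 1` = length.
`w = [x]`: `BC F ν x l W` and `W ≤ 1 * (W + l)`. `w = x :: w'`, `w' ≠ []`. FIRST HALF: `(x + w'.sum) c +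
(n+1) (W+l) ≤ t l`. `x1 = (x c + W + l - 1) / l`: `x c + W ≤ x1 l < x c + W + l`, `1 ≤ x1`, `y = t - x1`
satisfies `w'.sum c + n (W + l) ≤ y l`, so `1 ≤ y`. `S_CB2` (`L = l - 1`, `A = replicate (2x) ν`,
`B = replicate (2 w'.sum) ν`), `BC` for `x1` and the induction hypothesis for `y`. SECOND HALF:
`x1 = (x c - W) / l`: `x1 l + W ≤ x c < x1 l + W + l`, `1 ≤ x1` as `l + W ≤ x c`. If `t ≤ x1`: `h ≤ hN` with only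
the points of `x` (`ShghC.mMacN` or `mStA`: fewer points), and this is `0` by `BC` for `t`. Otherwise
`y = t - x1`, `y l + n (W + l) ≤ w'.sum c`: both terms of `S_CB2` are `0`. -/
def S_CutQ : Prop := ∀ (F : Type u) [Field F] [CharZero F] (w : List ℕ) (t l ν W : ℕ), w ≠ [] →
  1 ≤ t → 1 ≤ l → 1 ≤ ν → (∀ x ∈ w, 1 ≤ x ∧ l + W ≤ x * (ν * (ν + 1)) ∧ BC F ν x l W) →
  QC F t l w.sum ν (w.length * (W + l))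

/-! ### Arithmetic (pure) -/

/-- CRT. Pure. PROOF. Induction on `l`, for all `z`. `l = []`: `J = z`, `p = []`. `l = q :: l'`,
`P = l'.prod` is coprime to `q` (`Nat.Coprime.prod_right` / `List.Pairwise`): there is `0 ≤ b < q` with
`b P ≡ z (mod q)` (`Int.emod_emod_of_dvd`, `Int.gcd_eq_gcd_ab`, or `ZMod.unitOfCoprime`), `z = b P + u q`,
`z / (q P) = u / P + b / q`; the induction hypothesis for `u`, and `p = (q, b) :: p'`. -/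
def S_CRT : Prop := ∀ l : List ℕ, l.Pairwise Nat.Coprime → (∀ q ∈ l, 2 ≤ q) → ∀ z : ℤ,
  ∃ (p : List (ℕ × ℕ)) (J : ℤ), p.map Prod.fst = l ∧ (∀ x ∈ p, x.2 < x.1) ∧
  (z : ℝ) / (l.prod : ℕ) = J + (p.map fun x => (x.2 : ℝ) / x.1).sum

/-- DEC: the decomposition of `j`. Pure. Hypothesis of the proof: `S_CRT`. PROOF. Real numbers:
`l` = the list of `Fam X B`, `Q = l.prod ≥ B`. `β = t / n ∈ [X^3, B]`, `A = j / β ∈ [X - 1, 4X + 1]`.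
`z = ⌊(A - 2XA/β) Q⌋`, `S_CRT`: `z / Q = J + S`, `S = ∑ a_i / q_i ∈ [0, K)`, `K` = length of `l`,
`2 K ≤ l.sum ≤ X/100`, `σ = ∑ a_i ≤ l.sum ≤ X/100`.
`J0 = J - σ ≥ A - 2XA/β - 1 - X/200 - X/100 ≥ 0.97 X` (and `≥ 0.95 A`), so `J0 ≥ 1`; `J ≤ A ≤ 5 X`. Pieces: `a_i`
pieces `x_i = ((q_i + 1) (t - 2 X n)) / (q_i n)` (integer division; `QT`) for every `i`, and `J0` thin
pieces, `⌊jt / J0⌋` or `⌊jt / J0⌋ + 1` (`jt % J0` times), `jt = j - ∑ a_i x_i`. With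
`x_i = (1 + 1/q_i) (β - 2X) - ε_i`, `0 ≤ ε_i < 1`: `jt - J0 β = β (A - J - S) + 2X (σ + S) + ∑ a_i ε_i`, and
`β (A - J - S) ∈ [2XA, 2XA + 1]` (`β ≤ B ≤ Q`). So `jt - J0 β ≥ 2XA ≥ 2X J0`, and `jt - J0 β ≤ 2XA + 1 +
2X (0.015 X) + 0.01 X ≤ 2.2 X J0`. So every thin piece `x` satisfies `2X - 1 ≤ x - β ≤ 2.2 X + 1`. The list is
`replicate .. ++ replicate .. ++ p.flatMap fun y => replicate y.2 (x_y)`. -/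
def S_Dec : Prop := ∀ (X B j t n : ℕ), Fam X B → 1000 ≤ X → 1 ≤ n →
  t ≤ B * n → X ^ 3 * n ≤ t → X * t ≤ j * n + t → j * n ≤ (4 * X + 1) * t →
  ∃ w : List ℕ, w.sum = j ∧ w ≠ [] ∧ w.length ≤ 5 * X ∧
    ∀ x ∈ w, Thin X x t n ∨ ∃ q, 2 ≤ q ∧ 50 * q ≤ X ∧ QT X q x t n

/-- CRITNUM: the numbers of a critical box. Pure. PROOF. `g = j (μ+1) - l`, `π = t l - j μ (μ+1)`,
`|π| ≤ μ^2 / (X^3 j)`. `l ≥ (j - 4X) (μ+1) ≥ 0.999 j (μ+1)`. `(t - μ) l = μ g + π` (`j μ (μ+1) = μ (l + g)`), so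
`(t - μ) / μ = (g + π/μ) / l ∈ [0.99 X / j, 4.01 X / j]` (`X (μ+1) ≤ g ≤ 4X (μ+1)`). In particular
`t - μ ≥ 2`: `ν = t - μ - 1`, and `100 t ≤ 101 μ`. `j (ν+1) l = j (μ g + π)`, `t l = j μ (μ+1) + π`, so
`j (ν+1) / t = (g + π/μ) / (μ + 1 + π/(j μ)) ∈ [X - 1, 4X + 1]`. `l' = l + j ν - j μ`: `t l' = j ν (ν+1) + π`
and `j ν (ν+1) > |π|` (`ν ≥ 0.9 X μ / j - 1 ≥ μ / j`, so `j ν^2 ≥ μ^2 / j`), so `l' ≥ 1`. -/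
def S_CritNum : Prop := ∀ X μ j l t : ℕ, 1000 ≤ X → Cl X μ j l → X ^ 6 ≤ j → 8 * j ^ 3 ≤ μ →
  |(t : ℤ) * l - j * (μ * (μ + 1))| * (X ^ 3 * j) ≤ μ ^ 2 →
  ∃ ν l' : ℕ, t = μ + ν + 1 ∧ l' + j * μ = l + j * ν ∧ 1 ≤ ν ∧ 1 ≤ l' ∧
    9 * (X * μ) ≤ 10 * (j * (ν + 1)) ∧ 10 * (j * (ν + 1)) ≤ 42 * (X * μ) ∧
    X * t ≤ j * (ν + 1) + t ∧ j * (ν + 1) ≤ (4 * X + 1) * t ∧ 100 * t ≤ 101 * μ

/-- QPNUM: the numbers of a `q`-piece. Pure. PROOF. `β = l / (μ+1) ∈ [X^3, μ/8]`, `g = j (μ+1) - l`,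
`π = t l - j μ (μ+1)`, `|π| ≤ μ^2 / X^2`. `j = (1 + 1/q) (β - 2X) - ε`, `0 ≤ ε < 1`; so `g / (μ+1) = j - β =
β/q - 2X (1 + 1/q) - ε ∈ [β/(2q), β/q]` (`q ≤ X/50`, `β ≥ X^3`). `(t - μ) l = μ g + π`, so `t - μ =
μ (j - β)/β + π / l ∈ [μ/(2.1 q), 1.05 μ/q]` (`|π| / l ≤ 8 μ^2/(8 X^5 μ)`, `l ≥ X^3 μ`, `μ ≥ 8 X^3`); `κ = t - μ - 1`
(`1 ≤ κ < μ`). `l' = l + j κ - j μ ≤ l`, `t l' = j κ (κ+1) + π`, so `l' ≥ 1` (`j κ^2 ≥ β μ^2/(20 q^2) > |π|`).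
Let `x = ⌊j/(q+1)⌋` or `+ 1`. `x (κ+1) - l' = g - (j - x) (κ+1)` (as `l' = j (κ+1) - g`). `g/(κ+1) =
(l/μ) / (1 + π/(μ g))`, `|π/(μ g)| ≤ 2 q |π| / (μ (μ+1) β)`, so `|g/(κ+1) - l/μ| ≤ 4 q |π| (l/μ)/(μ (μ+1) β) ≤
1/4`; `l/μ = β + β/μ ∈ [β, β + 1/8]`; `j - x ∈ (β - 2X - 2, β - 2X + 1)` because
`j - j/(q+1) = j q/(q+1) = β - 2X - ε q/(q+1)`. So `x - l'/(κ+1) ∈ [2X - 2, 2X + 3] ⊂ [X, 4X]`. `x ≥
(β - 2X)/q - 2 ≥ β/(2q)`, and `x ≤ j`. -/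
def S_QPNum : Prop := ∀ X q μ j l t : ℕ, 1000 ≤ X → 2 ≤ q → 50 * q ≤ X → QT X q j l (μ + 1) →
  X ^ 3 * (μ + 1) ≤ l → 8 * l ≤ μ * (μ + 1) →
  |(t : ℤ) * l - j * (μ * (μ + 1))| * X ^ 2 ≤ μ ^ 2 →
  ∃ κ l' : ℕ, t = μ + κ + 1 ∧ l' + j * μ = l + j * κ ∧ 1 ≤ κ ∧ κ ≤ μ ∧ 1 ≤ l' ∧ l' ≤ l ∧
    μ ≤ 3 * (q * (κ + 1)) ∧ q * (κ + 1) ≤ 2 * μ ∧
    ∀ x, (x = j / (q + 1) ∨ x = j / (q + 1) + 1) →
      Cl X κ x l' ∧ l ≤ 2 * (q * (x * (μ + 1))) ∧ x ≤ j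

/-- WINNUM: windows. Pure. PROOF. Real numbers. Let `e1 = 2 r^2 + 11 r + 14 = (2r+7)(r+2)`,
`e2 = 2 r^2 + 11 r + 11`. `j ≥ X^(3r+9)`, `μ ≥ 8 j^3`. (a) `X^e1 / j^(2r+3) ≤ X^(-13)`
(`(3r+9)(2r+3) = 6 r^2 + 27 r + 27`), so `W ≤ X^(-13) μ^2 / j + X^2 μ`, `l ≤ j (μ+1)`, and `X^3 j * X^2 μ ≤
μ^2/8`, `X^3 j * j (μ+1) ≤ μ^2/4`. (b) `n ≥ 0.9 X μ/j` (`n = ν + 1`). `V ≤ 25 X^e2 μ^2 / j^(2r+4) + μ`;
`25 X^e2 / j^(2r+2) ≤ 25 X^(-7)` (`(3r+9)(2r+2) = 6 r^2 + 24 r + 18`), so `X^3 V ≤ 25 X^(-4) μ^2/j^2 + X^3 μ`,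
`X^3 t ≤ 1.01 X^3 μ`, and `X^3 μ ≤ μ^2/(8 j^2)` ; `ν^2 ≥ 0.8 X^2 μ^2/j^2`. (c) `X^2 V / 5 ≤ 5 X^(e2+2) μ^2 /
j^(2r+4) + X^2 μ / 5`, `e2 + 2 < e1`; `X^2 t / 5 + 5 X t ≤ 0.21 X^2 μ`. The sum is `≤ W` (even after rounding
down: `0.41 X^2 μ + 1 ≤ X^2 μ`). -/
def S_WinNum : Prop := ∀ X r μ j l : ℕ, 1000 ≤ X → X ^ (3 * r + 9) ≤ j → 8 * j ^ 3 ≤ μ →
  l ≤ j * (μ + 1) →
  (Wn (r + 1) X μ j + l) * (X ^ 3 * j) ≤ μ ^ 2 ∧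
  ∀ t ν, 100 * t ≤ 101 * μ → 9 * (X * μ) ≤ 10 * (j * (ν + 1)) →
    X ^ 3 * (Vn r X μ j + t) ≤ ν ^ 2 ∧
    X ^ 2 * (Vn r X μ j + t) + 25 * (X * t) ≤ 5 * Wn (r + 1) X μ j

/-- KIDNUM: the windows of the children. Pure. PROOF. `κ ≤ 5 X μ / j`, `1 / x ≤ X^2 / j`:
`X^((2r+5)(r+1)) κ^2 / x^(2r+2) ≤ 25 X^((2r+5)(r+1) + 2 + 4r + 4) μ^2 / j^(2r+4)`, and this exponent is
`2 r^2 + 11 r + 11`; `X^2 κ ≤ 5 X^3 μ / j ≤ μ`. -/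
def S_KidNum : Prop := ∀ X r μ j κ x : ℕ, 1000 ≤ X → X ^ (3 * r + 9) ≤ j →
  κ * j ≤ 5 * (X * μ) → j ≤ X ^ 2 * x → Wn r X κ x ≤ Vn r X μ j

/-- BASENUM. Pure. PROOF. `W = Wn 0 X μ j = X^5 μ^2/j^2 + X^2 μ`, `g ∈ [X (μ+1), 4X (μ+1)]`,
`l = j (μ+1) - g ≥ 0.999 j (μ+1)`, `M = (μ g + W) / l + 1`. `W / l ≤ X^5 μ/(0.999 j^3) + 2 X^2/j ≤
0.01 μ/j + 0.01`, so `M ≤ 4.02 X μ/j + 2 ≤ 4.1 X μ / j ≤ μ/10` (`μ ≥ 4 j^2`). `j M - g ≤ j (μ g + W)/l + j - g =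
(g - j) g / l + j W / l + j ≤ 17 X^2 μ/j + 1.1 X^5 μ/j^2 + 2 X^2 + j ≤ 20 X^2 μ/j`. `M (2 (j M - g) + 2 j + 7 M) ≤
4.1 X (μ/j) (40 X^2 μ/j + μ/(2j) + 29 X μ/j) ≤ 200 X^3 μ^2/j^2 ≤ 2 W`. -/
def S_BaseNum : Prop := ∀ X μ j l : ℕ, 1000 ≤ X → Cl X μ j l → X ^ 6 ≤ j → 4 * j ^ 2 ≤ μ →
  ∃ g M : ℕ, j * (μ + 1) = l + g ∧ 3 ≤ j ∧ 4 * j ≤ μ ∧ 9 * μ ≤ 2 * g ∧ 10 * M ≤ μ ∧
    μ * g + Wn 0 X μ j ≤ M * l ∧ M * (2 * (j * (M + 1)) + 7 * M) ≤ 2 * Wn 0 X μ j + 2 * (M * g)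

/-! ### The recursion -/

/-- BASE: `P_0`. Hypotheses of the proof: `S_BaseNum`, `ShghPS.S_BlkZ`, `ShghPS.S_BlkE`. PROOF.
`l = L + 1`; `4 j^2 ≤ Y^2 ≤ μ`. -/
def S_Base : Prop := ∀ (F : Type u) [Field F] [CharZero F] (X Y : ℕ), 1000 ≤ X → PR F X Y 0

/-- QP: the window of a `q`-piece from the windows of its children. Hypotheses of the proof: `S_MonQ`,
`S_CritQ`, `S_CutQ`, `S_QPNum`. PROOF. `S_CritQ` with `W = (q+1) (V + l)`: `|π| < W + l ≤ (q+2) (V+l) ≤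
X (V + l)`, so `|π| X^2 ≤ μ^2`, `S_QPNum`: `κ`, `l'`. `S_MonQ` (3): enough `QC F t l' j κ W`.
`w = replicate (j % (q+1)) (j/(q+1) + 1) ++ replicate (q + 1 - j % (q+1)) (j/(q+1))`, `w.sum = j`, length
`q + 1`; `S_CutQ` with `l'`, `κ`, `V` and `S_MonQ` (1) (`l' ≤ l`). `l' + V ≤ x κ (κ+1)`: `Cl` gives
`x (κ+1) ≥ l' + X (κ+1)`, so `x κ (κ+1) ≥ κ l' + X κ (κ+1)`, and `V ≤ μ^2/X^3 ≤ 9 q^2 (κ+1)^2/X^3 ≤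
X κ (κ+1)`. -/
def S_QP : Prop := ∀ (F : Type u) [Field F] [CharZero F] (X q μ j l V : ℕ), 1000 ≤ X → 2 ≤ q →
  50 * q ≤ X → QT X q j l (μ + 1) → X ^ 3 * (μ + 1) ≤ l → 8 * l ≤ μ * (μ + 1) →
  X ^ 3 * (V + l) ≤ μ ^ 2 →
  (∀ κ x l', 1 ≤ l' → Cl X κ x l' → l ≤ 2 * (q * (x * (μ + 1))) → x ≤ j →
    μ ≤ 3 * (q * (κ + 1)) → q * (κ + 1) ≤ 2 * μ → BC F κ x l' V) →
  BC F μ j l ((q + 1) * (V + l))

/-- STEPP: `P_r` implies `P_(r+1)`. Hypotheses of the proof: `S_MonQ`, `S_CritQ`, `S_CutQ`, `S_Dec`,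
`S_CritNum`, `S_WinNum`, `S_KidNum`, `S_QP`. PROOF. Let `Cl X μ j l`, `X^(3r+9) ≤ j`, `2 j ≤ Y`,
`Y^(r+3) ≤ μ`, `W = Wn (r+1) X μ j`, `V = Vn r X μ j`. `8 j^3 ≤ Y^3 ≤ μ`. `S_CritQ`; let `t` be critical,
`|π| < W + l`; `S_WinNum` (a) and `S_CritNum`: `ν`, `l'`. `S_MonQ` (3), (2): enough `QC F l' t j ν W`. Let
`n = ν + 1`. `S_Dec` (`t ≤ B n`: `X t ≤ j n + t` gives `t ≤ j n` (`X ≥ 2`) and `j ≤ Y ≤ B`; `X^3 n ≤ t`: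
`j n ≤ (4X+1) t`, `j ≥ X^9`): the list `w`. `V1 = X (V + t) / 25`. `S_CutQ` for the box `l' × t` (`l := t`,
`W := V1`), `w.length (V1 + t) ≤ 5 X (X (V+t)/25 + t) ≤ W` (`S_WinNum`). `t + V1 ≤ x ν (ν+1)`: `x n ≥ t` (thin:
clear; `q`-piece: `x q n + q n + (q+1) 2 X n > (q+1) t` and `t ≥ X^3 n` give `x n ≥ t`), so
`x ν n ≥ ν t`, and `V1 ≤ ν^2/X ≤ (ν - 1) t`. BC for the pieces: CHILD: if `1 ≤ l0`, `Cl X κ x l0`, `κ j ≤ 5 X μ`,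
`j ≤ X^2 x`, `x ≤ j`, `Y^(r+2) ≤ κ` then `BC F κ x l0 V`: `P_r` (`X^(3r+6) ≤ x`, as `X^(3r+9) ≤ j ≤ X^2 x`;
`2 x ≤ 2 j ≤ Y`), `S_KidNum`, and monotonicity in `W`. THIN piece `x` (`κ = ν`, `l0 = t`): `Thin` is `Cl X ν x t`;
`ν j ≤ 4.2 X μ`; `j n ≤ (4X+1) t ≤ (4X+1) x n`, so `j ≤ X^2 x`; `x n ≤ t + 4 X n ≤ j n` (`X t ≤ j n + t`,
`t ≥ X^3 n`); `Y^(r+2) ≤ ν`: `10 j (ν+1) ≥ 9 X μ ≥ 9 X Y^(r+3) ≥ 18 X j Y^(r+2)`. So `BC` with `V ≤ V1`.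
`q`-PIECE `x`: `S_QP` with `μ := ν`, `j := x`, `l := t`: `8 t ≤ ν (ν+1)` (`X^3 t ≤ ν^2`), window
`(q+1) (V + t) ≤ X (V+t)/25`; its children `(κ, x', l0)`: `κ j ≤ ν j ≤ 5 X μ` (`κ + 1 ≤ 2 ν / q ≤ ν`),
`t ≤ 2 q x' n`, so `j n ≤ (4X+1) 2 q x' n`, `j ≤ X^2 x'` (`50 q ≤ X`); `x' ≤ x ≤ j` (`x q n ≤ (q+1) t`,
`x n ≤ 1.5 t ≤ j n`); `Y^(r+2) ≤ κ`: `3 q (κ+1) ≥ ν`, `10 (ν+1) ≥ 18 X Y^(r+2) ≥ 900 q Y^(r+2)`. -/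
def S_StepP : Prop := ∀ (F : Type u) [Field F] [CharZero F] (X B Y r : ℕ), Fam X B →
  1000 ≤ X → Y ≤ B → PR F X Y r → PR F X Y (r + 1)

/-- PALL. PROOF. Induction on `r`: `S_Base`, `S_StepP`. -/
def S_PAll : Prop := ∀ (F : Type u) [Field F] [CharZero F] (X B Y r : ℕ), Fam X B →
  1000 ≤ X → Y ≤ B → PR F X Y r

/-! ### The strip and the plane -/

/-- NUMX: the numbers of a strip. Pure. PROOF. As `ShghPS.S_Num1` (same estimates), but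
`J = g (μ+1) / (l + 2 X (μ+1))` (floor), `l = L + 1`. `μ R ∈ [1.65 m, 7.75 m]`, `g μ^2 ∈ [0.8712, 25.83] m^2`,
`b = l/(μ+1) ∈ [0.49 R, 3.37 R]`, `2X ≤ 2*10^(-6) R`, so `J ∈ [0.08 R, 0.65 R]`. `g/J ≥ b + 2X` and
`g / J ≤ (b + 2X) (J+1)/J ≤ b + 2X + 50` (real numbers), so `j ∈ {g/J, g/J + 1}` (integer division)
satisfies `b + X ≤ j ≤ b + 4X`, that is `Cl X μ j l`; `10 j ≥ 4 R`, `j ≤ 4 R`.
`J (μ (μ+1) + 2 l) ≤ t l`, `t = m + μ + 1`: `J ≤ g (μ+1)/l`, `J μ (μ+1) ≤ (μ+1)/l * g μ (μ+1) ≤ t l/100`,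
`2 J l ≤ 2 g (μ+1) ≤ t l/100`. `J l ≤ g (μ+1) ≤ 4 R m`. -/
def S_NumX : Prop := ∀ (X R m a g μ L : ℕ) (π : ℤ), 1000 ≤ X → 10 ^ 6 * X ≤ R →
  30 * (R + 1) ^ 2 ≤ m → 4 * R ≤ 10 * a → 10 * a ≤ 6 * R → 32 * R ^ 2 ≤ 100 * g →
  100 * g ≤ 43 * R ^ 2 → 99 * m ≤ 100 * (a * μ) → 100 * (a * μ) ≤ 310 * m →
  ((m : ℤ) + μ + 1) * (L + 1) = g * (μ * (μ + 1)) + π → 20 * π ≤ m ^ 2 → -(m : ℤ) ^ 2 ≤ 20 * π →
  165 * m ≤ 100 * (μ * R) ∧ 100 * (μ * R) ≤ 775 * m ∧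
  ∃ J : ℕ, 1 ≤ J ∧ 100 * J ≤ 65 * R ∧ g / J + 1 ≤ 4 * R ∧
    J * (μ * (μ + 1) + 2 * (L + 1)) ≤ (m + μ + 1) * (L + 1) ∧ J * (L + 1) ≤ 4 * (R * m) ∧
    ∀ j, (j = g / J ∨ j = g / J + 1) → Cl X μ j (L + 1) ∧ 4 * R ≤ 10 * j

/-- The window of the strips at level `r`. -/
def ThX (X r m R : ℕ) : ℕ := X ^ (2 * r ^ 2 + 8 * r + 6) * m ^ 2 / R ^ (2 * r + 3) + 5 * (R * m)

/-- BANDX: the window of the strip. Hypotheses of the proof: `S_NumX`, `ShghPS.S_StripW`. PROOF.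
`S_NumX`: `J`. For `j = g/J`, `g/J + 1`: `PR` with `Y = 8 R`: `X^(3r+6) ≤ j` (`10 X^(3r+6) ≤ 4 R ≤ 10 j`),
`2 j ≤ 8 R`, `(8R)^(r+2) ≤ μ` (`100 μ R ≥ 165 m ≥ 165 (8R)^(r+3)`). So `BlkC F μ j L W` with
`W = X^((2r+5)(r+1)) μ^2 (10)^(2r+2) / (4R)^(2r+2) + X^2 μ + 1` (`BC` is monotone in `W`). `S_StripW` with `n = a^2`;
`2 (g/J + 1) ≤ 8 R ≤ β`. `J (W + L + 1) ≤ ThX X r m R`: `J ≤ 0.65 R`, `μ ≤ 7.75 m/R`: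
`J X^(..) μ^2 (2.5/R)^(2r+2) ≤ 39 * 6.25^(r+1) X^((2r+5)(r+1)) m^2/R^(2r+3) ≤
X^((2r+5)(r+1) + r + 1) m^2/R^(2r+3) / 2`, `J X^2 μ ≤ 5.04 X^2 m ≤ R m/4`, `J ≤ m/4`, `J (L+1) ≤ 4 R m`. (Half of the
first term is lost by the rounding: `X^(..) m^2 / R^(2r+3)`, if it is `< 2` then the `W`-term is
`≤ J + J X^2 μ`; so write everything with real numbers and `⌊x⌋ + y ≥ x - 1 + y`.) -/
def S_BandX : Prop := ∀ (F : Type u) [Field F] [CharZero F] (X R m r : ℕ), 1000 ≤ X →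
  10 ^ 6 * X ^ 2 ≤ R → 10 * X ^ (3 * r + 6) ≤ 4 * R → (8 * R) ^ (r + 3) ≤ m →
  30 * (R + 1) ^ 2 ≤ m → PR F X (8 * R) r → BandAt F R m (ThX X r m R)

/-- FAMX: parameters. Pure. PROOF. `Fam`: `ShghPE.famList n`: `l.sum ≤ 2 n * 2 n`, `4^n / (2 n) ≤ l.prod`
(`Nat.div_le_of_le_mul`). -/
def S_FamX : Prop := ∀ n : ℕ, 1 ≤ n → Fam (400 * n ^ 2) (4 ^ n / (2 * n))

/-- PAR: parameters for large `R`. Pure. PROOF. `n` = the least number with `16 n R ≤ 4^n`; then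
`4^(n-1) < 16 (n - 1) R`, so `2^n ≤ 16 R`-ish and `n ≤ 2 log2 R + 10`; `X = 400 n^2`,
`B = 4^n/(2n) ≥ 8 R`; a power of `n` is smaller than `R` for large `R` (for example `n^(c') ≤ C 2^(n/2)`
for a constant `C` depending on `c'`: `Nat`-version `n^(2c+1) ≤ (2c+1)^(2c+1) 2^n ..`). -/
def S_Par : Prop := ∀ c X0 : ℕ, ∃ R0 : ℕ, ∀ R : ℕ, R0 ≤ R →
  ∃ X B, Fam X B ∧ 8 * R ≤ B ∧ X0 ≤ X ∧ X ^ c ≤ R

/-- THM: the theorem for the exponents `r + 9/4`. Hypotheses of the proof: `ShghPS.S_FinA`, `S_PAll`,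
`S_BandX`, `ShghPS.S_FinG`, `S_Par`. PROOF. Induction on `r`. `r = 0`: `S_FinA`: `10^20 m^2 ≤ s^5` because
`m^4 ≤ s^9` and `s ≥ 10^40` (`10^40 m^4 ≤ s^10`). `r + 1`: let `r0 = r + 1`, `c' = 2 r0^2 + 8 r0 + 6`,
`c = 2 c' + 2` (`≥ 3 r0 + 8`), `n = 2 r + 7`, `X0` large, `X`, `B` from `S_Par`. Let `s` be large, `R + s` even,
`(R+1)^2 ≤ s < (R+3)^2` (`R = Nat.sqrt s - 1` or `- 2`). If `m^4 ≤ s^(4r+9)`: induction. Otherwise `m^4 >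
s^(4r+9) ≥ R^(8r+18)`, so `m ≥ R^(2r+9/2) ≥ (8R)^(r+4)` (compare fourth powers: `8^(4r+16) ≤ R^2`) and
`m ≥ 30 (R+1)^2`, `m > 31 s`; `m^4 ≤ s^(4r+13) < (R+3)^(8r+26) ≤ 2 R^(8r+26)`, so
`20 (75 n^2)^n m ≤ R^(n+1)`. `Θ = ThX X r0 m R`: `25 * 2^n (Θ + 2 R m) ≤ R^2 m`, because
`50 * 2^n X^(c') m ≤ R^(2 r0+5)`: fourth powers: `(50 * 2^n)^4 X^(4c') m^4 ≤
X^(4c'+4) R^(8r+26) = X^(2c) R^(8r+26) ≤ R^(8r+28) = (R^(2 r0 + 5))^4`. `10^6 X^2 ≤ X^4 ≤ R`,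
`10 X^(3 r0+6) ≤ X^(3 r0+7) ≤ R`. `S_PAll` with `Y = 8 R`, `S_BandX`, `S_FinG`. -/
def S_Thm : Prop := ∀ r : ℕ, ∃ s0 : ℕ, ∀ (F : Type u) [Field F] [CharZero F] (m s d : ℕ),
  s0 ≤ s → 1 ≤ m → m ^ 4 ≤ s ^ (4 * r + 9) →
  hF F d (Multiset.replicate s m) = T (d + 1) - s * T m

/-- THME: THEOREM E. PROOF. `S_Thm` with `r = k`: `m^4 ≤ s^(4k) ≤ s^(4k+9)`. -/
def S_ThmE : Prop := ∀ k : ℕ, ∃ s0 : ℕ, ∀ (F : Type u) [Field F] [CharZero F] (m s d : ℕ),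
  s0 ≤ s → 1 ≤ m → m ≤ s ^ k →
  hF F d (Multiset.replicate s m) = T (d + 1) - s * T m

/-- FINW: windows for one value of `m`. As `ShghPS.S_FinB` with `BandAt F R m Θ`. PROOF. `a` = the largest
even number `≤ R/2`, `r = R - a`; `cap ≤ a (v+1) ≤ R^2 m`. `χ ≥ w = R^2 m + Θ`: the least degree `d1`
with `χ(d1) ≥ w`, `χ(d1) < w + d1 + 1 ≤ m^2/25`, `S_OneDG`, second alternative; `χ ≤ -w`: third
alternative; see `ShghPS.tFinB`. -/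
def S_FinW : Prop := ∀ (F : Type u) [Field F] [CharZero F] (R m s Θ : ℕ), BandAt F R m Θ →
  10 ^ 7 ≤ R → (R + 1) ^ 2 ≤ s → s < (R + 3) ^ 2 → Even (s + R) → 31 * s < m → 200 * Θ ≤ m ^ 2 →
  ∀ d : ℕ, (R : ℤ) ^ 2 * m + Θ ≤ |(T (d + 1) : ℤ) - s * T m| →
    hF F d (Multiset.replicate s m) = T (d + 1) - s * T m

/-- THMW: windows for all `m`. Hypotheses of the proof: `S_Thm`, `S_PAll`, `S_BandX`, `S_FinW`, `S_Par`.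
PROOF. `r = k + 3`. If `m^4 ≤ s^(4r+9)`: `S_Thm`. Otherwise `m ≥ s^(k+3)`, `R` as in `S_Thm`, `Θ = ThX X r m R`;
`R^2 m + Θ ≤ |χ|`: `|χ| ≥ m^2/s^k`, `R^2 m + 5 R m ≤ s^2 m ≤ m^2/(4 s^k)`, and
`X^(..) m^2 / R^(2r+3) ≤ m^2/(4 s^k)` because `s^k ≤ (2 R^2)^k`, `2r+3 = 2k+9`. -/
def S_ThmW : Prop := ∀ k : ℕ, ∃ s0 : ℕ, ∀ (F : Type u) [Field F] [CharZero F] (m s d : ℕ),
  s0 ≤ s → 1 ≤ m → (m : ℤ) ^ 2 ≤ s ^ k * |(T (d + 1) : ℤ) - s * T m| →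
  hF F d (Multiset.replicate s m) = T (d + 1) - s * T m

end ShghPE
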