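import Pool.Agent.ShghPE.Spec

/-!
# ShghPE, StepP: `P_r` implies `P_(r+1)`
-/

namespace ShghPE

open MvPolynomial ShghJ ShghC ShghK ShghPS

universe u

private theorem sp_mul_le {a b c : ℕ} (hc : 0 < c) (h : a * c ≤ b * c) : a ≤ b :=
  Nat.le_of_mul_le_mul_right h hc

/-- numbers of a piece -/
private theorem sp_ge {X q x t n : ℕ} (hX : 1000 ≤ X) (hq : 2 ≤ q) (hq2 : 50 * q ≤ X)
    (h : QT X q x t n) (ht : X ^ 3 * n ≤ t) : t ≤ x * n := by
  obtain ⟨h1, h2⟩ := h
  -- q n + (q+1) 2 X n ≤ t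
  have h3 : q * n + (q + 1) * (2 * X * n) ≤ t := by
    have h4 : q + (q + 1) * (2 * X) ≤ X ^ 3 := by
      have g1 : (q + 1) * (2 * X) ≤ X * (2 * X) := Nat.mul_le_mul_right _ (by omega)
      have g2 : 1000 * (X * X) ≤ X * (X * X) := Nat.mul_le_mul_right _ hX
      have g3 : 1000 * X ≤ X * X := Nat.mul_le_mul_right _ hX
      calc q + (q + 1) * (2 * X) ≤ X * (X * X) := by
            have g4 : X * (2 * X) = 2 * (X * X) := by ring
            omega
        _ = X ^ 3 := by ring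
    calc q * n + (q + 1) * (2 * X * n) = (q + (q + 1) * (2 * X)) * n := by ring
      _ ≤ X ^ 3 * n := Nat.mul_le_mul_right n h4
      _ ≤ t := ht
  have h5 : q * t ≤ q * (x * n) := by
    have e1 : (x + 1) * (q * n) = q * (x * n) + q * n := by ring
    have e2 : (q + 1) * t = q * t + t := by ring
    rw [e1, e2] at h2
    omega
  exact Nat.le_of_mul_le_mul_left h5 (by omega)

private theorem sp_le {X q x t n j : ℕ} (hX : 1000 ≤ X) (hq : 2 ≤ q)
    (h : QT X q x t n) (hn : 1 ≤ n) (h3 : X * t ≤ j * n + t) : x ≤ j := by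
  obtain ⟨h1, h2⟩ := h
  have h4 : 2 * (q * (x * n)) ≤ 3 * (q * t) := by
    have e1 : x * (q * n) = q * (x * n) := by ring
    rw [e1] at h1
    have h5 : (q + 1) * t * 2 ≤ 3 * (q * t) := by
      have g1 : 2 * t ≤ q * t := Nat.mul_le_mul_right t hq
      have g2 : (q + 1) * t * 2 = 2 * (q * t) + 2 * t := by ring
      omega
    have h6 := Nat.zero_le ((q + 1) * (2 * X * n))
    omega
  have h7 : 2 * (x * n) ≤ 3 * t := by
    have : q * (2 * (x * n)) ≤ q * (3 * t) := by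
      calc q * (2 * (x * n)) = 2 * (q * (x * n)) := by ring
        _ ≤ 3 * (q * t) := h4
        _ = q * (3 * t) := by ring
    exact Nat.le_of_mul_le_mul_left this (by omega)
  have h8 : 1000 * t ≤ X * t := Nat.mul_le_mul_right t hX
  have h9 : x * n ≤ j * n := by omega
  exact Nat.le_of_mul_le_mul_right h9 (by omega)

theorem tStepP (h1 : S_MonQ.{u}) (h2 : S_CritQ.{u}) (h3 : S_CutQ.{u}) (h4 : S_Dec)
    (h5 : S_CritNum) (h6 : S_WinNum) (h7 : S_KidNum) (h8 : S_QP.{u}) : S_StepP.{u} := by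
  intro F _ _ X B Y r hFam hX hYB hP μ j l hl hCl hj hjY hμ
  have hX0 : 0 < X := by omega
  have hj9 : X ^ (3 * r + 9) ≤ j := by
    have e : 3 * (r + 1) + 6 = 3 * r + 9 := by ring
    rwa [e] at hj
  have hX9 : X ^ 9 ≤ j := (Nat.pow_le_pow_right hX0 (by omega)).trans hj9
  have hX6 : X ^ 6 ≤ j := (Nat.pow_le_pow_right hX0 (by omega)).trans hj9
  have hj1 : 1 ≤ j := (Nat.one_le_pow _ _ hX0).trans hX6
  have hY1 : 1 ≤ Y := by omega
  have hP1 : 1 ≤ Y ^ (r + 2) := Nat.one_le_pow _ _ hY1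
  have hμ2 : Y ^ (r + 2) * Y ≤ μ := by
    have e : r + 1 + 2 = (r + 2) + 1 := by ring
    rw [e, pow_succ] at hμ
    exact hμ
  have h8j : 8 * j ^ 3 ≤ μ := by
    calc 8 * j ^ 3 = (2 * j) ^ 3 := by ring
      _ ≤ Y ^ 3 := Nat.pow_le_pow_left hjY 3
      _ ≤ Y ^ (r + 1 + 2) := Nat.pow_le_pow_right hY1 (by omega)
      _ ≤ μ := hμ
  have hμ1 : 1 ≤ μ := by
    have : 1 ≤ j ^ 3 := Nat.one_le_pow _ _ hj1
    omega
  have hlj : l ≤ j * (μ + 1) := by
    have := hCl.1
    have h0 := Nat.zero_le (X * (μ + 1))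
    omega
  obtain ⟨hw1, hw2⟩ := h6 X r μ j l hX hj9 h8j hlj
  set W := Wn (r + 1) X μ j with hW
  set V := Vn r X μ j with hV
  refine h2 F μ j l W hμ1 hj1 hl fun t ht1 hπ => ?_
  have hc : |(t : ℤ) * l - j * (μ * (μ + 1))| * (X ^ 3 * j) ≤ μ ^ 2 := by
    have hp : (0 : ℤ) ≤ (X : ℤ) ^ 3 * j := by positivity
    have hq : ((W : ℤ) + l) * (X ^ 3 * j) ≤ μ ^ 2 := by exact_mod_cast hw1
    exact (mul_le_mul_of_nonneg_right hπ.le hp).trans hq
  obtain ⟨ν, l', e1, e2, hν1, hl1, n1, n2, n3, n4, n5⟩ := h5 X μ j l t hX hCl hX6 h8j hc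
  obtain ⟨hw3, hw4⟩ := hw2 t ν n5 n1
  refine (h1 F t l j μ W).2.2 ν l' e1 hl hl1 e2 ?_
  refine (h1 F t l' j ν W).2.1 ht1 hl1 ?_
  -- numbers
  have hn1 : 1 ≤ ν + 1 := Nat.succ_pos ν
  have k1 : 999 * t ≤ j * (ν + 1) := by
    have : 1000 * t ≤ X * t := Nat.mul_le_mul_right t hX
    omega
  have k2 : X ^ 3 * (ν + 1) ≤ t := by
    have a1 : 4 * X + 1 ≤ X ^ 6 := by
      calc 4 * X + 1 ≤ X * X := by
            have g1 : 1000 * X ≤ X * X := Nat.mul_le_mul_right X hX
            omega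
        _ = X ^ 2 := by ring
        _ ≤ X ^ 6 := Nat.pow_le_pow_right hX0 (by omega)
    have a2 : X ^ 6 * (X ^ 3 * (ν + 1)) ≤ X ^ 6 * t := by
      calc X ^ 6 * (X ^ 3 * (ν + 1)) = X ^ 9 * (ν + 1) := by ring
        _ ≤ j * (ν + 1) := Nat.mul_le_mul_right _ hX9
        _ ≤ (4 * X + 1) * t := n4
        _ ≤ X ^ 6 * t := Nat.mul_le_mul_right _ a1
    exact Nat.le_of_mul_le_mul_left a2 (pow_pos hX0 _)
  have k3 : t ≤ B * (ν + 1) := by
    have : j * (ν + 1) ≤ B * (ν + 1) := Nat.mul_le_mul_right _ (by omega)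
    omega
  obtain ⟨w, hws, hwn, hwl, hwx⟩ := h4 X B j t (ν + 1) hFam hX hn1 k3 k2 n3 n4
  -- ν is large
  have kν : 9 * (X * Y ^ (r + 2)) ≤ 5 * (ν + 1) := by
    have a1 : 2 * j * Y ^ (r + 2) ≤ μ := by
      calc 2 * j * Y ^ (r + 2) ≤ Y * Y ^ (r + 2) := Nat.mul_le_mul_right _ hjY
        _ = Y ^ (r + 2) * Y := by ring
        _ ≤ μ := hμ2
    have a2 : 9 * (X * (2 * j * Y ^ (r + 2))) ≤ 10 * (j * (ν + 1)) :=
      (Nat.mul_le_mul_left 9 (Nat.mul_le_mul_left X a1)).trans n1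
    have a3 : 2 * j * (9 * (X * Y ^ (r + 2))) ≤ 2 * j * (5 * (ν + 1)) := by
      calc 2 * j * (9 * (X * Y ^ (r + 2))) = 9 * (X * (2 * j * Y ^ (r + 2))) := by ring
        _ ≤ 10 * (j * (ν + 1)) := a2
        _ = 2 * j * (5 * (ν + 1)) := by ring
    exact Nat.le_of_mul_le_mul_left a3 (by omega)
  have kν2 : 1800 * Y ^ (r + 2) ≤ ν + 1 := by
    have : 1000 * Y ^ (r + 2) ≤ X * Y ^ (r + 2) := Nat.mul_le_mul_right _ hX
    omega
  have kX2 : 4 * X + 1 ≤ X ^ 2 := by
    have g1 : 1000 * X ≤ X * X := Nat.mul_le_mul_right X hX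
    rw [sq]
    omega
  -- children
  have kid : ∀ κ x l0, 1 ≤ l0 → Cl X κ x l0 → κ * j ≤ 5 * (X * μ) → j ≤ X ^ 2 * x → x ≤ j →
      Y ^ (r + 2) ≤ κ → BC F κ x l0 V := by
    intro κ x l0 b1 b2 b3 b4 b5 b6 T' hT'
    have b7 : X ^ (3 * r + 6) ≤ x := by
      have c1 : X ^ 2 * X ^ (3 * r + 7) ≤ X ^ 2 * x := by
        calc X ^ 2 * X ^ (3 * r + 7) = X ^ (3 * r + 9) := by rw [← pow_add]; congr 1; ring
          _ ≤ j := hj9
          _ ≤ X ^ 2 * x := b4
      exact (Nat.pow_le_pow_right hX0 (by omega)).trans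
        (Nat.le_of_mul_le_mul_left c1 (pow_pos hX0 _))
    exact (h1 F T' l0 x κ _).1 V (h7 X r μ j κ x hX hj9 b3 b4)
      (hP κ x l0 b1 b2 b7 (by omega) b6 T' hT')
  set V1 := X * (V + t) / 25 with hV1
  have v1 : 25 * V1 ≤ X * (V + t) := Nat.mul_div_le _ _
  have v2 : w.length * (V1 + t) ≤ W := by
    have c1 : w.length * (V1 + t) ≤ 5 * X * (V1 + t) := Nat.mul_le_mul_right _ hwl
    have c2 : 25 * (5 * X * (V1 + t)) ≤ 25 * W := by
      calc 25 * (5 * X * (V1 + t)) = 5 * X * (25 * V1) + 5 * (25 * (X * t)) := by ring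
        _ ≤ 5 * X * (X * (V + t)) + 5 * (25 * (X * t)) :=
          Nat.add_le_add_right (Nat.mul_le_mul_left _ v1) _
        _ = 5 * (X ^ 2 * (V + t) + 25 * (X * t)) := by ring
        _ ≤ 5 * (5 * W) := Nat.mul_le_mul_left 5 hw4
        _ = 25 * W := by ring
    omega
  have v3 : V ≤ V1 := by
    rw [hV1, Nat.le_div_iff_mul_le (by norm_num)]
    have : 1000 * (V + t) ≤ X * (V + t) := Nat.mul_le_mul_right _ hX
    omega
  have v4 : t + V1 ≤ ν * t := by
    have c1 : 25 * V1 ≤ X ^ 3 * (V + t) :=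
      v1.trans (Nat.mul_le_mul_right _ (Nat.le_self_pow (by norm_num) X))
    have c2 : V1 ≤ ν ^ 2 := by omega
    have c3 : ν + 1 ≤ t := by
      have : 1 * (ν + 1) ≤ X ^ 3 * (ν + 1) := Nat.mul_le_mul_right _ (Nat.one_le_pow _ _ hX0)
      omega
    have c4 : 1000 * (ν + 1) ≤ t := by
      have : 1000 * (ν + 1) ≤ X ^ 3 * (ν + 1) := Nat.mul_le_mul_right _
        (hX.trans (Nat.le_self_pow (by norm_num) X))
      omega
    obtain ⟨ρ, hρ⟩ : ∃ ρ, ν = ρ + 2 := ⟨ν - 2, by omega⟩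
    rw [hρ] at c2 c4 ⊢
    have c5 : (ρ + 1) * (1000 * (ρ + 2 + 1)) ≤ (ρ + 1) * t := Nat.mul_le_mul_left _ c4
    have c6 : (ρ + 1) * (1000 * (ρ + 2 + 1)) = (ρ + 2) ^ 2 + (999 * ρ ^ 2 + 3996 * ρ + 2996) := by
      ring
    have c7 : (ρ + 2) * t = (ρ + 1) * t + t := by ring
    rw [c7]
    omega
  have hcut := h3 F w l' t ν V1 hwn hl1 ht1 hν1 (by
    intro x hx
    have hxt : t ≤ x * (ν + 1) := by
      rcases hwx x hx with h | ⟨q, hq, hq2, hQ⟩
      · have := h.1
        omega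
      · exact sp_ge hX hq hq2 hQ k2
    have hx1 : 1 ≤ x := by
      rcases Nat.eq_zero_or_pos x with h | h
      · rw [h, zero_mul] at hxt
        omega
      · exact h
    refine ⟨hx1, ?_, ?_⟩
    · calc t + V1 ≤ ν * t := v4
        _ ≤ ν * (x * (ν + 1)) := Nat.mul_le_mul_left ν hxt
        _ = x * (ν * (ν + 1)) := by ring
    · rcases hwx x hx with h | ⟨q, hq, hq2, hQ⟩
      · -- thin piece
        have c1 : ν * j ≤ 5 * (X * μ) := by
          have : ν * j ≤ j * (ν + 1) := by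
            calc ν * j ≤ (ν + 1) * j := Nat.mul_le_mul_right j (Nat.le_succ ν)
              _ = j * (ν + 1) := mul_comm _ _
          omega
        have c2 : j ≤ X ^ 2 * x := by
          have d1 : j * (ν + 1) ≤ X ^ 2 * x * (ν + 1) := by
            calc j * (ν + 1) ≤ (4 * X + 1) * t := n4
              _ ≤ X ^ 2 * (x * (ν + 1)) := Nat.mul_le_mul kX2 hxt
              _ = X ^ 2 * x * (ν + 1) := by ring
          exact Nat.le_of_mul_le_mul_right d1 hn1
        have c3 : x ≤ j := by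
          have d1 : 4 * X * (ν + 1) ≤ t := by
            refine (Nat.mul_le_mul_right _ ?_).trans k2
            calc 4 * X ≤ X ^ 2 := by omega
              _ ≤ X ^ 3 := Nat.pow_le_pow_right hX0 (by omega)
          have d2 : x * (ν + 1) ≤ j * (ν + 1) := by
            have := h.2
            omega
          exact Nat.le_of_mul_le_mul_right d2 hn1
        intro T' hT'
        exact (h1 F T' t x ν V).1 V1 v3 (kid ν x t ht1 h c1 c2 c3 (by omega) T' hT')
      · -- a q-piece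
        have hx_le : x ≤ j := sp_le hX hq hQ hn1 n3
        have c0 : 8 * t ≤ ν * (ν + 1) := by
          have d1 : 8 * t ≤ X ^ 3 * (V + t) := by
            calc 8 * t ≤ X ^ 3 * t := Nat.mul_le_mul_right t
                  (le_trans (by omega : 8 ≤ X) (Nat.le_self_pow (by norm_num) X))
              _ ≤ X ^ 3 * (V + t) := Nat.mul_le_mul_left _ (Nat.le_add_left t V)
          have d2 : ν * (ν + 1) = ν ^ 2 + ν := by ring
          omega
        have hqp := h8 F X q ν x t V hX hq hq2 hQ k2 c0 hw3 (by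
          intro κ x' l0 b1 b2 b3 b4 b5 b6
          have d1 : κ + 1 ≤ ν := by
            have : 2 * (κ + 1) ≤ q * (κ + 1) := Nat.mul_le_mul_right _ hq
            omega
          have d2 : κ * j ≤ 5 * (X * μ) := by
            have : κ * j ≤ j * (ν + 1) := by
              calc κ * j ≤ (ν + 1) * j := Nat.mul_le_mul_right j (by omega)
                _ = j * (ν + 1) := mul_comm _ _
            omega
          have d3 : j ≤ X ^ 2 * x' := by
            have f0 : (4 * X + 1) * (2 * q) ≤ X ^ 2 := by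
              have g1 : (4 * X + 1) * (50 * q) ≤ X ^ 2 * X := Nat.mul_le_mul kX2 hq2
              have g2 : (4 * X + 1) * (50 * q) ≤ (4 * X + 1) * X := Nat.mul_le_mul_left _ hq2
              have g3 : (4 * X + 1) * (50 * q) = 25 * ((4 * X + 1) * (2 * q)) := by ring
              have g4 : (4 * X + 1) * X = 4 * X ^ 2 + X := by ring
              have g5 : X ≤ X ^ 2 := Nat.le_self_pow (by norm_num) X
              omega
            have f1 : j * (ν + 1) ≤ X ^ 2 * x' * (ν + 1) := by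
              calc j * (ν + 1) ≤ (4 * X + 1) * t := n4
                _ ≤ (4 * X + 1) * (2 * (q * (x' * (ν + 1)))) := Nat.mul_le_mul_left _ b3
                _ = (4 * X + 1) * (2 * q) * (x' * (ν + 1)) := by ring
                _ ≤ X ^ 2 * (x' * (ν + 1)) := Nat.mul_le_mul_right _ f0
                _ = X ^ 2 * x' * (ν + 1) := by ring
            exact Nat.le_of_mul_le_mul_right f1 hn1
          have d4 : Y ^ (r + 2) ≤ κ := by
            have f1 : 9 * (50 * q * Y ^ (r + 2)) ≤ 5 * (3 * (q * (κ + 1)) + 1) := by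
              have g1 : 50 * q * Y ^ (r + 2) ≤ X * Y ^ (r + 2) := Nat.mul_le_mul_right _ hq2
              omega
            have f2 : q * (30 * Y ^ (r + 2)) ≤ q * (κ + 1 + 1) := by
              have g2 : 9 * (50 * q * Y ^ (r + 2)) = 15 * (q * (30 * Y ^ (r + 2))) := by ring
              have g3 : q * (κ + 1 + 1) = q * (κ + 1) + q := by ring
              rw [g2] at f1
              rw [g3]
              omega
            have f3 := Nat.le_of_mul_le_mul_left f2 (by omega)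
            omega
          exact kid κ x' l0 b1 b2 d2 d3 (b4.trans hx_le) d4)
        intro T' hT'
        refine (h1 F T' t x ν _).1 V1 ?_ (hqp T' hT')
        rw [hV1, Nat.le_div_iff_mul_le (by norm_num)]
        calc (q + 1) * (V + t) * 25 = (25 * (q + 1)) * (V + t) := by ring
          _ ≤ X * (V + t) := Nat.mul_le_mul_right _ (by omega))
  rw [hws] at hcut
  exact (h1 F l' t j ν _).1 W v2 hcut

end ShghPE
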