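import Pool.Agent.ShghPE.Spec

/-!
# ShghPE, Thm: the theorem for the exponents `r + 9/4`
-/

namespace ShghPE

open MvPolynomial ShghJ ShghC ShghK ShghPS

universe u

private theorem tm_bern (R k : ℕ) (h : 6 * k ≤ R) : (R + 3) ^ k ≤ 2 * R ^ k := by
  rcases Nat.eq_zero_or_pos R with hR | hR
  · have hk : k = 0 := by omega
    subst hk
    simp
  have h1 : ∀ j, j ≤ k → (R + 3) ^ j * R ≤ R ^ j * (R + 6 * j) := by
    intro j
    induction j with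
    | zero => intro _; simp
    | succ j ih =>
      intro hj
      have h2 := ih (by omega)
      have h3 : (R + 6 * j) * (R + 3) ≤ R * (R + 6 * (j + 1)) := by
        have h4 : 6 * j ≤ R := by omega
        nlinarith
      calc (R + 3) ^ (j + 1) * R = ((R + 3) ^ j * R) * (R + 3) := by ring
        _ ≤ (R ^ j * (R + 6 * j)) * (R + 3) := Nat.mul_le_mul_right _ h2
        _ = R ^ j * ((R + 6 * j) * (R + 3)) := by ring
        _ ≤ R ^ j * (R * (R + 6 * (j + 1))) := Nat.mul_le_mul_left _ h3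
        _ = R ^ (j + 1) * (R + 6 * (j + 1)) := by ring
  have h2 := h1 k le_rfl
  have h3 : (R + 3) ^ k * R ≤ (2 * R ^ k) * R := by
    refine h2.trans ?_
    have h4 : R + 6 * k ≤ 2 * R := by omega
    calc R ^ k * (R + 6 * k) ≤ R ^ k * (2 * R) := Nat.mul_le_mul_left _ h4
      _ = (2 * R ^ k) * R := by ring
  exact Nat.le_of_mul_le_mul_right h3 hR

private theorem tm_root {a b : ℕ} (h : a ^ 4 ≤ b ^ 4) : a ≤ b :=
  (Nat.pow_le_pow_iff_left (by norm_num)).1 h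

private theorem tm_root_lt {a b : ℕ} (h : a ^ 4 < b ^ 4) : a < b :=
  (Nat.pow_lt_pow_iff_left (by norm_num)).1 h

/-- The choice of `R`. -/
private theorem tm_R (R0 s : ℕ) (h : (R0 + 2) ^ 2 ≤ s) : ∃ R, R0 ≤ R ∧ (R + 1) ^ 2 ≤ s ∧
    s < (R + 3) ^ 2 ∧ Even (s + R) := by
  have h1 : R0 + 2 ≤ Nat.sqrt s := by
    rw [Nat.le_sqrt']
    exact h
  have h2 : Nat.sqrt s ^ 2 ≤ s := Nat.sqrt_le' s
  have h3 : s < (Nat.sqrt s + 1) ^ 2 := Nat.lt_succ_sqrt' s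
  set N := Nat.sqrt s
  rcases Nat.even_or_odd (s + N) with he | ho
  · refine ⟨N - 2, by omega, ?_, ?_, ?_⟩
    · exact (Nat.pow_le_pow_left (by omega) 2).trans h2
    · exact h3.trans_le (Nat.pow_le_pow_left (by omega) 2)
    · obtain ⟨k, hk⟩ := he
      exact ⟨k - 1, by omega⟩
  · refine ⟨N - 1, by omega, ?_, ?_, ?_⟩
    · exact (Nat.pow_le_pow_left (by omega) 2).trans h2
    · exact h3.trans_le (Nat.pow_le_pow_left (by omega) 2)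
    · obtain ⟨k, hk⟩ := ho
      exact ⟨k, by omega⟩

/-- The numbers of one step. -/
private theorem tm_num (r n R m s X : ℕ) (hn : n = 2 * r + 7)
    (hX : 10 ^ 7 + 8 ^ (2 * r + 8) + 20 ^ n + 400 * n ^ 2 + 350 * 2 ^ n + 40 * (75 * n ^ 2) ^ n +
      6 * (8 * r + 26) ≤ X)
    (hXR : X ^ (2 * (2 * (r + 1) ^ 2 + 8 * (r + 1) + 6) + 2) ≤ R)
    (hRs : (R + 1) ^ 2 ≤ s) (hsR : s < (R + 3) ^ 2)
    (hm1 : s ^ (4 * r + 9) < m ^ 4) (hm2 : m ^ 4 ≤ s ^ (4 * r + 13)) :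
    X ≤ R ∧ 10 ^ 6 * X ^ 2 ≤ R ∧ 10 * X ^ (3 * (r + 1) + 6) ≤ 4 * R ∧
    (8 * R) ^ (r + 1 + 3) ≤ m ∧ 31 * s < m ∧ 20 * (75 * n ^ 2) ^ n * m ≤ R ^ (n + 1) ∧
    25 * 2 ^ n * (ThX X (r + 1) m R + 2 * R * m) ≤ R ^ 2 * m := by
  set c' := 2 * (r + 1) ^ 2 + 8 * (r + 1) + 6 with hc'
  have p8 : 0 < 8 ^ (2 * r + 8) := by positivity
  have p20 : 0 < 20 ^ n := by positivity
  have p75 : 0 < (75 * n ^ 2) ^ n := by
    have : 0 < n := by omega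
    positivity
  have p2 : 0 < 2 ^ n := by positivity
  have hX7 : 10 ^ 7 ≤ X := by omega
  have hX1 : 1 ≤ X := le_trans (by norm_num) hX7
  have hXpow : ∀ k, k ≤ 2 * c' + 2 → X ^ k ≤ R := fun k hk =>
    (Nat.pow_le_pow_right hX1 hk).trans hXR
  have hc1 : 4 * 1 ≤ c' := by rw [hc']; nlinarith
  have hXR1 : X ≤ R := by
    have := hXpow 1 (by omega)
    simpa using this
  have hR1 : 1 ≤ R := hX1.trans hXR1
  have hR2s : R ^ 2 ≤ s := (Nat.pow_le_pow_left (Nat.le_succ R) 2).trans hRs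
  -- bounds of m
  have hmR : R ^ (8 * r + 18) < m ^ 4 := by
    refine lt_of_le_of_lt ?_ hm1
    calc R ^ (8 * r + 18) = (R ^ 2) ^ (4 * r + 9) := by rw [← pow_mul]; ring_nf
      _ ≤ s ^ (4 * r + 9) := Nat.pow_le_pow_left hR2s _
  have hmU : m ^ 4 ≤ 2 * R ^ (8 * r + 26) := by
    refine hm2.trans ?_
    calc s ^ (4 * r + 13) ≤ ((R + 3) ^ 2) ^ (4 * r + 13) := Nat.pow_le_pow_left hsR.le _
      _ = (R + 3) ^ (8 * r + 26) := by rw [← pow_mul]; ring_nf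
      _ ≤ 2 * R ^ (8 * r + 26) := tm_bern R _ (by omega)
  refine ⟨hXR1, ?_, ?_, ?_, ?_, ?_, ?_⟩
  · -- 10^6 X^2 ≤ R
    calc 10 ^ 6 * X ^ 2 ≤ X ^ 1 * X ^ 2 := by
          apply Nat.mul_le_mul_right
          rw [pow_one]
          exact le_trans (by norm_num) hX7
      _ = X ^ 3 := by ring
      _ ≤ R := hXpow 3 (by omega)
  · -- 10 X^(3r+9) ≤ 4R
    have h1 : X * X ^ (3 * (r + 1) + 6) ≤ R := by
      rw [← pow_succ']
      refine hXpow _ ?_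
      rw [hc']
      nlinarith
    have h2 : 10 * X ^ (3 * (r + 1) + 6) ≤ X * X ^ (3 * (r + 1) + 6) :=
      Nat.mul_le_mul_right _ (le_trans (by norm_num) hX7)
    omega
  · -- (8R)^(r+4) ≤ m
    apply tm_root
    refine le_of_lt (lt_of_le_of_lt ?_ hmR)
    have h1 : (8 ^ (2 * r + 8)) ^ 2 ≤ R ^ 2 := Nat.pow_le_pow_left (by omega) 2
    calc ((8 * R) ^ (r + 1 + 3)) ^ 4 = (8 ^ (2 * r + 8)) ^ 2 * R ^ (4 * r + 16) := by
          rw [mul_pow, mul_pow, ← pow_mul, ← pow_mul, ← pow_mul]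
          ring_nf
      _ ≤ R ^ 2 * R ^ (4 * r + 16) := Nat.mul_le_mul_right _ h1
      _ = R ^ (4 * r + 18) := by rw [← pow_add]; ring_nf
      _ ≤ R ^ (8 * r + 18) := Nat.pow_le_pow_right hR1 (by omega)
  · -- 31 s < m
    apply tm_root_lt
    refine lt_of_le_of_lt ?_ hm1
    have h31 : 31 ≤ s := by
      have h2 : R ≤ R ^ 2 := by nlinarith
      omega
    have hs1 : 1 ≤ s := by omega
    calc (31 * s) ^ 4 = 31 ^ 4 * s ^ 4 := by ring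
      _ ≤ s ^ 4 * s ^ 4 := Nat.mul_le_mul_right _ (Nat.pow_le_pow_left h31 4)
      _ = s ^ 8 := by ring
      _ ≤ s ^ (4 * r + 9) := Nat.pow_le_pow_right hs1 (by omega)
  · -- 20 (75 n^2)^n m ≤ R^(n+1)
    apply tm_root
    have h1 : 2 * (20 * (75 * n ^ 2) ^ n) ≤ R := by omega
    have h1' : 20 * (75 * n ^ 2) ^ n ≤ R := by omega
    have h2 : 2 * (20 * (75 * n ^ 2) ^ n) ^ 4 ≤ R ^ 4 := by
      calc 2 * (20 * (75 * n ^ 2) ^ n) ^ 4 =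
          (2 * (20 * (75 * n ^ 2) ^ n)) * (20 * (75 * n ^ 2) ^ n) ^ 3 := by ring
        _ ≤ R * R ^ 3 := Nat.mul_le_mul h1 (Nat.pow_le_pow_left h1' 3)
        _ = R ^ 4 := by ring
    calc (20 * (75 * n ^ 2) ^ n * m) ^ 4 = (20 * (75 * n ^ 2) ^ n) ^ 4 * m ^ 4 := by ring
      _ ≤ (20 * (75 * n ^ 2) ^ n) ^ 4 * (2 * R ^ (8 * r + 26)) := Nat.mul_le_mul_left _ hmU
      _ = (2 * (20 * (75 * n ^ 2) ^ n) ^ 4) * R ^ (8 * r + 26) := by ring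
      _ ≤ R ^ 4 * R ^ (8 * r + 26) := Nat.mul_le_mul_right _ h2
      _ = R ^ (8 * r + 30) := by rw [← pow_add]; ring_nf
      _ ≤ R ^ (8 * r + 32) := Nat.pow_le_pow_right hR1 (by omega)
      _ = (R ^ (n + 1)) ^ 4 := by rw [← pow_mul, hn]; ring_nf
  · -- the window
    have h2n : 2 * (50 * 2 ^ n) ≤ X := by omega
    have h2n' : 50 * 2 ^ n ≤ X := by omega
    have e1 : 50 * 2 ^ n * X ^ c' * m ≤ R ^ (2 * (r + 1) + 5) := by
      apply tm_root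
      have h3 : 2 * (50 * 2 ^ n) ^ 4 ≤ X ^ 4 := by
        calc 2 * (50 * 2 ^ n) ^ 4 = (2 * (50 * 2 ^ n)) * (50 * 2 ^ n) ^ 3 := by ring
          _ ≤ X * X ^ 3 := Nat.mul_le_mul h2n (Nat.pow_le_pow_left h2n' 3)
          _ = X ^ 4 := by ring
      have h4 : X ^ 4 * (X ^ c') ^ 4 ≤ R ^ 2 := by
        calc X ^ 4 * (X ^ c') ^ 4 = (X ^ (2 * c' + 2)) ^ 2 := by
              rw [← pow_mul, ← pow_mul, ← pow_add]
              ring_nf
          _ ≤ R ^ 2 := Nat.pow_le_pow_left hXR 2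
      calc (50 * 2 ^ n * X ^ c' * m) ^ 4 = (50 * 2 ^ n) ^ 4 * (X ^ c') ^ 4 * m ^ 4 := by ring
        _ ≤ (50 * 2 ^ n) ^ 4 * (X ^ c') ^ 4 * (2 * R ^ (8 * r + 26)) :=
          Nat.mul_le_mul_left _ hmU
        _ = (2 * (50 * 2 ^ n) ^ 4) * (X ^ c') ^ 4 * R ^ (8 * r + 26) := by ring
        _ ≤ X ^ 4 * (X ^ c') ^ 4 * R ^ (8 * r + 26) :=
          Nat.mul_le_mul_right _ (Nat.mul_le_mul_right _ h3)
        _ ≤ R ^ 2 * R ^ (8 * r + 26) := Nat.mul_le_mul_right _ h4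
        _ = (R ^ (2 * (r + 1) + 5)) ^ 4 := by rw [← pow_add, ← pow_mul]; ring_nf
    -- 50 2^n (X^c' m^2 / R^(2r+5)) ≤ R^2 m
    have e2 : 50 * 2 ^ n * (X ^ c' * m ^ 2 / R ^ (2 * (r + 1) + 3)) ≤ R ^ 2 * m := by
      have hpos : 0 < R ^ (2 * (r + 1) + 3) := by positivity
      refine Nat.le_of_mul_le_mul_right (?_ : _ * R ^ (2 * (r + 1) + 3) ≤ _) hpos
      calc 50 * 2 ^ n * (X ^ c' * m ^ 2 / R ^ (2 * (r + 1) + 3)) * R ^ (2 * (r + 1) + 3)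
          = 50 * 2 ^ n * ((X ^ c' * m ^ 2 / R ^ (2 * (r + 1) + 3)) * R ^ (2 * (r + 1) + 3)) := by
            ring
        _ ≤ 50 * 2 ^ n * (X ^ c' * m ^ 2) := Nat.mul_le_mul_left _ (Nat.div_mul_le_self _ _)
        _ = (50 * 2 ^ n * X ^ c' * m) * m := by ring
        _ ≤ R ^ (2 * (r + 1) + 5) * m := Nat.mul_le_mul_right _ e1
        _ = R ^ 2 * m * R ^ (2 * (r + 1) + 3) := by ring
    have e3 : 350 * 2 ^ n * (R * m) ≤ R ^ 2 * m := by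
      have h5 : 350 * 2 ^ n ≤ R := by omega
      calc 350 * 2 ^ n * (R * m) ≤ R * (R * m) := Nat.mul_le_mul_right _ h5
        _ = R ^ 2 * m := by ring
    have e4 : ThX X (r + 1) m R = X ^ c' * m ^ 2 / R ^ (2 * (r + 1) + 3) + 5 * (R * m) := rfl
    rw [e4]
    have e5 : 2 * (25 * 2 ^ n * (X ^ c' * m ^ 2 / R ^ (2 * (r + 1) + 3) + 5 * (R * m) +
        2 * R * m)) ≤ 2 * (R ^ 2 * m) := by
      calc 2 * (25 * 2 ^ n * (X ^ c' * m ^ 2 / R ^ (2 * (r + 1) + 3) + 5 * (R * m) +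
            2 * R * m)) = 50 * 2 ^ n * (X ^ c' * m ^ 2 / R ^ (2 * (r + 1) + 3)) +
            350 * 2 ^ n * (R * m) := by ring
        _ ≤ R ^ 2 * m + R ^ 2 * m := Nat.add_le_add e2 e3
        _ = 2 * (R ^ 2 * m) := by ring
    exact Nat.le_of_mul_le_mul_left e5 (by norm_num)

theorem tThm (h1 : ShghPS.S_FinA.{u}) (h2 : S_PAll.{u}) (h3 : S_BandX.{u})
    (h4 : ShghPS.S_FinG.{u}) (h5 : S_Par) : S_Thm.{u} := by
  intro r
  induction r with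
  | zero =>
    refine ⟨10 ^ 40, fun F _ _ m s d hs hm hms => h1 F d m s hm (le_trans (by norm_num) hs) ?_⟩
    have e1 : (10 ^ 20 * m ^ 2) ^ 2 ≤ (s ^ 5) ^ 2 := by
      calc (10 ^ 20 * m ^ 2) ^ 2 = 10 ^ 40 * m ^ 4 := by ring
        _ ≤ s * s ^ (4 * 0 + 9) := Nat.mul_le_mul hs hms
        _ = (s ^ 5) ^ 2 := by ring
    exact (Nat.pow_le_pow_iff_left (by norm_num)).1 e1
  | succ r ih =>
    obtain ⟨s1, hs1⟩ := ih
    obtain ⟨n, hn⟩ : ∃ n, n = 2 * r + 7 := ⟨_, rfl⟩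
    obtain ⟨X0, hX0⟩ : ∃ X0, X0 = 10 ^ 7 + 8 ^ (2 * r + 8) + 20 ^ n + 400 * n ^ 2 +
      350 * 2 ^ n + 40 * (75 * n ^ 2) ^ n + 6 * (8 * r + 26) := ⟨_, rfl⟩
    obtain ⟨R0, hR0⟩ := h5 (2 * (2 * (r + 1) ^ 2 + 8 * (r + 1) + 6) + 2) X0
    refine ⟨s1 + (R0 + 2) ^ 2, fun F _ _ m s d hs hm hms => ?_⟩
    by_cases hc : m ^ 4 ≤ s ^ (4 * r + 9)
    · exact hs1 F m s d (by omega) hm hc
    rw [not_le] at hc
    obtain ⟨R, hRR0, hRs, hsR, hev⟩ := tm_R R0 s (by omega)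
    obtain ⟨X, B, hF, hB, hX, hXR⟩ := hR0 R hRR0
    have hms' : m ^ 4 ≤ s ^ (4 * r + 13) := hms
    obtain ⟨g1, g2, g3, g4, g5, g6, g7⟩ := tm_num r n R m s X hn (hX0 ▸ hX) hXR hRs hsR hc hms'
    have p8 : 0 < 8 ^ (2 * r + 8) := by positivity
    have p20 : 0 < 20 ^ n := by positivity
    have hX7 : 10 ^ 7 ≤ X := by omega
    have g8 : 30 * (R + 1) ^ 2 ≤ m := by omega
    have hPR : PR F X (8 * R) (r + 1) := h2 F X B (8 * R) (r + 1) hF (by omega) hB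
    have hBand : BandAt F R m (ThX X (r + 1) m R) :=
      h3 F X R m (r + 1) (by omega) g2 g3 g4 g8 hPR
    refine h4 F R m s n (ThX X (r + 1) m R) hBand (by omega) hRs hsR hev g5 (by omega) g6 ?_
      (by omega) g7 d
    -- 20^n R ≤ m
    have h20 : 20 ^ n ≤ R := by omega
    calc 20 ^ n * R ≤ R * R := Nat.mul_le_mul_right _ h20
      _ = R ^ 2 := by ring
      _ ≤ (R + 1) ^ 2 := Nat.pow_le_pow_left (Nat.le_succ R) 2
      _ ≤ 30 * (R + 1) ^ 2 := by omega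
      _ ≤ m := g8

end ShghPE
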