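import Pool.Agent.ShghPE.Spec

/-!
# ShghPE, ThmE: THEOREM E
-/

namespace ShghPE

open MvPolynomial ShghJ ShghC ShghK ShghPS

universe u

theorem tThmE (h1 : S_Thm.{u}) : S_ThmE.{u} := by
  intro k
  obtain ⟨s0, h⟩ := h1 k
  refine ⟨s0 + 1, fun F _ _ m s d hs hm hms => h F m s d (by omega) hm ?_⟩
  calc m ^ 4 ≤ (s ^ k) ^ 4 := Nat.pow_le_pow_left hms 4
    _ = s ^ (4 * k) := by rw [← pow_mul]; ring_nf
    _ ≤ s ^ (4 * k + 9) := Nat.pow_le_pow_right (by omega) (by omega)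

end ShghPE
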