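import Pool.Agent.ShghPE.Spec

/-!
# ShghPE, ThmW: windows for all `m`
-/

namespace ShghPE

open MvPolynomial ShghJ ShghC ShghK ShghPS

universe u

private theorem tw_exR (s N : ℕ) (h : (N + 3) ^ 2 ≤ s) :
    ∃ R, (R + 1) ^ 2 ≤ s ∧ s < (R + 3) ^ 2 ∧ Even (s + R) ∧ N ≤ R := by
  have h1 := Nat.sqrt_le' s
  have h2 := Nat.lt_succ_sqrt' s
  have h3 : N + 3 ≤ Nat.sqrt s := Nat.le_sqrt'.2 h
  obtain ⟨a, ha⟩ : ∃ a, Nat.sqrt s = a + 2 := ⟨Nat.sqrt s - 2, by omega⟩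
  rw [ha] at h1 h2 h3
  rw [Nat.succ_eq_add_one] at h2
  rcases Nat.even_or_odd (s + a) with he | ho
  · refine ⟨a, le_trans (Nat.pow_le_pow_left (by omega) 2) h1, ?_, he, by omega⟩
    exact h2
  · refine ⟨a + 1, ?_, lt_of_lt_of_le h2 (Nat.pow_le_pow_left (by omega) 2), ?_, by omega⟩
    · exact h1
    · rw [← add_assoc]
      exact ho.add_one

/-- The rounded term. -/
private theorem tw_div (C A m2 B : ℕ) (hB : 0 < B) (h : C * A ≤ B) : C * (A * m2 / B) ≤ m2 := by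
  have h1 : A * m2 / B * B ≤ A * m2 := Nat.div_mul_le_self _ _
  have h2 : C * (A * m2 / B) * B ≤ m2 * B := by
    calc C * (A * m2 / B) * B = C * (A * m2 / B * B) := by ring
      _ ≤ C * (A * m2) := Nat.mul_le_mul_left _ h1
      _ = C * A * m2 := by ring
      _ ≤ B * m2 := Nat.mul_le_mul_right _ h
      _ = m2 * B := by ring
  exact Nat.le_of_mul_le_mul_right h2 hB

private theorem tw_num (k s m R X : ℕ) (hRs : (R + 1) ^ 2 ≤ s) (hsR : s < (R + 3) ^ 2)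
    (hR7 : 10 ^ 7 ≤ R) (h2k : 2 ^ k ≤ R) (hX : 1000 ≤ X)
    (hXc : X ^ (2 * (k + 3) ^ 2 + 11 * (k + 3) + 13) ≤ R) (hm : s ^ (4 * (k + 3) + 9) < m ^ 4) :
    10 ^ 6 * X ^ 2 ≤ R ∧ 10 * X ^ (3 * (k + 3) + 6) ≤ 4 * R ∧ (8 * R) ^ (k + 3 + 3) ≤ m ∧
    30 * (R + 1) ^ 2 ≤ m ∧ 31 * s < m ∧ 200 * ThX X (k + 3) m R ≤ m ^ 2 ∧
    s ^ k * (R ^ 2 * m + ThX X (k + 3) m R) ≤ m ^ 2 := by
  have hX1 : 1 ≤ X := by omega
  have hR0 : 0 < R := by omega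
  have hRR : R ^ 2 ≤ s := le_trans (Nat.pow_le_pow_left (by omega) 2) hRs
  have hs14 : 10 ^ 14 ≤ s := by
    calc 10 ^ 14 = (10 ^ 7) ^ 2 := by norm_num
      _ ≤ R ^ 2 := Nat.pow_le_pow_left hR7 2
      _ ≤ s := hRR
  have hs0 : 0 < s := by omega
  have hm5 : s ^ (k + 5) < m := by
    by_contra hcon
    push Not at hcon
    have h1 : m ^ 4 ≤ s ^ (4 * (k + 3) + 9) := by
      calc m ^ 4 ≤ (s ^ (k + 5)) ^ 4 := Nat.pow_le_pow_left hcon 4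
        _ = s ^ (4 * k + 20) := by rw [← pow_mul]; congr 1; ring
        _ ≤ s ^ (4 * (k + 3) + 9) := Nat.pow_le_pow_right hs0 (by omega)
    omega
  have hsk : 1 ≤ s ^ k := Nat.one_le_pow _ _ hs0
  have hmk : 10 ^ 14 * s ^ (k + 1) ≤ m := by
    calc 10 ^ 14 * s ^ (k + 1) ≤ s * s ^ (k + 1) := Nat.mul_le_mul_right _ hs14
      _ = s ^ (k + 2) := by ring
      _ ≤ s ^ (k + 5) := Nat.pow_le_pow_right hs0 (by omega)
      _ ≤ m := hm5.le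
  have hms : 10 ^ 14 * s ≤ m := by
    calc 10 ^ 14 * s = 10 ^ 14 * s ^ 1 := by rw [pow_one]
      _ ≤ 10 ^ 14 * s ^ (k + 1) := Nat.mul_le_mul_left _ (Nat.pow_le_pow_right hs0 (by omega))
      _ ≤ m := hmk
  have hRm : R ≤ s := le_trans (Nat.le_self_pow (by norm_num) R) hRR
  have hXe : ∀ e, e ≤ 2 * (k + 3) ^ 2 + 11 * (k + 3) + 13 → X ^ e ≤ R := fun e he =>
    le_trans (Nat.pow_le_pow_right hX1 he) hXc
  have e1 : (2 * (k + 3) ^ 2 + 8 * (k + 3) + 6) ≤ 2 * (k + 3) ^ 2 + 11 * (k + 3) + 13 := by omega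
  have hXA := hXe _ e1
  have hs2 : s ≤ 2 * R ^ 2 := by nlinarith
  have hR8 : 10 ^ 7 * R ^ 2 ≤ R ^ 8 := by
    calc 10 ^ 7 * R ^ 2 ≤ R * R ^ 2 := Nat.mul_le_mul_right _ hR7
      _ = R ^ 3 := by ring
      _ ≤ R ^ 8 := Nat.pow_le_pow_right hR0 (by norm_num)
  -- the two inequalities for the first term
  have hA1 : 400 * X ^ (2 * (k + 3) ^ 2 + 8 * (k + 3) + 6) ≤ R ^ (2 * (k + 3) + 3) := by
    calc 400 * X ^ (2 * (k + 3) ^ 2 + 8 * (k + 3) + 6) ≤ R * R :=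
          Nat.mul_le_mul (by omega) hXA
      _ = R ^ 2 := by ring
      _ ≤ R ^ (2 * (k + 3) + 3) := Nat.pow_le_pow_right hR0 (by omega)
  have hA2 : (2 * s ^ k) * X ^ (2 * (k + 3) ^ 2 + 8 * (k + 3) + 6) ≤ R ^ (2 * (k + 3) + 3) := by
    have h1 : s ^ k ≤ R * R ^ (2 * k) := by
      calc s ^ k ≤ (2 * R ^ 2) ^ k := Nat.pow_le_pow_left hs2 k
        _ = 2 ^ k * R ^ (2 * k) := by rw [mul_pow, ← pow_mul]
        _ ≤ R * R ^ (2 * k) := Nat.mul_le_mul_right _ h2k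
    calc (2 * s ^ k) * X ^ (2 * (k + 3) ^ 2 + 8 * (k + 3) + 6)
        ≤ (R * (R * R ^ (2 * k))) * R := Nat.mul_le_mul (Nat.mul_le_mul (by omega) h1) hXA
      _ = R ^ (2 * k + 3) := by ring
      _ ≤ R ^ (2 * (k + 3) + 3) := Nat.pow_le_pow_right hR0 (by omega)
  have hRp : 0 < R ^ (2 * (k + 3) + 3) := Nat.pow_pos hR0
  have hD1 := tw_div _ _ (m ^ 2) _ hRp hA1
  have hD2 := tw_div _ _ (m ^ 2) _ hRp hA2
  have hTh : ThX X (k + 3) m R =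
    X ^ (2 * (k + 3) ^ 2 + 8 * (k + 3) + 6) * m ^ 2 / R ^ (2 * (k + 3) + 3) + 5 * (R * m) := rfl
  generalize X ^ (2 * (k + 3) ^ 2 + 8 * (k + 3) + 6) * m ^ 2 / R ^ (2 * (k + 3) + 3) = D at *
  rw [hTh]
  refine ⟨?_, ?_, ?_, ?_, ?_, ?_, ?_⟩
  · calc 10 ^ 6 * X ^ 2 = 1000 ^ 2 * X ^ 2 := by norm_num
      _ ≤ X ^ 2 * X ^ 2 := Nat.mul_le_mul_right _ (Nat.pow_le_pow_left hX 2)
      _ = X ^ 4 := by ring
      _ ≤ R := hXe 4 (by omega)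
  · calc 10 * X ^ (3 * (k + 3) + 6) ≤ X * X ^ (3 * (k + 3) + 6) :=
          Nat.mul_le_mul_right _ (by omega)
      _ = X ^ (3 * (k + 3) + 7) := by ring
      _ ≤ R := hXe _ (by omega)
      _ ≤ 4 * R := by omega
  · calc (8 * R) ^ (k + 3 + 3) = 8 ^ (k + 6) * R ^ (k + 6) := by rw [mul_pow]
      _ ≤ 8 ^ (2 * (k + 4)) * R ^ (k + 6) :=
          Nat.mul_le_mul_right _ (Nat.pow_le_pow_right (by norm_num) (by omega))
      _ = 64 ^ (k + 4) * R ^ (k + 6) := by rw [pow_mul]; norm_num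
      _ ≤ R ^ (k + 4) * R ^ (k + 6) :=
          Nat.mul_le_mul_right _ (Nat.pow_le_pow_left (by omega) _)
      _ = (R ^ 2) ^ (k + 5) := by rw [← pow_add, ← pow_mul]; congr 1; ring
      _ ≤ s ^ (k + 5) := Nat.pow_le_pow_left hRR _
      _ ≤ m := hm5.le
  · calc 30 * (R + 1) ^ 2 ≤ 30 * s := Nat.mul_le_mul_left _ hRs
      _ ≤ m := by omega
  · omega
  · have h1 : 2000 * (R * m) ≤ m * m := by
      calc 2000 * (R * m) = (2000 * R) * m := by ring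
        _ ≤ m * m := Nat.mul_le_mul_right _ (by omega)
    have h2 : m ^ 2 = m * m := by ring
    rw [h2] at hD1 ⊢
    omega
  · have h1 : s ^ k * (R ^ 2 * m) + s ^ k * (5 * (R * m)) ≤ 6 * (s ^ (k + 1) * m) := by
      have h3 : s ^ k * (R ^ 2 * m) ≤ s ^ k * (s * m) :=
        Nat.mul_le_mul_left _ (Nat.mul_le_mul_right _ hRR)
      have h4 : s ^ k * (5 * (R * m)) ≤ s ^ k * (5 * (s * m)) :=
        Nat.mul_le_mul_left _ (Nat.mul_le_mul_left _ (Nat.mul_le_mul_right _ hRm))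
      calc s ^ k * (R ^ 2 * m) + s ^ k * (5 * (R * m))
          ≤ s ^ k * (s * m) + s ^ k * (5 * (s * m)) := Nat.add_le_add h3 h4
        _ = 6 * (s ^ (k + 1) * m) := by ring
    have h2 : 12 * (s ^ (k + 1) * m) ≤ m * m := by
      calc 12 * (s ^ (k + 1) * m) = (12 * s ^ (k + 1)) * m := by ring
        _ ≤ m * m := Nat.mul_le_mul_right _ (by omega)
    have h5 : m ^ 2 = m * m := by ring
    have h6 : s ^ k * (R ^ 2 * m + (D + 5 * (R * m))) =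
      s ^ k * D + (s ^ k * (R ^ 2 * m) + s ^ k * (5 * (R * m))) := by ring
    have h7 : 2 * s ^ k * D = 2 * (s ^ k * D) := by ring
    rw [h7, h5] at hD2
    rw [h6, h5]
    omega

theorem tThmW (h1 : S_Thm.{u}) (h2 : S_PAll.{u}) (h3 : S_BandX.{u}) (h4 : S_FinW.{u})
    (h5 : S_Par) : S_ThmW.{u} := by
  intro k
  obtain ⟨s1, hs1⟩ := h1 (k + 3)
  obtain ⟨R0, hR0⟩ := h5 (2 * (k + 3) ^ 2 + 11 * (k + 3) + 13) 1000
  obtain ⟨K, hK⟩ : ∃ K, K = 2 ^ k := ⟨_, rfl⟩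
  refine ⟨max s1 ((R0 + 10 ^ 7 + K + 3) ^ 2), ?_⟩
  intro F _ _ m s d hs hm hw
  by_cases hc : m ^ 4 ≤ s ^ (4 * (k + 3) + 9)
  · exact hs1 F m s d (le_trans (le_max_left _ _) hs) hm hc
  push Not at hc
  obtain ⟨R, hRs, hsR, hev, hRb⟩ := tw_exR s (R0 + 10 ^ 7 + K) (le_trans (le_max_right _ _) hs)
  obtain ⟨X, B, hF, hB, hX, hXc⟩ := hR0 R (by omega)
  have hR7 : 10 ^ 7 ≤ R := le_trans (by omega) hRb
  have h2k : 2 ^ k ≤ R := by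
    rw [← hK]
    exact le_trans (by omega) hRb
  obtain ⟨a1, a2, a3, a4, a5, a6, a7⟩ := tw_num k s m R X hRs hsR hR7 h2k hX hXc hc
  have hP : PR F X (8 * R) (k + 3) := h2 F X B (8 * R) (k + 3) hF hX hB
  have hBand := h3 F X R m (k + 3) hX a1 a2 a3 a4 hP
  refine h4 F R m s _ hBand hR7 hRs hsR hev a5 a6 d ?_
  have hs0 : 0 < s := lt_of_lt_of_le (by positivity) hRs
  have hsk : (0 : ℤ) < (s : ℤ) ^ k := pow_pos (by exact_mod_cast hs0) k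
  have a8 : (s : ℤ) ^ k * ((R : ℤ) ^ 2 * m + ThX X (k + 3) m R) ≤ (m : ℤ) ^ 2 := by
    exact_mod_cast a7
  exact le_of_mul_le_mul_left (le_trans a8 hw) hsk

end ShghPE
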